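import Mathlib

/-!
Duality for the least `μ` such that `R` lies in a translate of `L + μ (L - L)`.
-/

set_option autoImplicit false
set_option linter.unusedSectionVars false

open Set Filter Topology

namespace Pool.Agent.H81.R2

variable {E : Type*} [NormedAddCommGroup E] [NormedSpace ℝ E] [FiniteDimensional ℝ E]

/-- The set `L + μ (L - L)`. -/
def Wd (L : Set E) (μ : ℝ) : Set E := {q | ∃ l ∈ L, ∃ a ∈ L, ∃ b ∈ L, q = l + μ • (a - b)}

/-- `R` lies in a translate of `L + μ (L - L)`. -/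
def Fit (L R : Set E) (μ : ℝ) : Prop := ∃ x : E, ∀ r ∈ R, r - x ∈ Wd L μ

/-- The support function. -/
noncomputable def sL (L : Set E) (φ : StrongDual ℝ E) : ℝ := sSup (φ '' L)

theorem Wd_compact {L : Set E} (hL : IsCompact L) (μ : ℝ) : IsCompact (Wd L μ) := by
  have h1 : Wd L μ = (fun p : E × E × E => p.1 + μ • (p.2.1 - p.2.2)) '' (L ×ˢ L ×ˢ L) := by
    ext q
    constructor
    · rintro ⟨l, hl, a, ha, b, hb, rfl⟩
      exact ⟨(l, a, b), ⟨hl, ha, hb⟩, rfl⟩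
    · rintro ⟨⟨l, a, b⟩, ⟨hl, ha, hb⟩, rfl⟩
      exact ⟨l, hl, a, ha, b, hb, rfl⟩
  rw [h1]
  refine (hL.prod (hL.prod hL)).image ?_
  fun_prop

theorem Wd_convex {L : Set E} (hc : Convex ℝ L) (μ : ℝ) : Convex ℝ (Wd L μ) := by
  rintro _ ⟨l, hl, a, ha, b, hb, rfl⟩ _ ⟨l', hl', a', ha', b', hb', rfl⟩ s t hs ht hst
  refine ⟨s • l + t • l', hc hl hl' hs ht hst, s • a + t • a', hc ha ha' hs ht hst, s • b + t • b',
    hc hb hb' hs ht hst, ?_⟩
  module

theorem sL_attained {L : Set E} (hL : IsCompact L) (hn : L.Nonempty) (φ : StrongDual ℝ E) : ∃ l ∈ L, sL L φ = φ l :=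
  hL.exists_sSup_image_eq hn φ.continuous.continuousOn

theorem sL_le {L : Set E} (hL : IsCompact L) (φ : StrongDual ℝ E) {l : E} (hl : l ∈ L) : φ l ≤ sL L φ :=
  le_csSup (hL.image φ.continuous).bddAbove (mem_image_of_mem _ hl)

theorem sL_zero {L : Set E} (hn : L.Nonempty) : sL L 0 = 0 := by
  unfold sL
  have : (⇑(0 : StrongDual ℝ E)) '' L = {0} := by
    ext y
    constructor
    · rintro ⟨l, _, rfl⟩
      simp
    · rintro rfl
      obtain ⟨l, hl⟩ := hn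
      exact ⟨l, hl, by simp⟩
  rw [this, csSup_singleton]

theorem sL_smul {L : Set E} (hL : IsCompact L) (hn : L.Nonempty) {t : ℝ} (ht : 0 ≤ t) (φ : StrongDual ℝ E) :
    sL L (t • φ) = t * sL L φ := by
  obtain ⟨l, hl, h1⟩ := sL_attained hL hn φ
  obtain ⟨m, hm, h2⟩ := sL_attained hL hn (t • φ)
  refine le_antisymm ?_ ?_
  · rw [h2]
    exact mul_le_mul_of_nonneg_left (sL_le hL φ hm) ht
  · rw [h1]
    exact sL_le hL (t • φ) hl

theorem sL_cont {L : Set E} (hL : IsCompact L) : Continuous (sL L) := by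
  have h1 : Continuous (fun p : StrongDual ℝ E × E => p.1 p.2) := isBoundedBilinearMap_apply.continuous
  exact hL.continuous_sSup (f := fun (φ : StrongDual ℝ E) (l : E) => φ l) h1

/-- A linear functional which is bounded above vanishes. -/
theorem Dual_zero {g : StrongDual ℝ E} {C : ℝ} (h : ∀ x, g x < C) : g = 0 := by
  ext x
  by_contra hne
  have hne' : g x ≠ 0 := hne
  have h1 := h ((C / g x) • x)
  rw [map_smul, smul_eq_mul, div_mul_cancel₀ _ hne'] at h1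
  exact lt_irrefl _ h1

theorem Dual_sum (f : StrongDual ℝ (Fin 3 → E)) (q : Fin 3 → E) :
    f q = ∑ k, (f.comp (ContinuousLinearMap.single ℝ (fun _ => E) k)) (q k) := by
  have h1 : q = ∑ k, Pi.single k (q k) := (Finset.univ_sum_single q).symm
  conv_lhs => rw [h1]
  rw [map_sum]
  rfl

/-- A surjection from `Fin 3`. -/
theorem Dual_surj {ι : Type*} {I : Finset ι} (hn : I.Nonempty) (hI : I.card ≤ 3) :
    ∃ f : Fin 3 → ι, (∀ k, f k ∈ I) ∧ ∀ i ∈ I, ∃ k, f k = i := by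
  classical
  obtain ⟨i0, hi0⟩ := hn
  obtain ⟨f, hf⟩ : ∃ f : Fin 3 → ι, f = fun k : Fin 3 => if h : (k : ℕ) < I.card then (I.equivFin.symm ⟨k, h⟩ : ι) else i0 := ⟨_, rfl⟩
  refine ⟨f, fun k => ?_, fun i hi => ?_⟩
  · rw [hf]
    by_cases h : (k : ℕ) < I.card
    · simp only [h, dite_true]
      exact (I.equivFin.symm ⟨k, h⟩).2
    · simp only [h, dite_false]
      exact hi0
  · obtain ⟨j, hj⟩ : ∃ j, j = I.equivFin ⟨i, hi⟩ := ⟨_, rfl⟩
    refine ⟨⟨j, j.2.trans_le hI⟩, ?_⟩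
    rw [hf]
    have h : (j : ℕ) < I.card := j.2
    simp only [h, dite_true]
    show ((I.equivFin.symm j : ↥I) : ι) = i
    rw [hj, Equiv.symm_apply_apply]

/-- Separation. -/
theorem sep (h2 : Module.finrank ℝ E = 2) {L R : Set E} (hL : IsCompact L) (hc : Convex ℝ L) (hn : L.Nonempty)
    {μ : ℝ} (hR : ¬ Fit L R μ) : ∃ (φ : Fin 3 → StrongDual ℝ E) (r : Fin 3 → E), (∀ k, r k ∈ R) ∧
      φ 0 + φ 1 + φ 2 = 0 ∧ ∑ k, (sL L (φ k) + μ * (sL L (φ k) + sL L (-φ k))) < ∑ k, φ k (r k) := by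
  -- three members
  obtain ⟨F, hF⟩ : ∃ F : ↥R → Set E, F = fun r : ↥R => {x | (r : E) - x ∈ Wd L μ} := ⟨_, rfl⟩
  have hFc : ∀ i, Convex ℝ (F i) := by
    intro i
    rw [hF]
    intro x hx y hy s t hs ht hst
    have := Wd_convex hc μ hx hy hs ht hst
    have e1 : s • ((i : E) - x) + t • ((i : E) - y) = (i : E) - (s • x + t • y) := by
      have : (i : E) = (s + t) • (i : E) := by rw [hst, one_smul]
      conv_rhs => rw [this]
      module
    rw [e1] at this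
    exact this
  have hFk : ∀ i, IsCompact (F i) := by
    intro i
    rw [hF]
    have e1 : {x | (i : E) - x ∈ Wd L μ} = (fun q => (i : E) - q) '' Wd L μ := by
      ext x
      constructor
      · intro hx
        exact ⟨(i : E) - x, hx, sub_sub_cancel _ _⟩
      · rintro ⟨q, hq, rfl⟩
        show (i : E) - ((i : E) - q) ∈ Wd L μ
        rwa [sub_sub_cancel]
    show IsCompact {x | (i : E) - x ∈ Wd L μ}
    rw [e1]
    exact (Wd_compact hL μ).image (by fun_prop)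
  have h3 : ∃ I : Finset R, I.card ≤ 3 ∧ ¬ (⋂ i ∈ I, F i).Nonempty := by
    by_contra hcon
    push Not at hcon
    obtain ⟨x, hx⟩ := Convex.helly_theorem_compact' (𝕜 := ℝ) hFc hFk fun I hI => hcon I (by rw [h2] at hI; exact hI)
    refine hR ⟨x, fun r hr => ?_⟩
    have := mem_iInter.1 hx ⟨r, hr⟩
    rw [hF] at this
    exact this
  obtain ⟨I, hI, hIe⟩ := h3
  have hIn : I.Nonempty := by
    by_contra hcon
    rw [Finset.not_nonempty_iff_eq_empty] at hcon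
    subst hcon
    exact hIe ⟨0, by simp⟩
  obtain ⟨ρ, hρ, hρs⟩ := Dual_surj hIn hI
  obtain ⟨r, hr⟩ : ∃ r : Fin 3 → E, r = fun k => (ρ k : E) := ⟨_, rfl⟩
  have hdis : ∀ x, ¬ ∀ k, r k - x ∈ Wd L μ := by
    intro x hx
    refine hIe ⟨x, ?_⟩
    simp only [mem_iInter]
    intro i hi
    obtain ⟨k, rfl⟩ := hρs i hi
    have := hx k
    rw [hr] at this
    rw [hF]
    exact this
  obtain ⟨s, hs⟩ : ∃ s : Set (Fin 3 → E), s = Set.pi univ fun _ => Wd L μ := ⟨_, rfl⟩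
  obtain ⟨t, ht⟩ : ∃ t : Set (Fin 3 → E), t = {q | ∀ k, r k - q k = r 0 - q 0} := ⟨_, rfl⟩
  have hsk : IsCompact s := by
    rw [hs]
    exact isCompact_univ_pi fun _ => Wd_compact hL μ
  have hsc : Convex ℝ s := by
    rw [hs]
    exact convex_pi fun _ _ => Wd_convex hc μ
  have htc : Convex ℝ t := by
    rw [ht]
    intro x hx y hy a b ha hb hab k
    have h1 := hx k
    have h2 := hy k
    have e1 : r k - (a • x + b • y) k = a • (r k - x k) + b • (r k - y k) := by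
      have : r k = (a + b) • r k := by rw [hab, one_smul]
      conv_lhs => rw [this]
      simp only [Pi.add_apply, Pi.smul_apply]
      module
    have e2 : r 0 - (a • x + b • y) 0 = a • (r 0 - x 0) + b • (r 0 - y 0) := by
      have : r 0 = (a + b) • r 0 := by rw [hab, one_smul]
      conv_lhs => rw [this]
      simp only [Pi.add_apply, Pi.smul_apply]
      module
    rw [e1, e2, h1, h2]
  have htk : IsClosed t := by
    rw [ht, Set.ofPred_forall]
    exact isClosed_iInter fun k => isClosed_eq (by fun_prop) (by fun_prop)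
  have hd : Disjoint s t := by
    rw [Set.disjoint_left]
    intro q hqs hqt
    rw [hs] at hqs
    rw [ht] at hqt
    refine hdis (r 0 - q 0) fun k => ?_
    rw [← hqt k, sub_sub_cancel]
    exact hqs k (mem_univ k)
  obtain ⟨f, u, v, hfu, huv, hfv⟩ := geometric_hahn_banach_compact_closed hsc hsk htc htk hd
  obtain ⟨φ, hφ⟩ : ∃ φ : Fin 3 → StrongDual ℝ E, φ = fun k => f.comp (ContinuousLinearMap.single ℝ (fun _ => E) k) := ⟨_, rfl⟩
  have hfφ : ∀ q, f q = ∑ k, φ k (q k) := by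
    intro q
    rw [hφ]
    exact Dual_sum f q
  have hx : ∀ x : E, v < f (fun k => r k - x) := by
    intro x
    refine hfv _ ?_
    rw [ht]
    intro k
    show r k - (r k - x) = r 0 - (r 0 - x)
    rw [sub_sub_cancel, sub_sub_cancel]
  have h0 : φ 0 + φ 1 + φ 2 = 0 := by
    refine Dual_zero (C := f r - v) fun x => ?_
    have h1 := hx x
    rw [hfφ, Fin.sum_univ_three] at h1
    rw [hfφ r, Fin.sum_univ_three]
    simp only [map_sub] at h1
    show φ 0 x + φ 1 x + φ 2 x < _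
    linarith
  refine ⟨φ, r, fun k => ?_, h0, ?_⟩
  · rw [hr]
    exact (ρ k).2
  · choose l hl hl' using fun k => sL_attained hL hn (φ k)
    choose m hm hm' using fun k => sL_attained hL hn (-φ k)
    have h1 : f (fun k => l k + μ • (l k - m k)) < u := by
      refine hfu _ ?_
      rw [hs]
      intro k _
      exact ⟨l k, hl k, l k, hl k, m k, hm k, rfl⟩
    have h2' := hx 0
    have e1 : f (fun k => l k + μ • (l k - m k)) = ∑ k, (sL L (φ k) + μ * (sL L (φ k) + sL L (-φ k))) := by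
      rw [hfφ]
      refine Finset.sum_congr rfl fun k _ => ?_
      rw [hl' k, hm' k]
      show φ k (l k + μ • (l k - m k)) = φ k (l k) + μ * (φ k (l k) + (-φ k) (m k))
      rw [map_add, map_smul, map_sub, _root_.neg_apply, smul_eq_mul]
      ring
    have e2 : f (fun k => r k - 0) = ∑ k, φ k (r k) := by
      rw [hfφ]
      simp
    rw [e1] at h1
    rw [e2] at h2'
    linarith

/-- Duality at the optimum. -/
theorem dual (h2 : Module.finrank ℝ E = 2) {L R : Set E} (hL : IsCompact L) (hc : Convex ℝ L) (hn : L.Nonempty)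
    (hRk : IsCompact R) {ν : ℝ} (hν : 0 < ν) (hR : ∀ μ ∈ Ico 0 ν, ¬ Fit L R μ) :
    ∃ (φ : Fin 3 → StrongDual ℝ E) (r : Fin 3 → E), φ ≠ 0 ∧ (∀ k, r k ∈ R) ∧
      φ 0 + φ 1 + φ 2 = 0 ∧ ∑ k, (sL L (φ k) + ν * (sL L (φ k) + sL L (-φ k))) ≤ ∑ k, φ k (r k) := by
  -- normalised
  have hsep : ∀ μ ∈ Ico 0 ν, ∃ (φ : Fin 3 → StrongDual ℝ E) (r : Fin 3 → E), ‖φ‖ = 1 ∧ (∀ k, r k ∈ R) ∧
      φ 0 + φ 1 + φ 2 = 0 ∧ ∑ k, (sL L (φ k) + μ * (sL L (φ k) + sL L (-φ k))) < ∑ k, φ k (r k) := by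
    intro μ hμ
    obtain ⟨φ, r, h3, h4, h5⟩ := sep h2 hL hc hn (hR μ hμ)
    have h6 : φ ≠ 0 := by
      rintro rfl
      simp [sL_zero hn] at h5
    have h7 : 0 < ‖φ‖ := norm_pos_iff.2 h6
    have h8 : 0 < ‖φ‖⁻¹ := inv_pos.2 h7
    refine ⟨‖φ‖⁻¹ • φ, r, ?_, h3, ?_, ?_⟩
    · rw [norm_smul, norm_inv, norm_norm, inv_mul_cancel₀ h7.ne']
    · show ‖φ‖⁻¹ • φ 0 + ‖φ‖⁻¹ • φ 1 + ‖φ‖⁻¹ • φ 2 = 0
      rw [← smul_add, ← smul_add, h4, smul_zero]
    · have e1 : ∀ k, sL L ((‖φ‖⁻¹ • φ) k) + μ * (sL L ((‖φ‖⁻¹ • φ) k) + sL L (-(‖φ‖⁻¹ • φ) k)) =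
          ‖φ‖⁻¹ * (sL L (φ k) + μ * (sL L (φ k) + sL L (-φ k))) := by
        intro k
        have e3 : -(‖φ‖⁻¹ • φ) k = ‖φ‖⁻¹ • (-φ k) := by
          show -(‖φ‖⁻¹ • φ k) = ‖φ‖⁻¹ • (-φ k)
          rw [smul_neg]
        have e4 : (‖φ‖⁻¹ • φ) k = ‖φ‖⁻¹ • φ k := rfl
        rw [e3, e4, sL_smul hL hn h8.le, sL_smul hL hn h8.le]
        ring
      have e2 : ∀ k, ((‖φ‖⁻¹ • φ) k) (r k) = ‖φ‖⁻¹ * (φ k) (r k) := fun k => rfl
      simp only [e1, e2]
      rw [← Finset.mul_sum, ← Finset.mul_sum]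
      exact mul_lt_mul_of_pos_left h5 h8
  obtain ⟨K, hK⟩ : ∃ K : Set ((Fin 3 → StrongDual ℝ E) × (Fin 3 → E)),
      K = (Metric.sphere (0 : Fin 3 → StrongDual ℝ E) 1 ∩ {φ | φ 0 + φ 1 + φ 2 = 0}) ×ˢ (Set.pi univ fun _ => R) := ⟨_, rfl⟩
  have hKk : IsCompact K := by
    rw [hK]
    refine ((isCompact_sphere _ _).inter_right ?_).prod (isCompact_univ_pi fun _ => hRk)
    exact isClosed_eq (by fun_prop) (by fun_prop)
  have hmem : ∀ (φ : Fin 3 → StrongDual ℝ E) (r : Fin 3 → E), ‖φ‖ = 1 → (∀ k, r k ∈ R) → φ 0 + φ 1 + φ 2 = 0 → (φ, r) ∈ K := by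
    intro φ r h3 h4 h5
    rw [hK]
    exact ⟨⟨by simpa using h3, h5⟩, fun k _ => h4 k⟩
  have hKn : K.Nonempty := by
    obtain ⟨φ, r, h3, h4, h5, _⟩ := hsep 0 ⟨le_rfl, hν⟩
    exact ⟨(φ, r), hmem φ r h3 h4 h5⟩
  have hs := sL_cont (E := E) hL
  obtain ⟨H, hH⟩ : ∃ H : (Fin 3 → StrongDual ℝ E) × (Fin 3 → E) → ℝ, H = fun p => ∑ k, (sL L (p.1 k) + sL L (-p.1 k)) := ⟨_, rfl⟩
  obtain ⟨G, hG⟩ : ∃ G : (Fin 3 → StrongDual ℝ E) × (Fin 3 → E) → ℝ, G = fun p => (∑ k, p.1 k (p.2 k)) - (∑ k, sL L (p.1 k)) - ν * H p := ⟨_, rfl⟩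
  have hHc : Continuous H := by
    rw [hH]
    refine continuous_finsetSum _ fun k _ => ?_
    exact (hs.comp (by fun_prop)).add (hs.comp (by fun_prop))
  have hGc : Continuous G := by
    rw [hG]
    have h1 : Continuous (fun p : StrongDual ℝ E × E => p.1 p.2) := isBoundedBilinearMap_apply.continuous
    have h3 : Continuous fun p : (Fin 3 → StrongDual ℝ E) × (Fin 3 → E) => ∑ k, p.1 k (p.2 k) := by
      refine continuous_finsetSum _ fun k _ => ?_
      exact h1.comp (f := fun p : (Fin 3 → StrongDual ℝ E) × (Fin 3 → E) => (p.1 k, p.2 k)) (by fun_prop)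
    have h4 : Continuous fun p : (Fin 3 → StrongDual ℝ E) × (Fin 3 → E) => ∑ k, sL L (p.1 k) :=
      continuous_finsetSum _ fun k _ => hs.comp (by fun_prop)
    exact (h3.sub h4).sub (continuous_const.mul hHc)
  obtain ⟨⟨φ, r⟩, hφr, hmax⟩ := hKk.exists_isMaxOn hKn hGc.continuousOn
  obtain ⟨p₁, _, hmaxH⟩ := hKk.exists_isMaxOn hKn hHc.continuousOn
  have hφr' := hφr
  rw [hK] at hφr'
  obtain ⟨⟨k1, k2⟩, k3⟩ := hφr'
  have k1' : ‖φ‖ = 1 := by simpa using k1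
  refine ⟨φ, r, ?_, fun k => k3 k (mem_univ k), k2, ?_⟩
  · rintro rfl
    simp at k1'
  · by_contra hcon
    push Not at hcon
    have hsplit : ∀ (ψ : Fin 3 → StrongDual ℝ E) (μ : ℝ), ∑ k, (sL L (ψ k) + μ * (sL L (ψ k) + sL L (-ψ k))) =
        (∑ k, sL L (ψ k)) + μ * ∑ k, (sL L (ψ k) + sL L (-ψ k)) := by
      intro ψ μ
      rw [Finset.sum_add_distrib, ← Finset.mul_sum]
    have hm : G (φ, r) < 0 := by
      rw [hG, hH]
      rw [hsplit] at hcon
      show (∑ k, φ k (r k)) - (∑ k, sL L (φ k)) - ν * ∑ k, (sL L (φ k) + sL L (-φ k)) < 0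
      linarith
    obtain ⟨C, hC⟩ : ∃ C : ℝ, C = max (H p₁) 1 := ⟨_, rfl⟩
    have hC0 : 0 < C := by rw [hC]; exact lt_of_lt_of_le one_pos (le_max_right _ _)
    obtain ⟨μ, hμ⟩ : ∃ μ : ℝ, μ = max 0 (ν + G (φ, r) / C) := ⟨_, rfl⟩
    have hμν : μ < ν := by
      rw [hμ]
      refine max_lt hν ?_
      have := div_neg_of_neg_of_pos hm hC0
      linarith
    obtain ⟨ψ, ρ, h3, h4, h5, h6⟩ := hsep μ ⟨by rw [hμ]; exact le_max_left _ _, hμν⟩
    have hψ := hmem ψ ρ h3 h4 h5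
    have h7 : G (ψ, ρ) ≤ G (φ, r) := hmax hψ
    have h8 : H (ψ, ρ) ≤ C := by
      rw [hC]
      exact (hmaxH hψ).trans (le_max_left _ _)
    have h9 : (ν - μ) * C ≤ -G (φ, r) := by
      have : ν + G (φ, r) / C ≤ μ := by rw [hμ]; exact le_max_right _ _
      have h10 : ν - μ ≤ -G (φ, r) / C := by
        rw [neg_div]
        linarith
      calc (ν - μ) * C ≤ (-G (φ, r) / C) * C := mul_le_mul_of_nonneg_right h10 hC0.le
        _ = -G (φ, r) := div_mul_cancel₀ _ hC0.ne'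
    rw [hsplit] at h6
    have h11 : G (ψ, ρ) = (∑ k, ψ k (ρ k)) - (∑ k, sL L (ψ k)) - ν * ∑ k, (sL L (ψ k) + sL L (-ψ k)) := by
      rw [hG, hH]
    have h12 : H (ψ, ρ) = ∑ k, (sL L (ψ k) + sL L (-ψ k)) := by rw [hH]
    rw [← h12] at h6 h11
    have h13 : (ν - μ) * H (ψ, ρ) ≤ (ν - μ) * C := mul_le_mul_of_nonneg_left h8 (by linarith)
    nlinarith

end Pool.Agent.H81.R2
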