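import Pool.Agent.H81.R2.Dual

/-!
Duality for the least `μ` such that `R` lies in a translate of `(1 + μ) L`.
-/

set_option autoImplicit false
set_option linter.unusedSectionVars false

open Set Filter Topology

namespace Pool.Agent.H81.R2

variable {E : Type*} [NormedAddCommGroup E] [NormedSpace ℝ E] [FiniteDimensional ℝ E]

/-- The set `(1 + μ) L`. -/
def Hd (L : Set E) (μ : ℝ) : Set E := {q | ∃ l ∈ L, q = (1 + μ) • l}

/-- `R` lies in a translate of `(1 + μ) L`. -/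
def FitH (L R : Set E) (μ : ℝ) : Prop := ∃ x : E, ∀ r ∈ R, r - x ∈ Hd L μ

theorem Hd_compact {L : Set E} (hL : IsCompact L) (μ : ℝ) : IsCompact (Hd L μ) := by
  have h1 : Hd L μ = (fun l : E => (1 + μ) • l) '' L := by
    ext q
    constructor
    · rintro ⟨l, hl, rfl⟩
      exact ⟨l, hl, rfl⟩
    · rintro ⟨l, hl, rfl⟩
      exact ⟨l, hl, rfl⟩
  rw [h1]
  exact hL.image (by fun_prop)

theorem Hd_convex {L : Set E} (hc : Convex ℝ L) (μ : ℝ) : Convex ℝ (Hd L μ) := by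
  rintro _ ⟨l, hl, rfl⟩ _ ⟨l', hl', rfl⟩ s t hs ht hst
  refine ⟨s • l + t • l', hc hl hl' hs ht hst, ?_⟩
  module

/-- Separation. -/
theorem sepG (h2 : Module.finrank ℝ E = 2) {W R : Set E} (hW : IsCompact W) (hc : Convex ℝ W) (hn : W.Nonempty)
    (hR : ¬ ∃ x : E, ∀ r ∈ R, r - x ∈ W) : ∃ (φ : Fin 3 → StrongDual ℝ E) (r : Fin 3 → E), (∀ k, r k ∈ R) ∧
      φ 0 + φ 1 + φ 2 = 0 ∧ ∑ k, sL W (φ k) < ∑ k, φ k (r k) := by
  obtain ⟨F, hF⟩ : ∃ F : ↥R → Set E, F = fun r : ↥R => {x | (r : E) - x ∈ W} := ⟨_, rfl⟩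
  have hFc : ∀ i, Convex ℝ (F i) := by
    intro i
    rw [hF]
    intro x hx y hy s t hs ht hst
    have := hc hx hy hs ht hst
    have e1 : s • ((i : E) - x) + t • ((i : E) - y) = (i : E) - (s • x + t • y) := by
      have : (i : E) = (s + t) • (i : E) := by rw [hst, one_smul]
      conv_rhs => rw [this]
      module
    rw [e1] at this
    exact this
  have hFk : ∀ i, IsCompact (F i) := by
    intro i
    rw [hF]
    have e1 : {x | (i : E) - x ∈ W} = (fun q => (i : E) - q) '' W := by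
      ext x
      constructor
      · intro hx
        exact ⟨(i : E) - x, hx, sub_sub_cancel _ _⟩
      · rintro ⟨q, hq, rfl⟩
        show (i : E) - ((i : E) - q) ∈ W
        rwa [sub_sub_cancel]
    show IsCompact {x | (i : E) - x ∈ W}
    rw [e1]
    exact hW.image (by fun_prop)
  have h3 : ∃ I : Finset R, I.card ≤ 3 ∧ ¬ (⋂ i ∈ I, F i).Nonempty := by
    by_contra hcon
    push Not at hcon
    obtain ⟨x, hx⟩ := Convex.helly_theorem_compact' (𝕜 := ℝ) hFc hFk fun I hI => hcon I (by rw [h2] at hI; exact hI)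
    refine hR ⟨x, fun r hr => ?_⟩
    have := mem_iInter.1 hx ⟨r, hr⟩
    rw [hF] at this
    exact this
  obtain ⟨I, hI, hIe⟩ := h3
  have hIn : I.Nonempty := by
    by_contra hcon
    rw [Finset.not_nonempty_iff_eq_empty] at hcon
    subst hcon
    exact hIe ⟨0, by simp⟩
  obtain ⟨ρ, hρ, hρs⟩ := Dual_surj hIn hI
  obtain ⟨r, hr⟩ : ∃ r : Fin 3 → E, r = fun k => (ρ k : E) := ⟨_, rfl⟩
  have hdis : ∀ x, ¬ ∀ k, r k - x ∈ W := by
    intro x hx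
    refine hIe ⟨x, ?_⟩
    simp only [mem_iInter]
    intro i hi
    obtain ⟨k, rfl⟩ := hρs i hi
    have := hx k
    rw [hr] at this
    rw [hF]
    exact this
  obtain ⟨s, hs⟩ : ∃ s : Set (Fin 3 → E), s = Set.pi univ fun _ => W := ⟨_, rfl⟩
  obtain ⟨t, ht⟩ : ∃ t : Set (Fin 3 → E), t = {q | ∀ k, r k - q k = r 0 - q 0} := ⟨_, rfl⟩
  have hsk : IsCompact s := by
    rw [hs]
    exact isCompact_univ_pi fun _ => hW
  have hsc : Convex ℝ s := by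
    rw [hs]
    exact convex_pi fun _ _ => hc
  have htc : Convex ℝ t := by
    rw [ht]
    intro x hx y hy a b ha hb hab k
    have h1 := hx k
    have h2 := hy k
    have e1 : r k - (a • x + b • y) k = a • (r k - x k) + b • (r k - y k) := by
      have : r k = (a + b) • r k := by rw [hab, one_smul]
      conv_lhs => rw [this]
      simp only [Pi.add_apply, Pi.smul_apply]
      module
    have e2 : r 0 - (a • x + b • y) 0 = a • (r 0 - x 0) + b • (r 0 - y 0) := by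
      have : r 0 = (a + b) • r 0 := by rw [hab, one_smul]
      conv_lhs => rw [this]
      simp only [Pi.add_apply, Pi.smul_apply]
      module
    rw [e1, e2, h1, h2]
  have htk : IsClosed t := by
    rw [ht, Set.ofPred_forall]
    exact isClosed_iInter fun k => isClosed_eq (by fun_prop) (by fun_prop)
  have hd : Disjoint s t := by
    rw [Set.disjoint_left]
    intro q hqs hqt
    rw [hs] at hqs
    rw [ht] at hqt
    refine hdis (r 0 - q 0) fun k => ?_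
    rw [← hqt k, sub_sub_cancel]
    exact hqs k (mem_univ k)
  obtain ⟨f, u, v, hfu, huv, hfv⟩ := geometric_hahn_banach_compact_closed hsc hsk htc htk hd
  obtain ⟨φ, hφ⟩ : ∃ φ : Fin 3 → StrongDual ℝ E, φ = fun k => f.comp (ContinuousLinearMap.single ℝ (fun _ => E) k) := ⟨_, rfl⟩
  have hfφ : ∀ q, f q = ∑ k, φ k (q k) := by
    intro q
    rw [hφ]
    exact Dual_sum f q
  have hx : ∀ x : E, v < f (fun k => r k - x) := by
    intro x
    refine hfv _ ?_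
    rw [ht]
    intro k
    show r k - (r k - x) = r 0 - (r 0 - x)
    rw [sub_sub_cancel, sub_sub_cancel]
  have h0 : φ 0 + φ 1 + φ 2 = 0 := by
    refine Dual_zero (C := f r - v) fun x => ?_
    have h1 := hx x
    rw [hfφ, Fin.sum_univ_three] at h1
    rw [hfφ r, Fin.sum_univ_three]
    simp only [map_sub] at h1
    show φ 0 x + φ 1 x + φ 2 x < _
    linarith
  refine ⟨φ, r, fun k => ?_, h0, ?_⟩
  · rw [hr]
    exact (ρ k).2
  · choose l hl hl' using fun k => sL_attained hW hn (φ k)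
    have h1 : f (fun k => l k) < u := by
      refine hfu _ ?_
      rw [hs]
      intro k _
      exact hl k
    have h2' := hx 0
    have e1 : f (fun k => l k) = ∑ k, sL W (φ k) := by
      rw [hfφ]
      exact Finset.sum_congr rfl fun k _ => (hl' k).symm
    have e2 : f (fun k => r k - 0) = ∑ k, φ k (r k) := by
      rw [hfφ]
      simp
    rw [e1] at h1
    rw [e2] at h2'
    linarith

theorem sL_Hd {L : Set E} (hL : IsCompact L) (hn : L.Nonempty) {μ : ℝ} (hμ : 0 ≤ 1 + μ) (φ : StrongDual ℝ E) :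
    sL (Hd L μ) φ = (1 + μ) * sL L φ := by
  have hn' : (Hd L μ).Nonempty := by
    obtain ⟨l, hl⟩ := hn
    exact ⟨_, l, hl, rfl⟩
  obtain ⟨l, hl, h1⟩ := sL_attained hL hn φ
  obtain ⟨q, ⟨m, hm, rfl⟩, h2⟩ := sL_attained (Hd_compact hL μ) hn' φ
  refine le_antisymm ?_ ?_
  · rw [h2, map_smul, smul_eq_mul]
    exact mul_le_mul_of_nonneg_left (sL_le hL φ hm) hμ
  · rw [h1]
    have := sL_le (Hd_compact hL μ) φ (l := (1 + μ) • l) ⟨l, hl, rfl⟩
    rwa [map_smul, smul_eq_mul] at this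

theorem sepH (h2 : Module.finrank ℝ E = 2) {L R : Set E} (hL : IsCompact L) (hc : Convex ℝ L) (hn : L.Nonempty)
    {μ : ℝ} (hμ : 0 ≤ 1 + μ) (hR : ¬ FitH L R μ) :
    ∃ (φ : Fin 3 → StrongDual ℝ E) (r : Fin 3 → E), (∀ k, r k ∈ R) ∧
      φ 0 + φ 1 + φ 2 = 0 ∧ (1 + μ) * ∑ k, sL L (φ k) < ∑ k, φ k (r k) := by
  have hn' : (Hd L μ).Nonempty := by
    obtain ⟨l, hl⟩ := hn
    exact ⟨_, l, hl, rfl⟩
  obtain ⟨φ, r, h3, h4, h5⟩ := sepG h2 (Hd_compact hL μ) (Hd_convex hc μ) hn' hR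
  refine ⟨φ, r, h3, h4, ?_⟩
  have e1 : ∀ k, sL (Hd L μ) (φ k) = (1 + μ) * sL L (φ k) := fun k => sL_Hd hL hn hμ (φ k)
  simp only [e1] at h5
  rwa [← Finset.mul_sum] at h5

/-- Duality at the optimum. -/
theorem dualH (h2 : Module.finrank ℝ E = 2) {L R : Set E} (hL : IsCompact L) (hc : Convex ℝ L) (hn : L.Nonempty)
    (hRk : IsCompact R) {ν : ℝ} (hν : 0 < ν) (hR : ∀ μ ∈ Ico 0 ν, ¬ FitH L R μ) :
    ∃ (φ : Fin 3 → StrongDual ℝ E) (r : Fin 3 → E), φ ≠ 0 ∧ (∀ k, r k ∈ R) ∧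
      φ 0 + φ 1 + φ 2 = 0 ∧ (1 + ν) * ∑ k, sL L (φ k) ≤ ∑ k, φ k (r k) := by
  have hsep : ∀ μ ∈ Ico 0 ν, ∃ (φ : Fin 3 → StrongDual ℝ E) (r : Fin 3 → E), ‖φ‖ = 1 ∧ (∀ k, r k ∈ R) ∧
      φ 0 + φ 1 + φ 2 = 0 ∧ (1 + μ) * ∑ k, sL L (φ k) < ∑ k, φ k (r k) := by
    intro μ hμ
    obtain ⟨φ, r, h3, h4, h5⟩ := sepH h2 hL hc hn (by linarith [hμ.1]) (hR μ hμ)
    have h6 : φ ≠ 0 := by
      rintro rfl
      simp [sL_zero hn] at h5
    have h7 : 0 < ‖φ‖ := norm_pos_iff.2 h6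
    have h8 : 0 < ‖φ‖⁻¹ := inv_pos.2 h7
    refine ⟨‖φ‖⁻¹ • φ, r, ?_, h3, ?_, ?_⟩
    · rw [norm_smul, norm_inv, norm_norm, inv_mul_cancel₀ h7.ne']
    · show ‖φ‖⁻¹ • φ 0 + ‖φ‖⁻¹ • φ 1 + ‖φ‖⁻¹ • φ 2 = 0
      rw [← smul_add, ← smul_add, h4, smul_zero]
    · have e1 : ∀ k, sL L ((‖φ‖⁻¹ • φ) k) = ‖φ‖⁻¹ * sL L (φ k) := by
        intro k
        have e4 : (‖φ‖⁻¹ • φ) k = ‖φ‖⁻¹ • φ k := rfl
        rw [e4, sL_smul hL hn h8.le]
      have e2 : ∀ k, ((‖φ‖⁻¹ • φ) k) (r k) = ‖φ‖⁻¹ * (φ k) (r k) := fun k => rfl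
      simp only [e1, e2]
      rw [← Finset.mul_sum, ← Finset.mul_sum]
      calc (1 + μ) * (‖φ‖⁻¹ * ∑ k, sL L (φ k)) = ‖φ‖⁻¹ * ((1 + μ) * ∑ k, sL L (φ k)) := by ring
        _ < _ := mul_lt_mul_of_pos_left h5 h8
  obtain ⟨K, hK⟩ : ∃ K : Set ((Fin 3 → StrongDual ℝ E) × (Fin 3 → E)),
      K = (Metric.sphere (0 : Fin 3 → StrongDual ℝ E) 1 ∩ {φ | φ 0 + φ 1 + φ 2 = 0}) ×ˢ (Set.pi univ fun _ => R) := ⟨_, rfl⟩
  have hKk : IsCompact K := by
    rw [hK]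
    refine ((isCompact_sphere _ _).inter_right ?_).prod (isCompact_univ_pi fun _ => hRk)
    exact isClosed_eq (by fun_prop) (by fun_prop)
  have hmem : ∀ (φ : Fin 3 → StrongDual ℝ E) (r : Fin 3 → E), ‖φ‖ = 1 → (∀ k, r k ∈ R) → φ 0 + φ 1 + φ 2 = 0 → (φ, r) ∈ K := by
    intro φ r h3 h4 h5
    rw [hK]
    exact ⟨⟨by simpa using h3, h5⟩, fun k _ => h4 k⟩
  have hKn : K.Nonempty := by
    obtain ⟨φ, r, h3, h4, h5, _⟩ := hsep 0 ⟨le_rfl, hν⟩
    exact ⟨(φ, r), hmem φ r h3 h4 h5⟩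
  have hs := sL_cont (E := E) hL
  obtain ⟨H, hH⟩ : ∃ H : (Fin 3 → StrongDual ℝ E) × (Fin 3 → E) → ℝ, H = fun p => ∑ k, sL L (p.1 k) := ⟨_, rfl⟩
  obtain ⟨G, hG⟩ : ∃ G : (Fin 3 → StrongDual ℝ E) × (Fin 3 → E) → ℝ, G = fun p => (∑ k, p.1 k (p.2 k)) - (1 + ν) * H p := ⟨_, rfl⟩
  have hHc : Continuous H := by
    rw [hH]
    exact continuous_finsetSum _ fun k _ => hs.comp (by fun_prop)
  have hGc : Continuous G := by
    rw [hG]
    have h1 : Continuous (fun p : StrongDual ℝ E × E => p.1 p.2) := isBoundedBilinearMap_apply.continuous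
    have h3 : Continuous fun p : (Fin 3 → StrongDual ℝ E) × (Fin 3 → E) => ∑ k, p.1 k (p.2 k) := by
      refine continuous_finsetSum _ fun k _ => ?_
      exact h1.comp (f := fun p : (Fin 3 → StrongDual ℝ E) × (Fin 3 → E) => (p.1 k, p.2 k)) (by fun_prop)
    exact h3.sub (continuous_const.mul hHc)
  obtain ⟨⟨φ, r⟩, hφr, hmax⟩ := hKk.exists_isMaxOn hKn hGc.continuousOn
  obtain ⟨p₁, _, hmaxH⟩ := hKk.exists_isMaxOn hKn hHc.continuousOn
  have hφr' := hφr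
  rw [hK] at hφr'
  obtain ⟨⟨k1, k2⟩, k3⟩ := hφr'
  have k1' : ‖φ‖ = 1 := by simpa using k1
  refine ⟨φ, r, ?_, fun k => k3 k (mem_univ k), k2, ?_⟩
  · rintro rfl
    simp at k1'
  · by_contra hcon
    push Not at hcon
    have hm : G (φ, r) < 0 := by
      rw [hG, hH]
      show (∑ k, φ k (r k)) - (1 + ν) * ∑ k, sL L (φ k) < 0
      linarith
    obtain ⟨C, hC⟩ : ∃ C : ℝ, C = max (H p₁) 1 := ⟨_, rfl⟩
    have hC0 : 0 < C := by rw [hC]; exact lt_of_lt_of_le one_pos (le_max_right _ _)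
    obtain ⟨μ, hμ⟩ : ∃ μ : ℝ, μ = max 0 (ν + G (φ, r) / C) := ⟨_, rfl⟩
    have hμν : μ < ν := by
      rw [hμ]
      refine max_lt hν ?_
      have := div_neg_of_neg_of_pos hm hC0
      linarith
    obtain ⟨ψ, ρ, h3, h4, h5, h6⟩ := hsep μ ⟨by rw [hμ]; exact le_max_left _ _, hμν⟩
    have hψ := hmem ψ ρ h3 h4 h5
    have h7 : G (ψ, ρ) ≤ G (φ, r) := hmax hψ
    have h8 : H (ψ, ρ) ≤ C := by
      rw [hC]
      exact (hmaxH hψ).trans (le_max_left _ _)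
    have h9 : (ν - μ) * C ≤ -G (φ, r) := by
      have : ν + G (φ, r) / C ≤ μ := by rw [hμ]; exact le_max_right _ _
      have h10 : ν - μ ≤ -G (φ, r) / C := by
        rw [neg_div]
        linarith
      calc (ν - μ) * C ≤ (-G (φ, r) / C) * C := mul_le_mul_of_nonneg_right h10 hC0.le
        _ = -G (φ, r) := div_mul_cancel₀ _ hC0.ne'
    have h11 : G (ψ, ρ) = (∑ k, ψ k (ρ k)) - (1 + ν) * ∑ k, sL L (ψ k) := by
      rw [hG, hH]
    have h12 : H (ψ, ρ) = ∑ k, sL L (ψ k) := by rw [hH]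
    rw [← h12] at h6 h11
    have h13 : (ν - μ) * H (ψ, ρ) ≤ (ν - μ) * C := mul_le_mul_of_nonneg_left h8 (by linarith)
    nlinarith

/-- In the plane, `L - L` lies in a translate of `3 L`. -/
theorem diff_three (h2 : Module.finrank ℝ E = 2) {L : Set E} (hL : IsCompact L) (hc : Convex ℝ L) (hn : L.Nonempty) :
    ∃ x : E, ∀ l ∈ L, ∀ m ∈ L, ∃ k ∈ L, l - m = x + (3 : ℝ) • k := by
  -- the sets `m + 2 L`
  obtain ⟨F, hF⟩ : ∃ F : ↥L → Set E, F = fun m : ↥L => {x | ∃ l ∈ L, x = (m : E) + (2 : ℝ) • l} := ⟨_, rfl⟩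
  have hFk : ∀ i, IsCompact (F i) := by
    intro i
    have h1 : F i = (fun l : E => (i : E) + (2 : ℝ) • l) '' L := by
      rw [hF]
      ext x
      constructor
      · rintro ⟨l, hl, rfl⟩
        exact ⟨l, hl, rfl⟩
      · rintro ⟨l, hl, rfl⟩
        exact ⟨l, hl, rfl⟩
    rw [h1]
    exact hL.image (by fun_prop)
  have hFc : ∀ i, Convex ℝ (F i) := by
    intro i
    rw [hF]
    rintro _ ⟨l, hl, rfl⟩ _ ⟨l', hl', rfl⟩ s t hs ht hst
    refine ⟨s • l + t • l', hc hl hl' hs ht hst, ?_⟩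
    have : (i : E) = (s + t) • (i : E) := by rw [hst, one_smul]
    conv_rhs => rw [this]
    module
  obtain ⟨x, hx⟩ : ∃ x : E, ∀ m ∈ L, ∃ l ∈ L, x = m + (2 : ℝ) • l := by
    have h3 : (⋂ i, F i).Nonempty := by
      refine Convex.helly_theorem_compact' (𝕜 := ℝ) hFc hFk fun I hI => ?_
      rw [h2] at hI
      by_cases hIn : I.Nonempty
      · obtain ⟨ρ, hρ, hρs⟩ := Dual_surj hIn hI
        refine ⟨(ρ 0 : E) + (ρ 1 : E) + (ρ 2 : E), ?_⟩
        simp only [mem_iInter]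
        intro i hi
        obtain ⟨k, rfl⟩ := hρs i hi
        rw [hF]
        have hhalf : ∀ a ∈ L, ∀ b ∈ L, (2⁻¹ : ℝ) • a + (2⁻¹ : ℝ) • b ∈ L := fun a ha b hb =>
          hc ha hb (by norm_num) (by norm_num) (by norm_num)
        fin_cases k
        · refine ⟨_, hhalf _ (ρ 1).2 _ (ρ 2).2, ?_⟩
          show (ρ 0 : E) + (ρ 1 : E) + (ρ 2 : E) = (ρ 0 : E) + (2 : ℝ) • ((2⁻¹ : ℝ) • (ρ 1 : E) + (2⁻¹ : ℝ) • (ρ 2 : E))
          module
        · refine ⟨_, hhalf _ (ρ 0).2 _ (ρ 2).2, ?_⟩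
          show (ρ 0 : E) + (ρ 1 : E) + (ρ 2 : E) = (ρ 1 : E) + (2 : ℝ) • ((2⁻¹ : ℝ) • (ρ 0 : E) + (2⁻¹ : ℝ) • (ρ 2 : E))
          module
        · refine ⟨_, hhalf _ (ρ 0).2 _ (ρ 1).2, ?_⟩
          show (ρ 0 : E) + (ρ 1 : E) + (ρ 2 : E) = (ρ 2 : E) + (2 : ℝ) • ((2⁻¹ : ℝ) • (ρ 0 : E) + (2⁻¹ : ℝ) • (ρ 1 : E))
          module
      · rw [Finset.not_nonempty_iff_eq_empty] at hIn
        subst hIn
        exact ⟨0, by simp⟩
    obtain ⟨x, hx⟩ := h3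
    refine ⟨x, fun m hm => ?_⟩
    have := mem_iInter.1 hx ⟨m, hm⟩
    rw [hF] at this
    exact this
  refine ⟨-x, fun l hl m hm => ?_⟩
  obtain ⟨k, hk, h1⟩ := hx m hm
  refine ⟨(3⁻¹ : ℝ) • l + (2 * 3⁻¹ : ℝ) • k, hc hl hk (by norm_num) (by norm_num) (by norm_num), ?_⟩
  have h3 : m = x - (2 : ℝ) • k := by rw [h1]; abel
  rw [h3]
  module

end Pool.Agent.H81.R2
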