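import Pool.Agent.H81.R2.Dual

/-!
The case of two families follows from two covering statements.
-/

set_option autoImplicit false
set_option linter.unusedSectionVars false

open Set Filter Topology
open scoped Pointwise

namespace Pool.Agent.H81.R2

/-- `S` is covered by three translates of `L`, in the plane of triples with sum zero. -/
def Cover3 (L S : Set (Fin 3 → ℝ)) : Prop :=
  ∃ T : Fin 3 → Fin 3 → ℝ, (∀ j, T j 0 + T j 1 + T j 2 = 0) ∧ ∀ z ∈ S, ∃ j, z - T j ∈ L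

/-- The triple case. -/
def TripleCase : Prop :=
  ∀ L : Set (Fin 3 → ℝ), IsCompact L → Convex ℝ L → L.Nonempty → (∀ v ∈ L, v 0 + v 1 + v 2 = 0) →
  ∀ ν : ℝ, 0 < ν → ν ≤ 1 → ∀ x : Fin 3 → ℝ, x 0 + x 1 + x 2 = 0 → ∀ p q : Fin 3 → ℝ,
    (∀ v ∈ L, ∀ k, -q k ≤ v k ∧ v k ≤ p k) → (∀ k, ∃ v ∈ L, v k = p k) → (∀ k, ∃ v ∈ L, v k = -q k) →
    Cover3 L {z | z 0 + z 1 + z 2 = 0 ∧ (∃ l ∈ L, ∃ a ∈ L, ∃ b ∈ L, z = x + l + ν • (a - b)) ∧
      ∀ k, z k ≤ p k - ν * (p k + q k)}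

/-- The pair case. -/
def PairCase : Prop :=
  ∀ L : Set (ℝ × ℝ), IsCompact L → Convex ℝ L → L.Nonempty → ∀ ν : ℝ, 0 < ν → ν ≤ 1 →
  ∀ (x : ℝ × ℝ) (p q : ℝ), (∀ v ∈ L, -q ≤ v.2 ∧ v.2 ≤ p) → (∃ v ∈ L, v.2 = p) → (∃ v ∈ L, v.2 = -q) →
    ∃ T : Fin 3 → ℝ × ℝ, ∀ z : ℝ × ℝ, (∃ l ∈ L, ∃ a ∈ L, ∃ b ∈ L, z = x + l + ν • (a - b)) →
      -q + ν * (p + q) ≤ z.2 → z.2 ≤ p - ν * (p + q) → ∃ j, z - T j ∈ L

variable {E : Type*} [NormedAddCommGroup E] [NormedSpace ℝ E] [FiniteDimensional ℝ E]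

/-- Covered by three translates. -/
def Cov (L S : Set E) : Prop := ∃ T : Fin 3 → E, ∀ z ∈ S, ∃ j, z - T j ∈ L

/-- Coordinates. -/
theorem Red_coord (e : E ≃L[ℝ] ℝ × ℝ) (y : StrongDual ℝ E) (v : E) :
    y v = y (e.symm (1, 0)) * (e v).1 + y (e.symm (0, 1)) * (e v).2 := by
  have h1 : e v = (e v).1 • ((1, 0) : ℝ × ℝ) + (e v).2 • ((0, 1) : ℝ × ℝ) := by
    ext <;> simp
  have h2 : y v = y (e.symm (e v)) := by rw [e.symm_apply_apply]
  have h3 : y (e.symm ((e v).1 • ((1, 0) : ℝ × ℝ) + (e v).2 • ((0, 1) : ℝ × ℝ))) =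
      y (e.symm (1, 0)) * (e v).1 + y (e.symm (0, 1)) * (e v).2 := by
    rw [map_add, map_smul, map_smul, map_add, map_smul, map_smul, smul_eq_mul, smul_eq_mul]
    ring
  rw [h2, ← h3, ← h1]

theorem Red_pull {V : Type*} [NormedAddCommGroup V] [NormedSpace ℝ V] (Λ : E →L[ℝ] V)
    (hinj : Function.Injective Λ) {L A : Set E} (t : E) (T' : Fin 3 → V)
    (hT : ∀ j, ∃ v, Λ v = T' j) (h : ∀ a ∈ A, ∃ j, Λ (a - t) - T' j ∈ Λ '' L) : Cov L A := by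
  choose T hT using hT
  refine ⟨fun j => t + T j, fun a ha => ?_⟩
  obtain ⟨j, l, hl, h1⟩ := h a ha
  refine ⟨j, ?_⟩
  have h2 : Λ (a - (t + T j)) = Λ l := by
    rw [h1, ← hT j, ← map_sub, sub_sub]
  show a - (t + T j) ∈ L
  rw [hinj h2]
  exact hl

/-- The triple case. -/
theorem Red_triple (hT : TripleCase) {L A : Set E} (hL : IsCompact L) (hc : Convex ℝ L) (hn : L.Nonempty)
    {ν : ℝ} (hν : 0 < ν) (hν1 : ν ≤ 1) (e : E ≃L[ℝ] ℝ × ℝ) (y : Fin 3 → StrongDual ℝ E)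
    (hy : y 0 + y 1 + y 2 = 0)
    (hd : y 0 (e.symm (1, 0)) * y 1 (e.symm (0, 1)) - y 1 (e.symm (1, 0)) * y 0 (e.symm (0, 1)) ≠ 0)
    (c : Fin 3 → ℝ) (hc3 : c 0 + c 1 + c 2 ≤ ∑ k, (sL L (y k) - ν * (sL L (y k) + sL L (-y k))))
    (hA : ∀ a ∈ A, ∀ k, y k a ≤ c k) (x : E) (hx : ∀ a ∈ A, a - x ∈ Wd L ν) : Cov L A := by
  have hyv : ∀ v, y 0 v + y 1 v + y 2 v = 0 := by
    intro v
    have := congrArg (fun f : StrongDual ℝ E => f v) hy
    simpa using this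
  obtain ⟨α, hα⟩ : ∃ α : Fin 3 → ℝ, α = fun k => y k (e.symm (1, 0)) := ⟨_, rfl⟩
  obtain ⟨β, hβ⟩ : ∃ β : Fin 3 → ℝ, β = fun k => y k (e.symm (0, 1)) := ⟨_, rfl⟩
  have hco : ∀ k v, y k v = α k * (e v).1 + β k * (e v).2 := by
    intro k v
    rw [hα, hβ]
    exact Red_coord e (y k) v
  have hd' : α 0 * β 1 - α 1 * β 0 ≠ 0 := by
    rw [hα, hβ]
    exact hd
  have hs : ∀ c0 c1 : ℝ, ∃ v, y 0 v = c0 ∧ y 1 v = c1 := by
    intro c0 c1
    refine ⟨e.symm ((c0 * β 1 - c1 * β 0) / (α 0 * β 1 - α 1 * β 0), (α 0 * c1 - α 1 * c0) / (α 0 * β 1 - α 1 * β 0)), ?_, ?_⟩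
    · rw [hco, e.apply_symm_apply]
      show α 0 * ((c0 * β 1 - c1 * β 0) / (α 0 * β 1 - α 1 * β 0)) +
        β 0 * ((α 0 * c1 - α 1 * c0) / (α 0 * β 1 - α 1 * β 0)) = c0
      rw [← mul_div_assoc, ← mul_div_assoc, ← add_div, div_eq_iff hd']
      ring
    · rw [hco, e.apply_symm_apply]
      show α 1 * ((c0 * β 1 - c1 * β 0) / (α 0 * β 1 - α 1 * β 0)) +
        β 1 * ((α 0 * c1 - α 1 * c0) / (α 0 * β 1 - α 1 * β 0)) = c1
      rw [← mul_div_assoc, ← mul_div_assoc, ← add_div, div_eq_iff hd']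
      ring
  obtain ⟨Λ, hΛ⟩ : ∃ Λ : E →L[ℝ] (Fin 3 → ℝ), Λ = ContinuousLinearMap.pi y := ⟨_, rfl⟩
  have hΛk : ∀ v k, Λ v k = y k v := by
    intro v k
    rw [hΛ]
    rfl
  have hinj : Function.Injective Λ := by
    intro u v huv
    have h0 : y 0 u = y 0 v := by rw [← hΛk, ← hΛk, huv]
    have h1 : y 1 u = y 1 v := by rw [← hΛk, ← hΛk, huv]
    rw [hco, hco] at h0 h1
    apply e.injective
    have k1 : (α 0 * β 1 - α 1 * β 0) * ((e u).1 - (e v).1) = 0 := by linear_combination β 1 * h0 - β 0 * h1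
    have k2 : (α 0 * β 1 - α 1 * β 0) * ((e u).2 - (e v).2) = 0 := by linear_combination α 0 * h1 - α 1 * h0
    have k3 := (mul_eq_zero.1 k1).resolve_left hd'
    have k4 := (mul_eq_zero.1 k2).resolve_left hd'
    exact Prod.ext (sub_eq_zero.1 k3) (sub_eq_zero.1 k4)
  obtain ⟨p, hp⟩ : ∃ p : Fin 3 → ℝ, p = fun k => sL L (y k) := ⟨_, rfl⟩
  obtain ⟨q, hq⟩ : ∃ q : Fin 3 → ℝ, q = fun k => sL L (-y k) := ⟨_, rfl⟩
  obtain ⟨t, ht0, ht1⟩ := hs (c 0 - (p 0 - ν * (p 0 + q 0))) (c 1 - (p 1 - ν * (p 1 + q 1)))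
  have ht2 : c 2 - (p 2 - ν * (p 2 + q 2)) ≤ y 2 t := by
    rw [Fin.sum_univ_three] at hc3
    have h1 : c 0 + c 1 + c 2 ≤ (p 0 - ν * (p 0 + q 0)) + (p 1 - ν * (p 1 + q 1)) + (p 2 - ν * (p 2 + q 2)) := by
      rw [hp, hq]
      exact hc3
    have := hyv t
    linarith
  have hsum : ∀ v, Λ v 0 + Λ v 1 + Λ v 2 = 0 := by
    intro v
    rw [hΛk, hΛk, hΛk]
    exact hyv v
  obtain ⟨T', hT0, hT1⟩ := hT (Λ '' L) (hL.image Λ.continuous) (hc.linear_image Λ.toLinearMap) (hn.image _)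
    (by rintro _ ⟨l, -, rfl⟩; exact hsum l) ν hν hν1 (Λ (x - t)) (hsum _) p q
    (by
      rintro _ ⟨l, hl, rfl⟩ k
      rw [hΛk, hp, hq]
      refine ⟨?_, sL_le hL _ hl⟩
      have := sL_le hL (-y k) hl
      have e1 : (-y k) l = -(y k l) := rfl
      rw [e1] at this
      show -sL L (-y k) ≤ y k l
      linarith)
    (by
      intro k
      obtain ⟨l, hl, h1⟩ := sL_attained hL hn (y k)
      refine ⟨Λ l, mem_image_of_mem _ hl, ?_⟩
      rw [hΛk, hp]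
      exact h1.symm)
    (by
      intro k
      obtain ⟨l, hl, h1⟩ := sL_attained hL hn (-y k)
      refine ⟨Λ l, mem_image_of_mem _ hl, ?_⟩
      have e1 : (-y k) l = -(y k l) := rfl
      rw [e1] at h1
      rw [hΛk, hq]
      show y k l = -sL L (-y k)
      linarith)
  refine Red_pull Λ hinj t T' (fun j => ?_) fun a ha => ?_
  · obtain ⟨v, hv0, hv1⟩ := hs (T' j 0) (T' j 1)
    refine ⟨v, ?_⟩
    have h1 := hyv v
    have h2 := hT0 j
    funext k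
    fin_cases k
    · rw [hΛk]; exact hv0
    · rw [hΛk]; exact hv1
    · rw [hΛk]
      show y 2 v = T' j 2
      linarith
  · refine hT1 _ ⟨hsum _, ?_, ?_⟩
    · obtain ⟨l, hl, m, hm, m', hm', h1⟩ := hx a ha
      refine ⟨Λ l, mem_image_of_mem _ hl, Λ m, mem_image_of_mem _ hm, Λ m', mem_image_of_mem _ hm', ?_⟩
      rw [← map_sub Λ m m', ← map_smul, ← map_add, ← map_add]
      congr 1
      have h2 : a = x + (l + ν • (m - m')) := by rw [← h1]; abel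
      rw [h2]
      abel
    · intro k
      rw [hΛk, map_sub]
      have h1 := hA a ha k
      fin_cases k
      · show y 0 a - y 0 t ≤ p 0 - ν * (p 0 + q 0)
        have h1' : y 0 a ≤ c 0 := h1
        linarith
      · show y 1 a - y 1 t ≤ p 1 - ν * (p 1 + q 1)
        have h1' : y 1 a ≤ c 1 := h1
        linarith
      · show y 2 a - y 2 t ≤ p 2 - ν * (p 2 + q 2)
        have h1' : y 2 a ≤ c 2 := h1
        linarith

theorem Red_sL {L : Set E} (hL : IsCompact L) (hn : L.Nonempty) (ψ : StrongDual ℝ E) (s : ℝ) :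
    sL L (s • ψ) = max s 0 * sL L ψ + max (-s) 0 * sL L (-ψ) := by
  rcases le_total 0 s with h | h
  · rw [max_eq_left h, max_eq_right (by linarith : -s ≤ 0), sL_smul hL hn h]
    ring
  · rw [max_eq_right h, max_eq_left (by linarith : 0 ≤ -s)]
    have e1 : s • ψ = (-s) • (-ψ) := by rw [smul_neg, neg_smul, neg_neg]
    rw [e1, sL_smul hL hn (by linarith : 0 ≤ -s)]
    ring

/-- The pair case. -/
theorem Red_pair (hP : PairCase) {L A R : Set E} (hL : IsCompact L) (hc : Convex ℝ L) (hn : L.Nonempty)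
    (hRk : IsCompact R) {ν : ℝ} (hν : 0 < ν) (hν1 : ν ≤ 1) (e : E ≃L[ℝ] ℝ × ℝ) (y : Fin 3 → StrongDual ℝ E)
    (hy : y 0 + y 1 + y 2 = 0) (hy0 : y ≠ 0)
    (hd : y 0 (e.symm (1, 0)) * y 1 (e.symm (0, 1)) - y 1 (e.symm (1, 0)) * y 0 (e.symm (0, 1)) = 0)
    (r : Fin 3 → E) (hr : ∀ k, r k ∈ R)
    (hsum : ∑ k, (sL L (-y k) + ν * (sL L (-y k) + sL L (y k))) ≤ ∑ k, -(y k (r k)))
    (hAR : ∀ a ∈ A, ∀ b ∈ R, ∃ l ∈ L, ∃ m ∈ L, a - b = l - m) (x : E) (hx : ∀ a ∈ A, a - x ∈ Wd L ν) :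
    Cov L A := by
  have hyv : ∀ v, y 0 v + y 1 v + y 2 v = 0 := by
    intro v
    have := congrArg (fun f : StrongDual ℝ E => f v) hy
    simpa using this
  obtain ⟨α, hα⟩ : ∃ α : Fin 3 → ℝ, α = fun k => y k (e.symm (1, 0)) := ⟨_, rfl⟩
  obtain ⟨β, hβ⟩ : ∃ β : Fin 3 → ℝ, β = fun k => y k (e.symm (0, 1)) := ⟨_, rfl⟩
  have hco : ∀ k v, y k v = α k * (e v).1 + β k * (e v).2 := by
    intro k v
    rw [hα, hβ]
    exact Red_coord e (y k) v
  have hd' : α 0 * β 1 - α 1 * β 0 = 0 := by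
    rw [hα, hβ]
    exact hd
  have hα3 : α 0 + α 1 + α 2 = 0 := by
    rw [hα]
    exact hyv _
  have hβ3 : β 0 + β 1 + β 2 = 0 := by
    rw [hβ]
    exact hyv _
  have hdd : ∀ i j, α i * β j = α j * β i := by
    have e1 : α 2 = -α 0 - α 1 := by linarith
    have e2 : β 2 = -β 0 - β 1 := by linarith
    intro i j
    fin_cases i <;> fin_cases j
    · rfl
    · show α 0 * β 1 = α 1 * β 0
      linarith
    · show α 0 * β 2 = α 2 * β 0
      rw [e1, e2]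
      linarith
    · show α 1 * β 0 = α 0 * β 1
      linarith
    · rfl
    · show α 1 * β 2 = α 2 * β 1
      rw [e1, e2]
      linarith
    · show α 2 * β 0 = α 0 * β 2
      rw [e1, e2]
      linarith
    · show α 2 * β 1 = α 1 * β 2
      rw [e1, e2]
      linarith
    · rfl
  obtain ⟨i, hi⟩ : ∃ i, α i ≠ 0 ∨ β i ≠ 0 := by
    by_contra hcon
    push Not at hcon
    refine hy0 (funext fun k => ?_)
    ext v
    rw [hco, (hcon k).1, (hcon k).2]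
    simp
  have hpos : 0 < α i ^ 2 + β i ^ 2 := by
    rcases hi with h | h
    · have := pow_pos (abs_pos.2 h) 2
      rw [sq_abs] at this
      positivity
    · have := pow_pos (abs_pos.2 h) 2
      rw [sq_abs] at this
      positivity
  obtain ⟨ψ, hψ⟩ : ∃ ψ, ψ = y i := ⟨_, rfl⟩
  have hψv : ∀ v, ψ v = α i * (e v).1 + β i * (e v).2 := by
    intro v
    rw [hψ]
    exact hco i v
  obtain ⟨s, hs⟩ : ∃ s : Fin 3 → ℝ, s = fun k => (α k * α i + β k * β i) / (α i ^ 2 + β i ^ 2) := ⟨_, rfl⟩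
  have hys : ∀ k, y k = s k • ψ := by
    intro k
    ext v
    have e1 : (s k • ψ) v = s k * ψ v := rfl
    rw [e1, hco, hψv, hs]
    have h1 := hdd i k
    have h2 : α k = (α k * α i + β k * β i) / (α i ^ 2 + β i ^ 2) * α i := by
      rw [div_mul_eq_mul_div, eq_div_iff hpos.ne']
      linear_combination (-β i) * h1
    have h3 : β k = (α k * α i + β k * β i) / (α i ^ 2 + β i ^ 2) * β i := by
      rw [div_mul_eq_mul_div, eq_div_iff hpos.ne']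
      linear_combination (α i) * h1
    calc α k * (e v).1 + β k * (e v).2 = ((α k * α i + β k * β i) / (α i ^ 2 + β i ^ 2) * α i) * (e v).1 +
          ((α k * α i + β k * β i) / (α i ^ 2 + β i ^ 2) * β i) * (e v).2 := by rw [← h2, ← h3]
      _ = _ := by ring
  have hs3 : s 0 + s 1 + s 2 = 0 := by
    rw [hs]
    show (α 0 * α i + β 0 * β i) / (α i ^ 2 + β i ^ 2) + (α 1 * α i + β 1 * β i) / (α i ^ 2 + β i ^ 2) +
      (α 2 * α i + β 2 * β i) / (α i ^ 2 + β i ^ 2) = 0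
    rw [← add_div, ← add_div, div_eq_zero_iff]
    left
    linear_combination α i * hα3 + β i * hβ3
  have hsi : s i = 1 := by
    rw [hs]
    show (α i * α i + β i * β i) / (α i ^ 2 + β i ^ 2) = 1
    rw [div_eq_one_iff_eq hpos.ne']
    ring
  obtain ⟨S, hS⟩ : ∃ S : ℝ, S = ∑ k, max (s k) 0 := ⟨_, rfl⟩
  have hS0 : 0 < S := by
    rw [hS]
    refine Finset.sum_pos' (fun k _ => le_max_right _ _) ⟨i, Finset.mem_univ _, ?_⟩
    rw [hsi]
    norm_num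
  have hS' : S = ∑ k, max (-s k) 0 := by
    have h1 : ∀ u : ℝ, max u 0 - max (-u) 0 = u := by
      intro u
      rcases le_total 0 u with h | h
      · rw [max_eq_left h, max_eq_right (by linarith : -u ≤ 0)]
        ring
      · rw [max_eq_right h, max_eq_left (by linarith : 0 ≤ -u)]
        ring
    rw [hS, Fin.sum_univ_three, Fin.sum_univ_three]
    have := h1 (s 0)
    have := h1 (s 1)
    have := h1 (s 2)
    linarith
  obtain ⟨p, hp⟩ : ∃ p, p = sL L ψ := ⟨_, rfl⟩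
  obtain ⟨q, hq⟩ : ∃ q, q = sL L (-ψ) := ⟨_, rfl⟩
  have hpk : ∀ k, sL L (y k) = max (s k) 0 * p + max (-s k) 0 * q := by
    intro k
    rw [hys k, Red_sL hL hn, ← hp, ← hq]
  have hqk : ∀ k, sL L (-y k) = max (s k) 0 * q + max (-s k) 0 * p := by
    intro k
    have e1 : -y k = (-s k) • ψ := by
      rw [hys k]
      exact (neg_smul _ _).symm
    rw [e1, Red_sL hL hn, ← hp, ← hq, neg_neg]
    ring
  have hRn : R.Nonempty := ⟨r 0, hr 0⟩
  obtain ⟨r1, hr1, hmax⟩ := hRk.exists_isMaxOn hRn ψ.continuous.continuousOn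
  obtain ⟨r2, hr2, hmin⟩ := hRk.exists_isMinOn hRn ψ.continuous.continuousOn
  have hw : (p + q) * (1 + 2 * ν) ≤ ψ r1 - ψ r2 := by
    have h1 : ∀ k, -(y k (r k)) ≤ max (s k) 0 * (-ψ r2) + max (-s k) 0 * ψ r1 := by
      intro k
      have e1 : y k (r k) = s k * ψ (r k) := by rw [hys k]; rfl
      have k1 : ψ r2 ≤ ψ (r k) := hmin (hr k)
      have k2 : ψ (r k) ≤ ψ r1 := hmax (hr k)
      rw [e1]
      rcases le_total 0 (s k) with h | h
      · rw [max_eq_left h, max_eq_right (by linarith : -s k ≤ 0)]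
        nlinarith
      · rw [max_eq_right h, max_eq_left (by linarith : 0 ≤ -s k)]
        nlinarith
    have h2 : ∑ k, -(y k (r k)) ≤ S * (-ψ r2) + S * ψ r1 := by
      calc ∑ k, -(y k (r k)) ≤ ∑ k, (max (s k) 0 * (-ψ r2) + max (-s k) 0 * ψ r1) := Finset.sum_le_sum fun k _ => h1 k
        _ = _ := by
          rw [Finset.sum_add_distrib, ← Finset.sum_mul, ← Finset.sum_mul, ← hS, ← hS']
    have h3 : ∑ k, (sL L (-y k) + ν * (sL L (-y k) + sL L (y k))) = S * ((p + q) * (1 + 2 * ν)) := by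
      have k1 : ∀ k, sL L (-y k) + ν * (sL L (-y k) + sL L (y k)) =
          max (s k) 0 * (q + ν * (p + q)) + max (-s k) 0 * (p + ν * (p + q)) := by
        intro k
        rw [hpk, hqk]
        ring
      simp only [k1]
      rw [Finset.sum_add_distrib, ← Finset.sum_mul, ← Finset.sum_mul, ← hS, ← hS']
      ring
    rw [h3] at hsum
    have h4 : S * ((p + q) * (1 + 2 * ν)) ≤ S * (ψ r1 - ψ r2) := by linarith
    exact le_of_mul_le_mul_left h4 hS0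
  have hwid : ∀ l ∈ L, ∀ m ∈ L, ψ l - ψ m ≤ p + q := by
    intro l hl m hm
    have h1 := sL_le hL ψ hl
    have h2 := sL_le hL (-ψ) hm
    have e1 : (-ψ) m = -(ψ m) := rfl
    rw [e1] at h2
    rw [hp, hq]
    linarith
  have hA1 : ∀ a ∈ A, ψ a ≤ p + q + ψ r2 := by
    intro a ha
    obtain ⟨l, hl, m, hm, h1⟩ := hAR a ha r2 hr2
    have h2 := hwid l hl m hm
    rw [← map_sub, ← h1, map_sub] at h2
    linarith
  have hA2 : ∀ a ∈ A, ψ r1 - (p + q) ≤ ψ a := by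
    intro a ha
    obtain ⟨l, hl, m, hm, h1⟩ := hAR a ha r1 hr1
    have h2 := hwid m hm l hl
    have h3 : ψ a - ψ r1 = ψ l - ψ m := by rw [← map_sub, h1, map_sub]
    linarith
  -- the second functional
  obtain ⟨ψ', hψ'⟩ : ∃ ψ' : StrongDual ℝ E, ψ' = (-β i) • ((ContinuousLinearMap.fst ℝ ℝ ℝ).comp (e : E →L[ℝ] ℝ × ℝ)) +
      α i • ((ContinuousLinearMap.snd ℝ ℝ ℝ).comp (e : E →L[ℝ] ℝ × ℝ)) := ⟨_, rfl⟩
  have hψ'v : ∀ v, ψ' v = -β i * (e v).1 + α i * (e v).2 := by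
    intro v
    rw [hψ']
    rfl
  obtain ⟨Λ, hΛ⟩ : ∃ Λ : E →L[ℝ] ℝ × ℝ, Λ = ψ'.prod ψ := ⟨_, rfl⟩
  have hΛv : ∀ v, Λ v = (ψ' v, ψ v) := by
    intro v
    rw [hΛ]
    rfl
  have hinj : Function.Injective Λ := by
    intro u v huv
    rw [hΛv, hΛv, Prod.mk.injEq] at huv
    obtain ⟨h0, h1⟩ := huv
    rw [hψ'v, hψ'v] at h0
    rw [hψv, hψv] at h1
    apply e.injective
    have k1 : (α i ^ 2 + β i ^ 2) * ((e u).1 - (e v).1) = 0 := by linear_combination α i * h1 - β i * h0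
    have k2 : (α i ^ 2 + β i ^ 2) * ((e u).2 - (e v).2) = 0 := by linear_combination β i * h1 + α i * h0
    exact Prod.ext (sub_eq_zero.1 ((mul_eq_zero.1 k1).resolve_left hpos.ne'))
      (sub_eq_zero.1 ((mul_eq_zero.1 k2).resolve_left hpos.ne'))
  have hsur : ∀ w : ℝ × ℝ, ∃ v, Λ v = w := by
    intro w
    refine ⟨e.symm ((α i * w.2 - β i * w.1) / (α i ^ 2 + β i ^ 2), (β i * w.2 + α i * w.1) / (α i ^ 2 + β i ^ 2)), ?_⟩
    rw [hΛv, hψ'v, hψv, e.apply_symm_apply]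
    refine Prod.ext ?_ ?_
    · show -β i * ((α i * w.2 - β i * w.1) / (α i ^ 2 + β i ^ 2)) + α i * ((β i * w.2 + α i * w.1) / (α i ^ 2 + β i ^ 2)) = w.1
      field_simp
      ring
    · show α i * ((α i * w.2 - β i * w.1) / (α i ^ 2 + β i ^ 2)) + β i * ((β i * w.2 + α i * w.1) / (α i ^ 2 + β i ^ 2)) = w.2
      field_simp
      ring
  obtain ⟨t, ht⟩ := hsur (0, p + q + ψ r2 - p + ν * (p + q))
  have ht2 : ψ t = p + q + ψ r2 - p + ν * (p + q) := by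
    rw [hΛv, Prod.mk.injEq] at ht
    exact ht.2
  obtain ⟨T', hT'⟩ := hP (Λ '' L) (hL.image Λ.continuous) (hc.linear_image Λ.toLinearMap) (hn.image _)
    ν hν hν1 (Λ (x - t)) p q
    (by
      rintro _ ⟨l, hl, rfl⟩
      rw [hΛv]
      refine ⟨?_, by rw [hp]; exact sL_le hL _ hl⟩
      have := sL_le hL (-ψ) hl
      have e1 : (-ψ) l = -(ψ l) := rfl
      rw [e1, ← hq] at this
      show -q ≤ ψ l
      linarith)
    (by
      obtain ⟨l, hl, h1⟩ := sL_attained hL hn ψ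
      refine ⟨Λ l, mem_image_of_mem _ hl, ?_⟩
      rw [hΛv, hp]
      exact h1.symm)
    (by
      obtain ⟨l, hl, h1⟩ := sL_attained hL hn (-ψ)
      refine ⟨Λ l, mem_image_of_mem _ hl, ?_⟩
      have e1 : (-ψ) l = -(ψ l) := rfl
      rw [e1] at h1
      rw [hΛv, hq]
      show ψ l = -sL L (-ψ)
      linarith)
  refine Red_pull Λ hinj t T' (fun j => hsur _) fun a ha => ?_
  have h1 := hA1 a ha
  have h2 := hA2 a ha
  refine hT' _ ?_ ?_ ?_
  · obtain ⟨l, hl, m, hm, m', hm', h1⟩ := hx a ha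
    refine ⟨Λ l, mem_image_of_mem _ hl, Λ m, mem_image_of_mem _ hm, Λ m', mem_image_of_mem _ hm', ?_⟩
    rw [← map_sub Λ m m', ← map_smul, ← map_add, ← map_add]
    congr 1
    have h2 : a = x + (l + ν • (m - m')) := by rw [← h1]; abel
    rw [h2]
    abel
  · rw [hΛv]
    show -q + ν * (p + q) ≤ ψ (a - t)
    rw [map_sub]
    linarith
  · rw [hΛv]
    show ψ (a - t) ≤ p - ν * (p + q)
    rw [map_sub]
    linarith

/-- The least `μ`. -/
theorem Red_min {L A : Set E} (hL : IsCompact L) (hn : L.Nonempty) (hA : A.Nonempty) {b : E}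
    (hAb : ∀ a ∈ A, ∃ l ∈ L, ∃ m ∈ L, a - b = l - m) :
    ∃ ν ∈ Icc (0 : ℝ) 1, Fit L A ν ∧ ∀ μ ∈ Ico 0 ν, ¬ Fit L A μ := by
  obtain ⟨F, hF⟩ : ∃ F : E → Set (E × ℝ), F = fun a => {z | z.2 ∈ Icc (0 : ℝ) 1 ∧ a - z.1 ∈ Wd L z.2} := ⟨_, rfl⟩
  have hFk : ∀ a, IsCompact (F a) := by
    intro a
    have h1 : F a = (fun z : E × E × E × ℝ => (a - (z.1 + z.2.2.2 • (z.2.1 - z.2.2.1)), z.2.2.2)) ''
        (L ×ˢ L ×ˢ L ×ˢ Icc (0 : ℝ) 1) := by
      rw [hF]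
      ext ⟨z, μ⟩
      constructor
      · rintro ⟨hμ, l, hl, m, hm, m', hm', h2⟩
        refine ⟨(l, m, m', μ), ⟨hl, hm, hm', hμ⟩, ?_⟩
        refine Prod.ext ?_ rfl
        show a - (l + μ • (m - m')) = z
        rw [← h2]
        exact sub_sub_cancel _ _
      · rintro ⟨⟨l, m, m', μ'⟩, ⟨hl, hm, hm', hμ⟩, h2⟩
        rw [Prod.mk.injEq] at h2
        obtain ⟨h2, h3⟩ := h2
        refine ⟨by rw [← h3]; exact hμ, l, hl, m, hm, m', hm', ?_⟩
        show a - z = l + μ • (m - m')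
        rw [← h2, ← h3]
        exact sub_sub_cancel _ _
    rw [h1]
    refine (hL.prod (hL.prod (hL.prod isCompact_Icc))).image ?_
    fun_prop
  obtain ⟨G, hG⟩ : ∃ G : Set (E × ℝ), G = ⋂ a ∈ A, F a := ⟨_, rfl⟩
  obtain ⟨a0, ha0⟩ := hA
  have hGk : IsCompact G := by
    refine (hFk a0).of_isClosed_subset ?_ ?_
    · rw [hG]
      exact isClosed_biInter fun a _ => (hFk a).isClosed
    · rw [hG]
      exact biInter_subset_of_mem ha0
  have hmem : ∀ z : E × ℝ, z ∈ G ↔ ∀ a ∈ A, z.2 ∈ Icc (0 : ℝ) 1 ∧ a - z.1 ∈ Wd L z.2 := by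
    intro z
    rw [hG, mem_iInter₂, hF]
    exact Iff.rfl
  obtain ⟨l0, hl0⟩ := hn
  have hGn : G.Nonempty := by
    refine ⟨(b - l0, 1), (hmem _).2 fun a ha => ⟨⟨zero_le_one, le_rfl⟩, ?_⟩⟩
    obtain ⟨l, hl, m, hm, h1⟩ := hAb a ha
    refine ⟨l0, hl0, l, hl, m, hm, ?_⟩
    show a - (b - l0) = l0 + (1 : ℝ) • (l - m)
    rw [← h1, one_smul]
    abel
  obtain ⟨⟨x, ν⟩, hxν, hmin⟩ := hGk.exists_isMinOn hGn continuous_snd.continuousOn
  have h1 := (hmem _).1 hxν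
  have hν : ν ∈ Icc (0 : ℝ) 1 := (h1 a0 ha0).1
  refine ⟨ν, hν, ⟨x, fun a ha => (h1 a ha).2⟩, ?_⟩
  rintro μ ⟨hμ0, hμν⟩ ⟨x', hx'⟩
  have h2 : (x', μ) ∈ G := (hmem _).2 fun a ha => ⟨⟨hμ0, hμν.le.trans hν.2⟩, hx' a ha⟩
  have h3 : ν ≤ μ := hmin h2
  linarith

/-- One side. -/
theorem Red_side (h2 : Module.finrank ℝ E = 2) (hT : TripleCase) (hP : PairCase) {L A R : Set E}
    (hL : IsCompact L) (hc : Convex ℝ L) (hn : L.Nonempty) (hRk : IsCompact R)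
    (hAR : ∀ a ∈ A, ∀ b ∈ R, ∃ l ∈ L, ∃ m ∈ L, a - b = l - m) {ν : ℝ} (hν0 : 0 ≤ ν) (hν1 : ν ≤ 1)
    (hA : Fit L A ν) (hR : ∀ μ ∈ Ico 0 ν, ¬ Fit L R μ) : Cov L A := by
  obtain ⟨x, hx⟩ := hA
  rcases hν0.eq_or_lt with hz | hν
  · refine ⟨fun _ => x, fun a ha => ⟨0, ?_⟩⟩
    obtain ⟨l, hl, m, hm, m', hm', h1⟩ := hx a ha
    show a - x ∈ L
    rw [h1, ← hz, zero_smul, add_zero]
    exact hl
  · obtain ⟨φ, r, hφ, hr, hφ3, hsum⟩ := dual h2 hL hc hn hRk hν hR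
    have e : E ≃L[ℝ] ℝ × ℝ := ContinuousLinearEquiv.ofFinrankEq (by simp [h2])
    obtain ⟨y, hy⟩ : ∃ y : Fin 3 → StrongDual ℝ E, y = fun k => -φ k := ⟨_, rfl⟩
    have hφy : ∀ k, φ k = -y k := by
      intro k
      rw [hy]
      exact (neg_neg _).symm
    have hy3 : y 0 + y 1 + y 2 = 0 := by
      rw [hy]
      show -φ 0 + -φ 1 + -φ 2 = 0
      rw [← neg_add, ← neg_add, hφ3, neg_zero]
    have hy0 : y ≠ 0 := by
      rintro rfl
      refine hφ (funext fun k => ?_)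
      rw [hφy k]
      simp
    have hsum' : ∑ k, (sL L (-y k) + ν * (sL L (-y k) + sL L (y k))) ≤ ∑ k, -(y k (r k)) := by
      have e1 : ∀ k, sL L (φ k) + ν * (sL L (φ k) + sL L (-φ k)) =
          sL L (-y k) + ν * (sL L (-y k) + sL L (y k)) := by
        intro k
        rw [hφy k, neg_neg]
      have e2 : ∀ k, φ k (r k) = -(y k (r k)) := by
        intro k
        rw [hφy k]
        rfl
      simp only [e1, e2] at hsum
      exact hsum
    by_cases hd : y 0 (e.symm (1, 0)) * y 1 (e.symm (0, 1)) - y 1 (e.symm (1, 0)) * y 0 (e.symm (0, 1)) = 0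
    · exact Red_pair hP hL hc hn hRk hν hν1 e y hy3 hy0 hd r hr hsum' hAR x hx
    · refine Red_triple hT hL hc hn hν hν1 e y hy3 hd (fun k => sL L (y k) + sL L (-y k) + y k (r k)) ?_ ?_ x hx
      · rw [Fin.sum_univ_three] at hsum' ⊢
        rw [Fin.sum_univ_three] at hsum'
        linarith
      · intro a ha k
        obtain ⟨l, hl, m, hm, h1⟩ := hAR a ha (r k) (hr k)
        have k1 := sL_le hL (y k) hl
        have k2 := sL_le hL (-y k) hm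
        have e1 : (-y k) m = -(y k m) := rfl
        rw [e1] at k2
        have k3 : y k a - y k (r k) = y k l - y k m := by rw [← map_sub, h1, map_sub]
        show y k a ≤ sL L (y k) + sL L (-y k) + y k (r k)
        linarith

/-- Two compact sets. -/
theorem Red_compact (h2 : Module.finrank ℝ E = 2) (hT : TripleCase) (hP : PairCase) {L A R : Set E}
    (hL : IsCompact L) (hc : Convex ℝ L) (hn : L.Nonempty) (hAk : IsCompact A) (hRk : IsCompact R)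
    (hA : A.Nonempty) (hR : R.Nonempty)
    (hAR : ∀ a ∈ A, ∀ b ∈ R, ∃ l ∈ L, ∃ m ∈ L, a - b = l - m) : Cov L A ∨ Cov L R := by
  obtain ⟨a0, ha0⟩ := id hA
  obtain ⟨b0, hb0⟩ := id hR
  have hRA : ∀ b ∈ R, ∀ a ∈ A, ∃ l ∈ L, ∃ m ∈ L, b - a = l - m := by
    intro b hb a ha
    obtain ⟨l, hl, m, hm, h1⟩ := hAR a ha b hb
    refine ⟨m, hm, l, hl, ?_⟩
    rw [← neg_sub a b, h1, neg_sub]
  obtain ⟨ν, hν, h3, h4⟩ := Red_min hL hn hA (b := b0) fun a ha => hAR a ha b0 hb0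
  obtain ⟨ν', hν', h5, h6⟩ := Red_min hL hn hR (b := a0) fun b hb => hRA b hb a0 ha0
  rcases le_total ν ν' with h | h
  · left
    exact Red_side h2 hT hP hL hc hn hRk hAR hν.1 hν.2 h3 fun μ hμ => h6 μ ⟨hμ.1, hμ.2.trans_le h⟩
  · right
    exact Red_side h2 hT hP hL hc hn hAk hRA hν'.1 hν'.2 h5 fun μ hμ => h4 μ ⟨hμ.1, hμ.2.trans_le h⟩

/-- The polar set is compact. -/
theorem Red_polar {L R : Set E} (hL : IsCompact L) (hR : R.Nonempty) :
    IsCompact {a : E | ∀ b ∈ R, ∃ l ∈ L, ∃ m ∈ L, a - b = l - m} := by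
  have h1 : ∀ b : E, IsCompact {a : E | ∃ l ∈ L, ∃ m ∈ L, a - b = l - m} := by
    intro b
    have h2 : {a : E | ∃ l ∈ L, ∃ m ∈ L, a - b = l - m} = (fun z : E × E => b + (z.1 - z.2)) '' (L ×ˢ L) := by
      ext a
      constructor
      · rintro ⟨l, hl, m, hm, h3⟩
        refine ⟨(l, m), ⟨hl, hm⟩, ?_⟩
        show b + (l - m) = a
        rw [← h3]
        abel
      · rintro ⟨⟨l, m⟩, ⟨hl, hm⟩, rfl⟩
        refine ⟨l, hl, m, hm, ?_⟩
        show b + (l - m) - b = l - m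
        abel
    rw [h2]
    exact (hL.prod hL).image (by fun_prop)
  have h2 : {a : E | ∀ b ∈ R, ∃ l ∈ L, ∃ m ∈ L, a - b = l - m} = ⋂ b ∈ R, {a : E | ∃ l ∈ L, ∃ m ∈ L, a - b = l - m} := by
    ext a
    simp only [mem_iInter]
    exact Iff.rfl
  obtain ⟨b0, hb0⟩ := hR
  rw [h2]
  exact (h1 b0).of_isClosed_subset (isClosed_biInter fun b _ => (h1 b).isClosed) (biInter_subset_of_mem hb0)

/-- Two arbitrary sets. -/
theorem Red_any (h2 : Module.finrank ℝ E = 2) (hT : TripleCase) (hP : PairCase) {L A R : Set E}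
    (hL : IsCompact L) (hc : Convex ℝ L) (hn : L.Nonempty) (hA : A.Nonempty) (hR : R.Nonempty)
    (hAR : ∀ a ∈ A, ∀ b ∈ R, ∃ l ∈ L, ∃ m ∈ L, a - b = l - m) : Cov L A ∨ Cov L R := by
  obtain ⟨A1, hA1⟩ : ∃ A1 : Set E, A1 = {a : E | ∀ b ∈ R, ∃ l ∈ L, ∃ m ∈ L, a - b = l - m} := ⟨_, rfl⟩
  obtain ⟨R1, hR1⟩ : ∃ R1 : Set E, R1 = {b : E | ∀ a ∈ A1, ∃ l ∈ L, ∃ m ∈ L, b - a = l - m} := ⟨_, rfl⟩
  have hAA : A ⊆ A1 := by
    intro a ha
    rw [hA1]
    exact fun b hb => hAR a ha b hb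
  have hRR : R ⊆ R1 := by
    intro b hb
    rw [hR1]
    intro a ha
    rw [hA1] at ha
    obtain ⟨l, hl, m, hm, h1⟩ := ha b hb
    refine ⟨m, hm, l, hl, ?_⟩
    rw [← neg_sub a b, h1, neg_sub]
  have hAk : IsCompact A1 := by
    rw [hA1]
    exact Red_polar hL hR
  have hRk : IsCompact R1 := by
    rw [hR1]
    exact Red_polar hL (hA.mono hAA)
  have h3 : ∀ a ∈ A1, ∀ b ∈ R1, ∃ l ∈ L, ∃ m ∈ L, a - b = l - m := by
    intro a ha b hb
    rw [hR1] at hb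
    obtain ⟨l, hl, m, hm, h1⟩ := hb a ha
    refine ⟨m, hm, l, hl, ?_⟩
    rw [← neg_sub b a, h1, neg_sub]
  rcases Red_compact h2 hT hP hL hc hn hAk hRk (hA.mono hAA) (hR.mono hRR) h3 with ⟨T, h4⟩ | ⟨T, h4⟩
  · exact Or.inl ⟨T, fun a ha => h4 a (hAA ha)⟩
  · exact Or.inr ⟨T, fun b hb => h4 b (hRR hb)⟩

/-- Piercing by three points. -/
def Pierce3 (K F : Set (EuclideanSpace ℝ (Fin 2))) : Prop :=
  ∃ P : Finset (EuclideanSpace ℝ (Fin 2)), P.card ≤ 3 ∧ ∀ a ∈ F, ∃ p ∈ P, p ∈ a +ᵥ K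

/-- The case of two families. -/
theorem two_families (hT : TripleCase) (hP : PairCase) {K : Set (EuclideanSpace ℝ (Fin 2))} (hK : IsCompact K)
    (hc : Convex ℝ K) {A R : Set (EuclideanSpace ℝ (Fin 2))} (hA : A.Nonempty) (hR : R.Nonempty)
    (h : ∀ a ∈ A, ∀ b ∈ R, ((a +ᵥ K) ∩ (b +ᵥ K)).Nonempty) : Pierce3 K A ∨ Pierce3 K R := by
  classical
  have hAR : ∀ a ∈ A, ∀ b ∈ R, ∃ l ∈ -K, ∃ m ∈ -K, a - b = l - m := by
    intro a ha b hb
    obtain ⟨z, ⟨k, hk, hk1⟩, ⟨k', hk', hk2⟩⟩ := h a ha b hb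
    refine ⟨-k, by simpa using hk, -k', by simpa using hk', ?_⟩
    have h1 : a + k = z := hk1
    have h2 : b + k' = z := hk2
    have h3 : a = z - k := by rw [← h1]; abel
    have h4 : b = z - k' := by rw [← h2]; abel
    rw [h3, h4]
    abel
  have hn : (-K).Nonempty := by
    obtain ⟨a, ha⟩ := hA
    obtain ⟨b, hb⟩ := hR
    obtain ⟨l, hl, -⟩ := hAR a ha b hb
    exact ⟨l, hl⟩
  have hconv : ∀ F : Set (EuclideanSpace ℝ (Fin 2)), Cov (-K) F → Pierce3 K F := by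
    rintro F ⟨T, hT⟩
    refine ⟨Finset.univ.image T, Finset.card_image_le.trans (by simp), fun a ha => ?_⟩
    obtain ⟨j, hj⟩ := hT a ha
    refine ⟨T j, Finset.mem_image_of_mem _ (Finset.mem_univ _), ?_⟩
    rw [Set.mem_neg] at hj
    refine ⟨-(a - T j), hj, ?_⟩
    show a + -(a - T j) = T j
    abel
  rcases Red_any (by simp) hT hP hK.neg hc.neg hn hA hR hAR with h1 | h1
  · exact Or.inl (hconv _ h1)
  · exact Or.inr (hconv _ h1)

/-- The case `n = 2` of the frozen statement. -/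
theorem n_two (hT : TripleCase) (hP : PairCase) (K : Set (EuclideanSpace ℝ (Fin 2))) (hK : IsCompact K)
    (hc : Convex ℝ K) (F : Fin 2 → Set (EuclideanSpace ℝ (Fin 2))) (hF : ∀ i, (F i).Nonempty)
    (h : ∀ i j : Fin 2, i ≠ j → ∀ a ∈ F i, ∀ b ∈ F j, ((a +ᵥ K) ∩ (b +ᵥ K)).Nonempty) :
    ∃ m : Fin 2, ∃ P : Finset (EuclideanSpace ℝ (Fin 2)), P.card ≤ 3 ∧
      ∀ i : Fin 2, i ≠ m → ∀ a ∈ F i, ∃ p ∈ P, p ∈ a +ᵥ K := by
  rcases two_families hT hP hK hc (hF 0) (hF 1) (h 0 1 (by decide)) with ⟨P, h1, h2⟩ | ⟨P, h1, h2⟩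
  · refine ⟨1, P, h1, fun i hi => ?_⟩
    have : i = 0 := by omega
    rw [this]
    exact h2
  · refine ⟨0, P, h1, fun i hi => ?_⟩
    have : i = 1 := by omega
    rw [this]
    exact h2

end Pool.Agent.H81.R2
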