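import Pool.Agent.H81.R2.ReductionMM
import Pool.Agent.H81.R2.ReductionH
import Pool.Agent.H90.PP.PairP

/-!
A version of the reduction which uses the owners of the contact points.
-/

set_option autoImplicit false
set_option linter.unusedSectionVars false

open Set Filter Topology
open scoped Pointwise

namespace Pool.Agent.H81.R2

/-- The region which belongs to the direction `k`: `P k` is the top contact point, `B k` the lowest point
of the union of all the families. -/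
def InS (L : Set (Fin 3 → ℝ)) (κ : ℝ) (p q s : Fin 3 → ℝ) (P B : Fin 3 → Fin 3 → ℝ) (k : Fin 3)
    (z : Fin 3 → ℝ) : Prop :=
  -q k + κ * (p k + q k) ≤ z k ∧ z k ≤ p k - κ * (p k + q k) + s k ∧ (∀ l, -q l + s l ≤ z l) ∧
    (∃ a ∈ L, ∃ b ∈ L, z = P k + (1 - κ) • (a - b)) ∧
    (s k < κ * (p k + q k) → ∃ a ∈ L, ∃ b ∈ L, z = B k + (1 - κ) • (a - b))

/-- The colour-free statement (with the lens at the bottom point): one of three convex regions is covered. -/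
def MMp : Prop :=
  ∀ L : Set (Fin 3 → ℝ), IsCompact L → Convex ℝ L → (∀ v ∈ L, v 0 + v 1 + v 2 = 0) →
  ∀ κ : ℝ, 0 < κ → κ ≤ 2 / 3 → ∀ p q s : Fin 3 → ℝ, ∀ P B : Fin 3 → Fin 3 → ℝ,
    (∀ v ∈ L, ∀ k, -q k ≤ v k ∧ v k ≤ p k) → (∀ k, ∃ v ∈ L, v k = -q k) → (∀ k, P k ∈ L ∧ P k k = p k) →
    (∀ k, 0 < p k + q k) → (∀ k, 0 ≤ s k ∧ s k ≤ κ * (p k + q k)) → (∀ j k, -q k + s k ≤ P j k) →
    (∀ k, s k < κ * (p k + q k) → B k ∈ L ∧ B k k = -q k + s k ∧ ∀ l, -q l + s l ≤ B k l) →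
    ∃ j, ∃ T : Fin 3 → Fin 3 → ℝ, ∀ z ∈ L, InS L κ p q s P B j z → ∃ i, ∃ l ∈ L, z = T i + (1 - κ) • l

/-- The weakest version. `same j k` says that the contact points `j` and `k` have the same owner. If the family
of the owner of the contact point `j` is dropped, a point of another family lies in all three regions if it has
the colour of no contact point, and in all the regions `k` not owned by its own colour otherwise. -/
def MMd : Prop :=
  ∀ L : Set (Fin 3 → ℝ), IsCompact L → Convex ℝ L → (∀ v ∈ L, v 0 + v 1 + v 2 = 0) →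
  ∀ κ : ℝ, 0 < κ → κ ≤ 2 / 3 → ∀ p q s : Fin 3 → ℝ, ∀ P B : Fin 3 → Fin 3 → ℝ,
    (∀ v ∈ L, ∀ k, -q k ≤ v k ∧ v k ≤ p k) → (∀ k, ∃ v ∈ L, v k = -q k) → (∀ k, P k ∈ L ∧ P k k = p k) →
    (∀ k, 0 < p k + q k) → (∀ k, 0 ≤ s k ∧ s k ≤ κ * (p k + q k)) → (∀ j k, -q k + s k ≤ P j k) →
    (∀ k, s k < κ * (p k + q k) → B k ∈ L ∧ B k k = -q k + s k ∧ ∀ l, -q l + s l ≤ B k l) →
    ∀ same : Fin 3 → Fin 3 → Prop, Equivalence same →
    (∀ j k, ¬ same j k → (∃ a ∈ L, ∃ b ∈ L, P j - P k = (1 - κ) • (a - b)) ∧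
      (s k < κ * (p k + q k) → (∃ a ∈ L, ∃ b ∈ L, P j - B k = (1 - κ) • (a - b)) ∧
        (s j < κ * (p j + q j) → ∃ a ∈ L, ∃ b ∈ L, B j - B k = (1 - κ) • (a - b)))) →
    ∃ j, ∃ T : Fin 3 → Fin 3 → ℝ, ∀ z ∈ L,
      ((∀ k, InS L κ p q s P B k z) ∨ ∃ m, ¬ same j m ∧ ∀ k, ¬ same m k → InS L κ p q s P B k z) →
        ∃ i, ∃ l ∈ L, z = T i + (1 - κ) • l

theorem MMd_of_MMp (h : MMp) : MMd := by
  intro L hL hc h0 κ hκ hκ2 p q s P B h1 h2 h3 h4 h5 h6 h7 same hs _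
  obtain ⟨j, T, hT⟩ := h L hL hc h0 κ hκ hκ2 p q s P B h1 h2 h3 h4 h5 h6 h7
  refine ⟨j, T, fun z hz hk => hT z hz ?_⟩
  rcases hk with hk | ⟨m, hm, hk⟩
  · exact hk j
  · exact hk j fun h => hm (hs.symm h)

variable {E : Type*} [NormedAddCommGroup E] [NormedSpace ℝ E] [FiniteDimensional ℝ E]

/-- The union of all families lies in a translate of `6 L`. -/
theorem MD_fit (h2 : Module.finrank ℝ E = 2) {L : Set E} (hL : IsCompact L) (hc : Convex ℝ L) (hn : L.Nonempty)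
    {ι : Type*} {V : ι → Set E} (hVn : ∀ i, (V i).Nonempty) {i0 j0 : ι} (hij : i0 ≠ j0)
    (hD : ∀ i j, i ≠ j → ∀ a ∈ V i, ∀ b ∈ V j, ∃ l ∈ L, ∃ m ∈ L, a - b = l - m) :
    FitH L (⋃ i, V i) 5 := by
  obtain ⟨a0, ha0⟩ := hVn i0
  obtain ⟨b0, hb0⟩ := hVn j0
  obtain ⟨x, hx⟩ := diff_three h2 hL hc hn
  obtain ⟨l0, hl0⟩ := id hn
  have h1 : ∀ z ∈ ⋃ i, V i, ∃ l ∈ L, ∃ m ∈ L, ∃ l' ∈ L, ∃ m' ∈ L, z - b0 = (l - m) + (l' - m') := by
    intro z hz
    obtain ⟨i, hi⟩ := mem_iUnion.1 hz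
    by_cases h : i = j0
    · obtain ⟨l, hl, m, hm, h3⟩ := hD i i0 (by rw [h]; exact hij.symm) z hi a0 ha0
      obtain ⟨l', hl', m', hm', h4⟩ := hD i0 j0 hij a0 ha0 b0 hb0
      exact ⟨l, hl, m, hm, l', hl', m', hm', by rw [← h3, ← h4]; abel⟩
    · obtain ⟨l, hl, m, hm, h3⟩ := hD i j0 h z hi b0 hb0
      exact ⟨l, hl, m, hm, l0, hl0, l0, hl0, by rw [← h3]; abel⟩
  refine ⟨b0 + (2 : ℝ) • x, fun z hz => ?_⟩
  obtain ⟨l, hl, m, hm, l', hl', m', hm', h3⟩ := h1 z hz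
  obtain ⟨k, hk, h4⟩ := hx l hl m hm
  obtain ⟨k', hk', h5⟩ := hx l' hl' m' hm'
  refine ⟨(2⁻¹ : ℝ) • k + (2⁻¹ : ℝ) • k', hc hk hk' (by norm_num) (by norm_num) (by norm_num), ?_⟩
  have h6 : z = b0 + ((l - m) + (l' - m')) := by rw [← h3]; abel
  rw [h6, h4, h5]
  module

/-- A flat `L`. -/
theorem MD_deg (h2 : Module.finrank ℝ E = 2) {L : Set E} (hL : IsCompact L) (hc : Convex ℝ L) (hn : L.Nonempty)
    {ψ : StrongDual ℝ E} (hψ : ψ ≠ 0) (hcst : ∀ l ∈ L, ∀ m ∈ L, ψ l = ψ m) (b : E) :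
    Cov L {x | ∃ l ∈ L, ∃ m ∈ L, x - b = l - m} := by
  have e : E ≃L[ℝ] ℝ × ℝ := ContinuousLinearEquiv.ofFinrankEq (by simp [h2])
  obtain ⟨α, hα⟩ : ∃ α : ℝ, α = ψ (e.symm (1, 0)) := ⟨_, rfl⟩
  obtain ⟨β, hβ⟩ : ∃ β : ℝ, β = ψ (e.symm (0, 1)) := ⟨_, rfl⟩
  have hψv : ∀ v, ψ v = α * (e v).1 + β * (e v).2 := by
    intro v
    rw [hα, hβ]
    exact Red_coord e ψ v
  have hpos : α ^ 2 + β ^ 2 ≠ 0 := by
    intro h
    have h1 : α = 0 := by
      have : α ^ 2 = 0 := by nlinarith [sq_nonneg α, sq_nonneg β]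
      exact pow_eq_zero_iff (two_ne_zero) |>.1 this
    have h2 : β = 0 := by
      have : β ^ 2 = 0 := by nlinarith [sq_nonneg α, sq_nonneg β]
      exact pow_eq_zero_iff (two_ne_zero) |>.1 this
    refine hψ ?_
    ext v
    rw [hψv, h1, h2]
    simp
  obtain ⟨θ, hθ⟩ : ∃ θ : StrongDual ℝ E, θ = (-β) • ((ContinuousLinearMap.fst ℝ ℝ ℝ).comp (e : E →L[ℝ] ℝ × ℝ)) +
      α • ((ContinuousLinearMap.snd ℝ ℝ ℝ).comp (e : E →L[ℝ] ℝ × ℝ)) := ⟨_, rfl⟩
  have hθv : ∀ v, θ v = -β * (e v).1 + α * (e v).2 := by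
    intro v
    rw [hθ]
    rfl
  have hinj : ∀ u v, ψ u = ψ v → θ u = θ v → u = v := by
    intro u v h1 h0
    rw [hθv, hθv] at h0
    rw [hψv, hψv] at h1
    apply e.injective
    have k1 : (α ^ 2 + β ^ 2) * ((e u).1 - (e v).1) = 0 := by linear_combination α * h1 - β * h0
    have k2 : (α ^ 2 + β ^ 2) * ((e u).2 - (e v).2) = 0 := by linear_combination β * h1 + α * h0
    exact Prod.ext (sub_eq_zero.1 ((mul_eq_zero.1 k1).resolve_left hpos))
      (sub_eq_zero.1 ((mul_eq_zero.1 k2).resolve_left hpos))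
  obtain ⟨a, ha, hmin⟩ := hL.exists_isMinOn hn θ.continuous.continuousOn
  obtain ⟨c, hc', hmax⟩ := hL.exists_isMaxOn hn θ.continuous.continuousOn
  have hpt : ∀ v, ψ v = ψ a → θ a ≤ θ v → θ v ≤ θ c → v ∈ L := by
    intro v h1 h3 h4
    rcases (h3.trans h4).eq_or_lt with h | h
    · have : v = a := hinj v a h1 (le_antisymm (by rw [h]; exact h4) h3)
      rw [this]
      exact ha
    · have h5 : 0 < θ c - θ a := by linarith
      have h6 : ((θ c - θ v) / (θ c - θ a)) • a + ((θ v - θ a) / (θ c - θ a)) • c ∈ L :=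
        hc ha hc' (div_nonneg (by linarith) h5.le) (div_nonneg (by linarith) h5.le)
          (by rw [← add_div]; exact (div_eq_one_iff_eq h5.ne').2 (by ring))
      have h7 : v = ((θ c - θ v) / (θ c - θ a)) • a + ((θ v - θ a) / (θ c - θ a)) • c := by
        refine hinj _ _ ?_ ?_
        · rw [map_add, map_smul, map_smul, hcst c hc' a ha, ← add_smul, ← add_div,
            (div_eq_one_iff_eq h5.ne').2 (by ring), one_smul]
          exact h1
        · rw [map_add, map_smul, map_smul, smul_eq_mul, smul_eq_mul, div_mul_eq_mul_div, div_mul_eq_mul_div,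
            ← add_div, eq_div_iff h5.ne']
          ring
      rw [h7]
      exact h6
  refine ⟨![b - a, b - c, b - a], ?_⟩
  rintro x ⟨l, hl, m, hm, h1⟩
  have k1 : ψ l = ψ m := hcst l hl m hm
  have k2 : θ a ≤ θ l := hmin hl
  have k3 : θ a ≤ θ m := hmin hm
  have k4 : θ l ≤ θ c := hmax hl
  have k5 : θ m ≤ θ c := hmax hm
  rcases le_total (θ m) (θ l) with h | h
  · refine ⟨0, hpt _ ?_ ?_ ?_⟩
    · show ψ (x - (b - a)) = ψ a
      rw [show x - (b - a) = (x - b) + a by abel, h1, map_add, map_sub, k1]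
      ring
    · show θ a ≤ θ (x - (b - a))
      rw [show x - (b - a) = (x - b) + a by abel, h1, map_add, map_sub]
      linarith
    · show θ (x - (b - a)) ≤ θ c
      rw [show x - (b - a) = (x - b) + a by abel, h1, map_add, map_sub]
      linarith
  · refine ⟨1, hpt _ ?_ ?_ ?_⟩
    · show ψ (x - (b - c)) = ψ a
      rw [show x - (b - c) = (x - b) + c by abel, h1, map_add, map_sub, k1, hcst c hc' a ha]
      ring
    · show θ a ≤ θ (x - (b - c))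
      rw [show x - (b - c) = (x - b) + c by abel, h1, map_add, map_sub]
      linarith
    · show θ (x - (b - c)) ≤ θ c
      rw [show x - (b - c) = (x - b) + c by abel, h1, map_add, map_sub]
      linarith

/-- The contact points. -/
theorem MD_contact {L X : Set E} (hL : IsCompact L) {ν : ℝ} (hν : 0 < 1 + ν) {x : E}
    (hx : ∀ a ∈ X, a - x ∈ Hd L ν) {φ : Fin 3 → StrongDual ℝ E} {r : Fin 3 → E} (hr : ∀ k, r k ∈ X)
    (h3 : φ 0 + φ 1 + φ 2 = 0) (hsum : (1 + ν) * ∑ k, sL L (φ k) ≤ ∑ k, φ k (r k)) :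
    ∃ P : Fin 3 → E, (∀ k, P k ∈ L) ∧ (∀ k, r k = x + (1 + ν) • P k) ∧ ∀ k, φ k (P k) = sL L (φ k) := by
  choose P hP hP' using fun k => hx (r k) (hr k)
  have h1 : ∀ k, r k = x + (1 + ν) • P k := by
    intro k
    rw [← hP' k]
    abel
  refine ⟨P, hP, h1, ?_⟩
  have h2 : ∀ k, φ k (P k) ≤ sL L (φ k) := fun k => sL_le hL _ (hP k)
  have h4 : φ 0 x + φ 1 x + φ 2 x = 0 := by
    have := congrArg (fun f : StrongDual ℝ E => f x) h3
    simpa using this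
  have h5 : ∑ k, φ k (r k) = (1 + ν) * ∑ k, φ k (P k) := by
    rw [Fin.sum_univ_three, Fin.sum_univ_three, h1 0, h1 1, h1 2]
    simp only [map_add, map_smul, smul_eq_mul]
    linear_combination h4
  rw [h5] at hsum
  have h6 : ∑ k, sL L (φ k) ≤ ∑ k, φ k (P k) := le_of_mul_le_mul_left hsum hν
  rw [Fin.sum_univ_three, Fin.sum_univ_three] at h6
  have k0 := h2 0
  have k1 := h2 1
  have k2 := h2 2
  intro k
  fin_cases k
  · show φ 0 (P 0) = sL L (φ 0)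
    linarith
  · show φ 1 (P 1) = sL L (φ 1)
    linarith
  · show φ 2 (P 2) = sL L (φ 2)
    linarith

/-- The bound `ν ≤ 2`. -/
theorem MD_bound {L : Set E} (hL : IsCompact L) (hn : L.Nonempty)
    (hnd : ∀ ψ : StrongDual ℝ E, ψ ≠ 0 → 0 < sL L ψ + sL L (-ψ)) {ν : ℝ}
    {φ : Fin 3 → StrongDual ℝ E} (hφ : φ ≠ 0) {r : Fin 3 → E} (h3 : φ 0 + φ 1 + φ 2 = 0)
    (hsum : (1 + ν) * ∑ k, sL L (φ k) ≤ ∑ k, φ k (r k)) (b : E) (hb : ∀ k, ∃ l ∈ L, ∃ m ∈ L, r k - b = l - m) :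
    ν ≤ 2 := by
  have hv : ∀ v, φ 0 v + φ 1 v + φ 2 v = 0 := by
    intro v
    have := congrArg (fun f : StrongDual ℝ E => f v) h3
    simpa using this
  have h1 : ∀ k, φ k (r k) - φ k b ≤ sL L (φ k) + sL L (-φ k) := by
    intro k
    obtain ⟨l, hl, m, hm, h⟩ := hb k
    have k1 := sL_le hL (φ k) hl
    have k2 := sL_le hL (-φ k) hm
    have e1 : (-φ k) m = -(φ k m) := rfl
    rw [e1] at k2
    rw [← map_sub, h, map_sub]
    linarith
  have h2 : ∀ k, sL L (-φ k) ≤ ∑ l, sL L (φ l) - sL L (φ k) := by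
    intro k
    obtain ⟨l, hl, h⟩ := sL_attained hL hn (-φ k)
    have e1 : (-φ k) l = -(φ k l) := rfl
    have k0 := sL_le hL (φ 0) hl
    have k1 := sL_le hL (φ 1) hl
    have k2 := sL_le hL (φ 2) hl
    have k3 := hv l
    rw [h, e1, Fin.sum_univ_three]
    fin_cases k
    · show -(φ 0 l) ≤ sL L (φ 0) + sL L (φ 1) + sL L (φ 2) - sL L (φ 0)
      linarith
    · show -(φ 1 l) ≤ sL L (φ 0) + sL L (φ 1) + sL L (φ 2) - sL L (φ 1)
      linarith
    · show -(φ 2 l) ≤ sL L (φ 0) + sL L (φ 1) + sL L (φ 2) - sL L (φ 2)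
      linarith
  obtain ⟨S, hS⟩ : ∃ S, S = ∑ l, sL L (φ l) := ⟨_, rfl⟩
  rw [← hS] at h2 hsum
  have h4 : 0 < S := by
    obtain ⟨k, hk⟩ : ∃ k, φ k ≠ 0 := by
      by_contra hcon
      push Not at hcon
      exact hφ (funext hcon)
    have := hnd _ hk
    have := h2 k
    linarith
  have h5 : (1 + ν) * S ≤ 3 * S := by
    rw [Fin.sum_univ_three] at hsum hS
    have k0 := h1 0
    have k1 := h1 1
    have k2 := h1 2
    have k3 := h2 0
    have k4 := h2 1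
    have k5 := h2 2
    have k6 := hv b
    linarith
  have h6 := le_of_mul_le_mul_right h5 h4
  linarith

/-- A point near all three contact points. -/
theorem MD_near {L : Set E} (hn : L.Nonempty) {ι : Type*} {V : ι → Set E} (hVn : ∀ i, (V i).Nonempty)
    {i0 j0 : ι} (hij : i0 ≠ j0)
    (hD : ∀ i j, i ≠ j → ∀ a ∈ V i, ∀ b ∈ V j, ∃ l ∈ L, ∃ m ∈ L, a - b = l - m) (o : Fin 3 → ι) (r : Fin 3 → E)
    (hr : ∀ k, r k ∈ V (o k)) : ∃ b, ∀ k, ∃ l ∈ L, ∃ m ∈ L, r k - b = l - m := by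
  obtain ⟨l0, hl0⟩ := hn
  have hself : ∀ k, ∃ l ∈ L, ∃ m ∈ L, r k - r k = l - m := fun k => ⟨l0, hl0, l0, hl0, by rw [sub_self, sub_self]⟩
  by_cases h01 : o 0 = o 1
  · by_cases h02 : o 0 = o 2
    · obtain ⟨i, hi⟩ : ∃ i, i ≠ o 0 := by
        by_cases h : i0 = o 0
        · exact ⟨j0, fun h' => hij (h.trans h'.symm)⟩
        · exact ⟨i0, h⟩
      obtain ⟨b, hb⟩ := hVn i
      refine ⟨b, fun k => hD (o k) i ?_ _ (hr k) b hb⟩
      fin_cases k
      · exact hi.symm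
      · show o 1 ≠ i
        rw [← h01]
        exact hi.symm
      · show o 2 ≠ i
        rw [← h02]
        exact hi.symm
    · refine ⟨r 2, fun k => ?_⟩
      fin_cases k
      · exact hD _ _ h02 _ (hr 0) _ (hr 2)
      · exact hD _ _ (by rw [← h01]; exact h02) _ (hr 1) _ (hr 2)
      · exact hself 2
  · by_cases h02 : o 0 = o 2
    · refine ⟨r 1, fun k => ?_⟩
      fin_cases k
      · exact hD _ _ h01 _ (hr 0) _ (hr 1)
      · exact hself 1
      · exact hD _ _ (by rw [← h02]; exact h01) _ (hr 2) _ (hr 1)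
    · refine ⟨r 0, fun k => ?_⟩
      fin_cases k
      · exact hself 0
      · exact hD _ _ (Ne.symm h01) _ (hr 1) _ (hr 0)
      · exact hD _ _ (Ne.symm h02) _ (hr 2) _ (hr 0)

/-- The triple case. -/
theorem MD_triple (hM : MMd) {L : Set E} (hL : IsCompact L) (hc : Convex ℝ L)
    (hnd : ∀ ψ : StrongDual ℝ E, ψ ≠ 0 → 0 < sL L ψ + sL L (-ψ)) {ν : ℝ} (hν : 0 < ν) (hν2 : ν ≤ 2)
    (e : E ≃L[ℝ] ℝ × ℝ) (y : Fin 3 → StrongDual ℝ E) (hy : y 0 + y 1 + y 2 = 0)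
    (hd : y 0 (e.symm (1, 0)) * y 1 (e.symm (0, 1)) - y 1 (e.symm (1, 0)) * y 0 (e.symm (0, 1)) ≠ 0)
    {ι : Type*} {V : ι → Set E} (hX : IsCompact (⋃ i, V i))
    (hD : ∀ i j, i ≠ j → ∀ a ∈ V i, ∀ b ∈ V j, ∃ l ∈ L, ∃ m ∈ L, a - b = l - m) {x : E}
    (hx : ∀ a ∈ ⋃ i, V i, a - x ∈ Hd L ν) (o : Fin 3 → ι) (P : Fin 3 → E) (hP : ∀ k, P k ∈ L)
    (hPo : ∀ k, x + (1 + ν) • P k ∈ V (o k)) (hPy : ∀ k, y k (P k) = sL L (y k)) :
    ∃ m, Cov L {z | ∃ i, i ≠ m ∧ z ∈ V i} := by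
  have hn : L.Nonempty := ⟨P 0, hP 0⟩
  have hyv : ∀ v, y 0 v + y 1 v + y 2 v = 0 := by
    intro v
    have := congrArg (fun f : StrongDual ℝ E => f v) hy
    simpa using this
  obtain ⟨α, hα⟩ : ∃ α : Fin 3 → ℝ, α = fun k => y k (e.symm (1, 0)) := ⟨_, rfl⟩
  obtain ⟨β, hβ⟩ : ∃ β : Fin 3 → ℝ, β = fun k => y k (e.symm (0, 1)) := ⟨_, rfl⟩
  have hco : ∀ k v, y k v = α k * (e v).1 + β k * (e v).2 := by
    intro k v
    rw [hα, hβ]
    exact Red_coord e (y k) v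
  have hd' : α 0 * β 1 - α 1 * β 0 ≠ 0 := by
    rw [hα, hβ]
    exact hd
  have hα3 : α 0 + α 1 + α 2 = 0 := by
    rw [hα]
    exact hyv _
  have hβ3 : β 0 + β 1 + β 2 = 0 := by
    rw [hβ]
    exact hyv _
  have hy0 : ∀ k, y k ≠ 0 := by
    intro k hk
    have h1 : α k = 0 := by
      rw [hα]
      show y k (e.symm (1, 0)) = 0
      rw [hk]
      rfl
    have h2 : β k = 0 := by
      rw [hβ]
      show y k (e.symm (0, 1)) = 0
      rw [hk]
      rfl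
    apply hd'
    fin_cases k
    · have h1' : α 0 = 0 := h1
      have h2' : β 0 = 0 := h2
      rw [h1', h2']
      ring
    · have h1' : α 1 = 0 := h1
      have h2' : β 1 = 0 := h2
      rw [h1', h2']
      ring
    · have h1' : α 2 = 0 := h1
      have h2' : β 2 = 0 := h2
      have e1 : α 0 = -α 1 := by linarith
      have e2 : β 0 = -β 1 := by linarith
      rw [e1, e2]
      ring
  obtain ⟨Λ, hΛ⟩ : ∃ Λ : E →L[ℝ] (Fin 3 → ℝ), Λ = ContinuousLinearMap.pi y := ⟨_, rfl⟩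
  have hΛk : ∀ v k, Λ v k = y k v := by
    intro v k
    rw [hΛ]
    rfl
  have hinj : Function.Injective Λ := by
    intro u v huv
    have h0 : y 0 u = y 0 v := by rw [← hΛk, ← hΛk, huv]
    have h1 : y 1 u = y 1 v := by rw [← hΛk, ← hΛk, huv]
    rw [hco, hco] at h0 h1
    apply e.injective
    have k1 : (α 0 * β 1 - α 1 * β 0) * ((e u).1 - (e v).1) = 0 := by linear_combination β 1 * h0 - β 0 * h1
    have k2 : (α 0 * β 1 - α 1 * β 0) * ((e u).2 - (e v).2) = 0 := by linear_combination α 0 * h1 - α 1 * h0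
    have k3 := (mul_eq_zero.1 k1).resolve_left hd'
    have k4 := (mul_eq_zero.1 k2).resolve_left hd'
    exact Prod.ext (sub_eq_zero.1 k3) (sub_eq_zero.1 k4)
  obtain ⟨p, hp⟩ : ∃ p : Fin 3 → ℝ, p = fun k => sL L (y k) := ⟨_, rfl⟩
  obtain ⟨q, hq⟩ : ∃ q : Fin 3 → ℝ, q = fun k => sL L (-y k) := ⟨_, rfl⟩
  have hb : ∀ l ∈ L, ∀ k, -q k ≤ y k l ∧ y k l ≤ p k := by
    intro l hl k
    rw [hp, hq]
    refine ⟨?_, sL_le hL _ hl⟩
    have := sL_le hL (-y k) hl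
    have e1 : (-y k) l = -(y k l) := rfl
    rw [e1] at this
    show -sL L (-y k) ≤ y k l
    linarith
  have hw : ∀ k, 0 < p k + q k := by
    intro k
    rw [hp, hq]
    exact hnd _ (hy0 k)
  have hPp : ∀ k, y k (P k) = p k := by
    intro k
    rw [hp]
    exact hPy k
  have hm : 0 < 1 + ν := by linarith
  obtain ⟨κ, hκ⟩ : ∃ κ : ℝ, κ = ν / (1 + ν) := ⟨_, rfl⟩
  have hκ1 : κ * (1 + ν) = ν := by rw [hκ, div_mul_cancel₀ _ hm.ne']
  have hκ0 : 0 < κ := by rw [hκ]; positivity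
  have hκ2 : κ ≤ 2 / 3 := by
    rw [hκ, div_le_iff₀ hm]
    linarith
  have hκ3 : (1 + ν) * (1 - κ) = 1 := by linarith
  have hκ4 : 0 ≤ 1 - κ := by linarith
  -- points of the union
  have hXL : ∀ a ∈ ⋃ i, V i, ∃ l ∈ L, a = x + (1 + ν) • l := by
    intro a ha
    obtain ⟨l, hl, h1⟩ := hx a ha
    exact ⟨l, hl, by rw [← h1]; abel⟩
  have hdiff : ∀ i i', i ≠ i' → ∀ l l' : E, x + (1 + ν) • l ∈ V i → x + (1 + ν) • l' ∈ V i' →
      ∃ a ∈ L, ∃ b ∈ L, l - l' = (1 - κ) • (a - b) := by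
    intro i i' hii l l' hl hl'
    obtain ⟨a, ha, b, hb, h1⟩ := hD i i' hii _ hl _ hl'
    refine ⟨a, ha, b, hb, ?_⟩
    rw [← h1, show x + (1 + ν) • l - (x + (1 + ν) • l') = (1 + ν) • (l - l') by module, smul_smul, mul_comm,
      hκ3, one_smul]
  have hwid : ∀ k, ∀ a ∈ L, ∀ b ∈ L, y k a - y k b ≤ p k + q k := by
    intro k a ha b hb'
    have h1 := (hb a ha k).2
    have h2 := (hb b hb' k).1
    linarith
  have hlow : ∀ i k, i ≠ o k → ∀ l : E, x + (1 + ν) • l ∈ V i → -q k + κ * (p k + q k) ≤ y k l := by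
    intro i k hik l hl
    obtain ⟨a, ha, b, hb', h1⟩ := hdiff i (o k) hik l (P k) hl (hPo k)
    have h2 : y k l - y k (P k) = (1 - κ) * (y k a - y k b) := by
      rw [← map_sub, h1, map_smul, map_sub, smul_eq_mul]
    have h3 := mul_le_mul_of_nonneg_left (hwid k b hb' a ha) hκ4
    have h4 := hPp k
    have h5 : (1 - κ) * (y k a - y k b) = -((1 - κ) * (y k b - y k a)) := by ring
    linarith
  have hXn : (⋃ i, V i).Nonempty := ⟨_, mem_iUnion.2 ⟨_, hPo 0⟩⟩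
  have hmins : ∀ k, ∃ l ∈ L, x + (1 + ν) • l ∈ (⋃ i, V i) ∧ ∀ l' : E, x + (1 + ν) • l' ∈ (⋃ i, V i) → y k l ≤ y k l' := by
    intro k
    obtain ⟨a, ha, hmin⟩ := hX.exists_isMinOn hXn (y k).continuous.continuousOn
    obtain ⟨l, hl, h1⟩ := hXL a ha
    refine ⟨l, hl, by rw [← h1]; exact ha, fun l' hl' => ?_⟩
    have h2 : y k a ≤ y k (x + (1 + ν) • l') := hmin hl'
    rw [h1, map_add, map_smul, map_add, map_smul, smul_eq_mul, smul_eq_mul] at h2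
    exact le_of_mul_le_mul_left (by linarith) hm
  choose zm hzL hzX hzm using hmins
  obtain ⟨s, hs⟩ : ∃ s : Fin 3 → ℝ, s = fun k => min (κ * (p k + q k)) (y k (zm k) + q k) := ⟨_, rfl⟩
  have hs1 : ∀ k, s k ≤ κ * (p k + q k) := by
    intro k
    rw [hs]
    exact min_le_left _ _
  have hs2 : ∀ k, s k ≤ y k (zm k) + q k := by
    intro k
    rw [hs]
    exact min_le_right _ _
  have hs3 : ∀ k, s k < κ * (p k + q k) → s k = y k (zm k) + q k := by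
    intro k hk
    rw [hs] at hk ⊢
    have hk' : min (κ * (p k + q k)) (y k (zm k) + q k) < κ * (p k + q k) := hk
    show min (κ * (p k + q k)) (y k (zm k) + q k) = y k (zm k) + q k
    rcases min_lt_iff.1 hk' with h | h
    · exact absurd h (lt_irrefl _)
    · exact min_eq_right h.le
  have hs0 : ∀ k, 0 ≤ s k := by
    intro k
    rw [hs]
    refine le_min (mul_nonneg hκ0.le (hw k).le) ?_
    have := (hb _ (hzL k) k).1
    linarith
  have hVX : ∀ i, ∀ l : E, x + (1 + ν) • l ∈ V i → ∀ k, -q k + s k ≤ y k l := by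
    intro i l hl k
    have h1 := hzm k l (mem_iUnion.2 ⟨i, hl⟩)
    have h2 := hs2 k
    linarith
  have hzo : ∀ k, s k < κ * (p k + q k) → x + (1 + ν) • zm k ∈ V (o k) := by
    intro k h
    have h2 := hs3 k h
    obtain ⟨i', hi'⟩ := mem_iUnion.1 (hzX k)
    have hio : i' = o k := by
      by_contra hne
      have := hlow i' k hne (zm k) hi'
      linarith
    rw [← hio]
    exact hi'
  have himg : ∀ u v : E, ∀ c : ℝ, (∃ a ∈ L, ∃ b ∈ L, u - v = c • (a - b)) →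
      ∃ a ∈ Λ '' L, ∃ b ∈ Λ '' L, Λ u - Λ v = c • (a - b) := by
    rintro u v c ⟨a, ha, b, hb', h1⟩
    refine ⟨Λ a, mem_image_of_mem _ ha, Λ b, mem_image_of_mem _ hb', ?_⟩
    rw [← map_sub, h1, map_smul, map_sub]
  have himg2 : ∀ u v : E, ∀ c : ℝ, (∃ a ∈ L, ∃ b ∈ L, u - v = c • (a - b)) →
      ∃ a ∈ Λ '' L, ∃ b ∈ Λ '' L, Λ u = Λ v + c • (a - b) := by
    intro u v c h
    obtain ⟨a, ha, b, hb', h1⟩ := himg u v c h
    exact ⟨a, ha, b, hb', by rw [← h1]; abel⟩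
  obtain ⟨j, T', hT'⟩ := hM (Λ '' L) (hL.image Λ.continuous) (hc.linear_image Λ.toLinearMap)
    (by
      rintro _ ⟨l, -, rfl⟩
      rw [hΛk, hΛk, hΛk]
      exact hyv l) κ hκ0 hκ2 p q s (fun k => Λ (P k)) (fun k => Λ (zm k))
    (by
      rintro _ ⟨l, hl, rfl⟩ k
      rw [hΛk]
      exact hb l hl k)
    (by
      intro k
      obtain ⟨l, hl, h1⟩ := sL_attained hL hn (-y k)
      refine ⟨Λ l, mem_image_of_mem _ hl, ?_⟩
      have e1 : (-y k) l = -(y k l) := rfl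
      rw [e1] at h1
      rw [hΛk, hq]
      show y k l = -sL L (-y k)
      linarith)
    (fun k => ⟨mem_image_of_mem _ (hP k), by rw [hΛk]; exact hPp k⟩) hw (fun k => ⟨hs0 k, hs1 k⟩)
    (fun i k => by
      rw [hΛk]
      exact hVX _ _ (hPo i) k)
    (fun k hk => by
      refine ⟨mem_image_of_mem _ (hzL k), ?_, fun l => ?_⟩
      · have h2 := hs3 k hk
        rw [hΛk]
        linarith
      · rw [hΛk]
        exact hVX _ _ (hzo k hk) l)
    (fun i k => o i = o k) ⟨fun _ => rfl, fun h => h.symm, fun h h' => h.trans h'⟩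
    (fun i k hik => ⟨himg _ _ _ (hdiff (o i) (o k) hik _ _ (hPo i) (hPo k)), fun hk =>
      ⟨himg _ _ _ (hdiff (o i) (o k) hik _ _ (hPo i) (hzo k hk)), fun hi =>
        himg _ _ _ (hdiff (o i) (o k) hik _ _ (hzo i hi) (hzo k hk))⟩⟩)
  refine ⟨o j, ?_⟩
  classical
  obtain ⟨T, hT⟩ : ∃ T : Fin 3 → Fin 3 → ℝ, T = fun i => if (∃ v, Λ v = T' i) then T' i else 0 := ⟨_, rfl⟩
  refine Red_pullH Λ hinj hm hκ3 x T (fun i => ?_) (fun l hl ha => ?_) (fun a ha => ?_)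
  · by_cases h : ∃ v, Λ v = T' i
    · rw [hT]
      simp only [if_pos h]
      exact h
    · rw [hT]
      simp only [if_neg h]
      exact ⟨0, map_zero _⟩
  · obtain ⟨i, hi, ha'⟩ := ha
    have hreg : ∀ k, i ≠ o k → InS (Λ '' L) κ p q s (fun k => Λ (P k)) (fun k => Λ (zm k)) k (Λ l) := by
      intro k hik
      have hl1 := hlow i k hik l ha'
      refine ⟨?_, ?_, fun k' => ?_, ?_, fun hk => ?_⟩
      · rw [hΛk]
        exact hl1
      · rw [hΛk]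
        rcases (hs1 k).eq_or_lt with h | h
        · rw [h]
          have := (hb l hl k).2
          linarith
        · have h2 := hs3 k h
          obtain ⟨a, ha, b, hb', h3⟩ := hdiff i (o k) hik l (zm k) ha' (hzo k h)
          have h4 : y k l - y k (zm k) = (1 - κ) * (y k a - y k b) := by
            rw [← map_sub, h3, map_smul, map_sub, smul_eq_mul]
          have h5 := mul_le_mul_of_nonneg_left (hwid k a ha b hb') hκ4
          linarith
      · rw [hΛk]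
        exact hVX i l ha' k'
      · exact himg2 _ _ _ (hdiff i (o k) hik l (P k) ha' (hPo k))
      · exact himg2 _ _ _ (hdiff i (o k) hik l (zm k) ha' (hzo k hk))
    obtain ⟨t, z, ⟨m, hm', rfl⟩, h1⟩ := hT' (Λ l) (mem_image_of_mem _ hl) (by
      by_cases hex : ∃ m, o m = i
      · obtain ⟨m, hm'⟩ := hex
        refine Or.inr ⟨m, ?_, fun k hk => hreg k ?_⟩
        · show ¬ o j = o m
          rw [hm']
          exact fun h => hi h.symm
        · have hk' : ¬ o m = o k := hk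
          rwa [hm'] at hk'
      · exact Or.inl fun k => hreg k fun h => hex ⟨k, h.symm⟩)
    refine ⟨t, m, hm', ?_⟩
    have h2 : ∃ v, Λ v = T' t := by
      refine ⟨l - (1 - κ) • m, ?_⟩
      rw [map_sub, map_smul, h1]
      abel
    rw [hT]
    simp only [if_pos h2]
    exact h1
  · obtain ⟨i, hi, ha'⟩ := ha
    exact hx a (mem_iUnion.2 ⟨i, ha'⟩)

/-- The pair case. -/
theorem MD_pair (hPE : PairEq) {L : Set E} (hL : IsCompact L) (hc : Convex ℝ L)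
    (hnd : ∀ ψ : StrongDual ℝ E, ψ ≠ 0 → 0 < sL L ψ + sL L (-ψ)) {ν : ℝ} (hν : 0 < ν)
    (e : E ≃L[ℝ] ℝ × ℝ) (y : Fin 3 → StrongDual ℝ E) (hy : y 0 + y 1 + y 2 = 0) (hy0 : y ≠ 0)
    (hd : y 0 (e.symm (1, 0)) * y 1 (e.symm (0, 1)) - y 1 (e.symm (1, 0)) * y 0 (e.symm (0, 1)) = 0)
    {ι : Type*} {V : ι → Set E}
    (hD : ∀ i j, i ≠ j → ∀ a ∈ V i, ∀ b ∈ V j, ∃ l ∈ L, ∃ m ∈ L, a - b = l - m) {x : E}
    (hx : ∀ a ∈ ⋃ i, V i, a - x ∈ Hd L ν) (o : Fin 3 → ι) (P : Fin 3 → E) (hP : ∀ k, P k ∈ L)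
    (hPo : ∀ k, x + (1 + ν) • P k ∈ V (o k)) (hPy : ∀ k, y k (P k) = sL L (y k)) :
    ∃ m, Cov L {z | ∃ i, i ≠ m ∧ z ∈ V i} := by
  have hn : L.Nonempty := ⟨P 0, hP 0⟩
  obtain ⟨ψ, s, hψ, hys, hs3, ⟨i, hi⟩, Λ, hΛ, hinj, hsur⟩ := Red_lin2 e y hy hy0 hd
  obtain ⟨p, hp⟩ : ∃ p, p = sL L ψ := ⟨_, rfl⟩
  obtain ⟨q, hq⟩ : ∃ q, q = sL L (-ψ) := ⟨_, rfl⟩
  have hw : 0 < p + q := by
    rw [hp, hq]
    exact hnd ψ hψ
  have hb : ∀ l ∈ L, -q ≤ ψ l ∧ ψ l ≤ p := by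
    intro l hl
    refine ⟨?_, by rw [hp]; exact sL_le hL _ hl⟩
    have := sL_le hL (-ψ) hl
    have e1 : (-ψ) l = -(ψ l) := rfl
    rw [e1, ← hq] at this
    linarith
  have hpos : ∀ k, 0 < s k → ψ (P k) = p := by
    intro k hk
    have h1 := hPy k
    rw [hys k, sL_smul hL hn hk.le, ← hp] at h1
    have h2 : s k * ψ (P k) = s k * p := h1
    exact mul_left_cancel₀ hk.ne' h2
  have hneg : ∀ k, s k < 0 → ψ (P k) = -q := by
    intro k hk
    have h1 := hPy k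
    have e1 : y k = (-s k) • (-ψ) := by
      rw [hys k, smul_neg, neg_smul, neg_neg]
    rw [e1, sL_smul hL hn (by linarith : 0 ≤ -s k), ← hq] at h1
    have h2 : (-s k) * (-(ψ (P k))) = (-s k) * q := h1
    have h3 := mul_left_cancel₀ (by linarith : -s k ≠ 0) h2
    linarith
  obtain ⟨j, hj⟩ : ∃ j, s j < 0 := by
    by_contra hcon
    push Not at hcon
    have k0 := hcon 0
    have k1 := hcon 1
    have k2 := hcon 2
    fin_cases i
    · have : s 0 = 1 := hi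
      linarith
    · have : s 1 = 1 := hi
      linarith
    · have : s 2 = 1 := hi
      linarith
  have htop := hpos i (by rw [hi]; norm_num)
  have hbot := hneg j hj
  have hm : 0 < 1 + ν := by linarith
  have hwid : ∀ l ∈ L, ∀ m ∈ L, ψ l - ψ m ≤ p + q := by
    intro l hl m hm
    have := (hb l hl).2
    have := (hb m hm).1
    linarith
  have hij : o i = o j := by
    by_contra hne
    obtain ⟨a, ha, b, hb', h1⟩ := hD _ _ hne _ (hPo i) _ (hPo j)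
    have h2 := hwid a ha b hb'
    have h3 : (1 + ν) * (ψ (P i) - ψ (P j)) = ψ a - ψ b := by
      rw [← map_sub, ← map_sub, ← h1, show x + (1 + ν) • P i - (x + (1 + ν) • P j) = (1 + ν) • (P i - P j) by module,
        map_smul, smul_eq_mul]
    rw [htop, hbot] at h3
    have : 0 < ν * (p + q) := mul_pos hν hw
    linarith
  obtain ⟨κ, hκ⟩ : ∃ κ : ℝ, κ = ν / (1 + ν) := ⟨_, rfl⟩
  have hκ1 : κ * (1 + ν) = ν := by rw [hκ, div_mul_cancel₀ _ hm.ne']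
  have hκ0 : 0 < κ := by rw [hκ]; positivity
  have hκ3 : (1 + ν) * (1 - κ) = 1 := by linarith
  have hκ4 : 0 ≤ 1 - κ := by
    by_contra hcon
    push Not at hcon
    nlinarith
  have hstrip : ∀ t, t ≠ o i → ∀ l : E, x + (1 + ν) • l ∈ V t →
      -q + κ * (p + q) ≤ ψ l ∧ ψ l ≤ p - κ * (p + q) := by
    intro t ht l hl
    constructor
    · obtain ⟨a, ha, b, hb', h1⟩ := hD _ _ ht _ hl _ (hPo i)
      have h2 := hwid b hb' a ha
      have h3 : (1 + ν) * (ψ l - ψ (P i)) = ψ a - ψ b := by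
        rw [← map_sub, ← map_sub, ← h1, show x + (1 + ν) • l - (x + (1 + ν) • P i) = (1 + ν) • (l - P i) by module,
          map_smul, smul_eq_mul]
      have h4 : ψ l - ψ (P i) = (1 - κ) * (ψ a - ψ b) := by
        rw [← h3]
        linear_combination (-(ψ l - ψ (P i))) * hκ3
      have h5 := mul_le_mul_of_nonneg_left h2 hκ4
      rw [htop] at h4
      have h6 : (1 - κ) * (ψ a - ψ b) = -((1 - κ) * (ψ b - ψ a)) := by ring
      linarith
    · obtain ⟨a, ha, b, hb', h1⟩ := hD _ _ (by rw [← hij]; exact ht) _ hl _ (hPo j)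
      have h2 := hwid a ha b hb'
      have h3 : (1 + ν) * (ψ l - ψ (P j)) = ψ a - ψ b := by
        rw [← map_sub, ← map_sub, ← h1, show x + (1 + ν) • l - (x + (1 + ν) • P j) = (1 + ν) • (l - P j) by module,
          map_smul, smul_eq_mul]
      have h4 : ψ l - ψ (P j) = (1 - κ) * (ψ a - ψ b) := by
        rw [← h3]
        linear_combination (-(ψ l - ψ (P j))) * hκ3
      have h5 := mul_le_mul_of_nonneg_left h2 hκ4
      rw [hbot] at h4
      linarith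
  have hXL : ∀ a ∈ ⋃ i, V i, ∃ l ∈ L, a = x + (1 + ν) • l := by
    intro a ha
    obtain ⟨l, hl, h1⟩ := hx a ha
    exact ⟨l, hl, by rw [← h1]; abel⟩
  rcases le_or_gt κ (1 / 2) with hκ2 | hκ2
  · obtain ⟨T', hT'⟩ := hPE (Λ '' L) (hL.image Λ.continuous) (hc.linear_image Λ.toLinearMap) κ hκ0 hκ2 p q hw
      (by
        rintro _ ⟨l, hl, rfl⟩
        rw [hΛ]
        exact hb l hl)
      ⟨Λ (P i), mem_image_of_mem _ (hP i), by rw [hΛ]; exact htop⟩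
      ⟨Λ (P j), mem_image_of_mem _ (hP j), by rw [hΛ]; exact hbot⟩
    refine ⟨o i, Red_pullH Λ hinj hm hκ3 x T' (fun j => hsur _) (fun l hl ha => ?_) (fun a ha => ?_)⟩
    · obtain ⟨t, ht, ha'⟩ := ha
      have h1 := hstrip t ht l ha'
      obtain ⟨k, z, ⟨m, hm', rfl⟩, h2⟩ := hT' (Λ l) (mem_image_of_mem _ hl) (by rw [hΛ]; exact h1.1)
        (by rw [hΛ]; exact h1.2)
      exact ⟨k, m, hm', h2⟩
    · obtain ⟨t, ht, ha'⟩ := ha
      exact hx a (mem_iUnion.2 ⟨t, ha'⟩)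
  · refine ⟨o i, fun _ => 0, ?_⟩
    rintro a ⟨t, ht, ha⟩
    exfalso
    obtain ⟨l, hl, h1⟩ := hXL a (mem_iUnion.2 ⟨t, ha⟩)
    rw [h1] at ha
    have h2 := hstrip t ht l ha
    have h3 : 0 < (2 * κ - 1) * (p + q) := mul_pos (by linarith) hw
    linarith [h2.1, h2.2]

/-- Finitely many compact families. -/
theorem MD_compact (h2 : Module.finrank ℝ E = 2) (hM : MMd) (hPE : PairEq) {L : Set E} (hL : IsCompact L)
    (hc : Convex ℝ L) (hn : L.Nonempty) {ι : Type*} {V : ι → Set E} (hVn : ∀ i, (V i).Nonempty)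
    {i0 j0 : ι} (hij : i0 ≠ j0) (hX : IsCompact (⋃ i, V i))
    (hD : ∀ i j, i ≠ j → ∀ a ∈ V i, ∀ b ∈ V j, ∃ l ∈ L, ∃ m ∈ L, a - b = l - m) :
    ∃ m, Cov L {z | ∃ i, i ≠ m ∧ z ∈ V i} := by
  by_cases hdeg : ∃ ψ : StrongDual ℝ E, ψ ≠ 0 ∧ ∀ l ∈ L, ∀ m ∈ L, ψ l = ψ m
  · obtain ⟨ψ, hψ, hcst⟩ := hdeg
    -- all the families but one are near a point of that family
    obtain ⟨b, hb⟩ := hVn i0
    obtain ⟨T, hT⟩ := MD_deg h2 hL hc hn hψ hcst b
    refine ⟨i0, T, ?_⟩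
    rintro z ⟨i, hi, hz⟩
    exact hT z (hD i i0 hi z hz b hb)
  · have hnd : ∀ ψ : StrongDual ℝ E, ψ ≠ 0 → 0 < sL L ψ + sL L (-ψ) := by
      intro ψ hψ
      by_contra hcon
      refine hdeg ⟨ψ, hψ, fun l hl m hm => ?_⟩
      have k1 := sL_le hL ψ hl
      have k2 := sL_le hL (-ψ) hl
      have k3 := sL_le hL ψ hm
      have k4 := sL_le hL (-ψ) hm
      have e1 : (-ψ) l = -(ψ l) := rfl
      have e2 : (-ψ) m = -(ψ m) := rfl
      rw [e1] at k2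
      rw [e2] at k4
      linarith
    have hXn : (⋃ i, V i).Nonempty := by
      obtain ⟨b, hb⟩ := hVn i0
      exact ⟨b, mem_iUnion.2 ⟨i0, hb⟩⟩
    obtain ⟨ν, ⟨hν0, -⟩, ⟨x, hx⟩, hmin⟩ := MM_min hL hXn (by norm_num : (0 : ℝ) ≤ 5) (MD_fit h2 hL hc hn hVn hij hD)
    rcases hν0.eq_or_lt with hz | hν
    · refine ⟨i0, fun _ => x, ?_⟩
      rintro z ⟨i, -, hz'⟩
      obtain ⟨l, hl, h1⟩ := hx z (mem_iUnion.2 ⟨i, hz'⟩)
      refine ⟨0, ?_⟩
      show z - x ∈ L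
      rw [h1, ← hz, add_zero, one_smul]
      exact hl
    · obtain ⟨φ, r, hφ, hr, hφ3, hsum⟩ := dualH h2 hL hc hn hX hν hmin
      choose o ho using fun k => mem_iUnion.1 (hr k)
      obtain ⟨b, hb⟩ := MD_near hn hVn hij hD o r ho
      have hν2 := MD_bound hL hn hnd hφ hφ3 hsum b hb
      obtain ⟨P, hP, hrP, hPy⟩ := MD_contact hL (by linarith : 0 < 1 + ν) hx hr hφ3 hsum
      have e : E ≃L[ℝ] ℝ × ℝ := ContinuousLinearEquiv.ofFinrankEq (by simp [h2])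
      have hPo : ∀ k, x + (1 + ν) • P k ∈ V (o k) := by
        intro k
        rw [← hrP k]
        exact ho k
      by_cases hd : φ 0 (e.symm (1, 0)) * φ 1 (e.symm (0, 1)) - φ 1 (e.symm (1, 0)) * φ 0 (e.symm (0, 1)) = 0
      · exact MD_pair hPE hL hc hnd hν e φ hφ3 hφ hd hD hx o P hP hPo hPy
      · exact MD_triple hM hL hc hnd hν hν2 e φ hφ3 hd hX hD hx o P hP hPo hPy

/-- The frozen statement from the version with owners. -/
theorem S09447_of_MMd (hM : MMd) (hPE : PairEq) :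
    ∀ (n : ℕ), 2 ≤ n →
    ∀ (K : Set (EuclideanSpace ℝ (Fin 2))), IsCompact K → Convex ℝ K →
    ∀ (F : Fin n → Set (EuclideanSpace ℝ (Fin 2))),
      (∀ i, (F i).Nonempty) →
      (∀ i j : Fin n, i ≠ j → ∀ a ∈ F i, ∀ b ∈ F j, ((a +ᵥ K) ∩ (b +ᵥ K)).Nonempty) →
      ∃ m : Fin n, ∃ P : Finset (EuclideanSpace ℝ (Fin 2)), P.card ≤ 3 ∧
        ∀ i : Fin n, i ≠ m → ∀ a ∈ F i, ∃ p ∈ P, p ∈ a +ᵥ K := by
  classical
  intro n hn2 K hK hc F hF h
  have hAR : ∀ i j : Fin n, i ≠ j → ∀ a ∈ F i, ∀ b ∈ F j, ∃ l ∈ -K, ∃ m ∈ -K, a - b = l - m := by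
    intro i j hij a ha b hb
    obtain ⟨z, ⟨k, hk, hk1⟩, ⟨k', hk', hk2⟩⟩ := h i j hij a ha b hb
    refine ⟨-k, by simpa using hk, -k', by simpa using hk', ?_⟩
    have h1 : a + k = z := hk1
    have h2 : b + k' = z := hk2
    have h3 : a = z - k := by rw [← h1]; abel
    have h4 : b = z - k' := by rw [← h2]; abel
    rw [h3, h4]
    abel
  obtain ⟨i0, hi0⟩ : ∃ i0 : Fin n, i0 = ⟨0, by omega⟩ := ⟨_, rfl⟩
  obtain ⟨j0, hj0⟩ : ∃ j0 : Fin n, j0 = ⟨1, by omega⟩ := ⟨_, rfl⟩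
  have hij : i0 ≠ j0 := by
    rw [hi0, hj0]
    intro h
    have := congrArg Fin.val h
    simp at this
  have hn : (-K).Nonempty := by
    obtain ⟨a, ha⟩ := hF i0
    obtain ⟨b, hb⟩ := hF j0
    obtain ⟨l, hl, -⟩ := hAR i0 j0 hij a ha b hb
    exact ⟨l, hl⟩
  have hKk : IsCompact (-K) := hK.neg
  -- the set of differences
  obtain ⟨D, hD⟩ : ∃ D : Set (EuclideanSpace ℝ (Fin 2)), D = {v | ∃ l ∈ -K, ∃ m ∈ -K, v = l - m} := ⟨_, rfl⟩
  have hDk : IsCompact D := by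
    have h1 : D = (fun z : EuclideanSpace ℝ (Fin 2) × EuclideanSpace ℝ (Fin 2) => z.1 - z.2) '' ((-K) ×ˢ (-K)) := by
      rw [hD]
      ext v
      constructor
      · rintro ⟨l, hl, m, hm, rfl⟩
        exact ⟨(l, m), ⟨hl, hm⟩, rfl⟩
      · rintro ⟨⟨l, m⟩, ⟨hl, hm⟩, rfl⟩
        exact ⟨l, hl, m, hm, rfl⟩
    rw [h1]
    exact (hKk.prod hKk).image (by fun_prop)
  have hcl : ∀ i j : Fin n, i ≠ j → ∀ a ∈ closure (F i), ∀ b ∈ closure (F j),
      ∃ l ∈ -K, ∃ m ∈ -K, a - b = l - m := by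
    intro i j hij a ha b hb
    have h1 : IsClosed {z : EuclideanSpace ℝ (Fin 2) × EuclideanSpace ℝ (Fin 2) | z.1 - z.2 ∈ D} :=
      hDk.isClosed.preimage (by fun_prop)
    have h3 : (F i) ×ˢ (F j) ⊆ {z : EuclideanSpace ℝ (Fin 2) × EuclideanSpace ℝ (Fin 2) | z.1 - z.2 ∈ D} := by
      rintro ⟨u, v⟩ ⟨hu, hv⟩
      show u - v ∈ D
      rw [hD]
      exact hAR i j hij u hu v hv
    have h4 := closure_minimal h3 h1
    rw [closure_prod_eq] at h4
    have h5 : (a, b) ∈ {z : EuclideanSpace ℝ (Fin 2) × EuclideanSpace ℝ (Fin 2) | z.1 - z.2 ∈ D} := h4 ⟨ha, hb⟩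
    have h6 : a - b ∈ D := h5
    rw [hD] at h6
    exact h6
  have hclk : ∀ i : Fin n, IsCompact (closure (F i)) := by
    intro i
    obtain ⟨j, hj⟩ : ∃ j : Fin n, i ≠ j := by
      by_cases h : i = i0
      · exact ⟨j0, by rw [h]; exact hij⟩
      · exact ⟨i0, h⟩
    obtain ⟨b, hb⟩ := hF j
    have h1 : IsCompact ((fun v => b + v) '' D) := hDk.image (by fun_prop)
    refine h1.closure_of_subset ?_
    intro a ha
    refine ⟨a - b, ?_, by show b + (a - b) = a; abel⟩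
    rw [hD]
    exact hAR i j hj a ha b hb
  have hX : IsCompact (⋃ i, closure (F i)) := isCompact_iUnion hclk
  obtain ⟨m, T, hT⟩ := MD_compact (by simp) hM hPE hKk hc.neg hn (V := fun i => closure (F i))
    (fun i => (hF i).closure) hij hX hcl
  refine ⟨m, Finset.univ.image T, Finset.card_image_le.trans (by simp), fun i hi a ha => ?_⟩
  obtain ⟨j, hj⟩ := hT a ⟨i, hi, subset_closure ha⟩
  refine ⟨T j, Finset.mem_image_of_mem _ (Finset.mem_univ _), ?_⟩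
  rw [Set.mem_neg] at hj
  refine ⟨-(a - T j), hj, ?_⟩
  show a + -(a - T j) = T j
  abel

theorem pairEqD : PairEq := by
  intro L hL hc κ hκ hκ2 p q _ h1 h2 h3
  obtain ⟨v, hv, -⟩ := id h2
  exact Pool.Agent.H90.PP.pairP L hL hc ⟨v, hv⟩ κ hκ (by linarith) p q h1 h2 h3

/-- The frozen statement from the colour-free statement. -/
theorem S09447_of_MMp (hM : MMp) :
    ∀ (n : ℕ), 2 ≤ n →
    ∀ (K : Set (EuclideanSpace ℝ (Fin 2))), IsCompact K → Convex ℝ K →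
    ∀ (F : Fin n → Set (EuclideanSpace ℝ (Fin 2))),
      (∀ i, (F i).Nonempty) →
      (∀ i j : Fin n, i ≠ j → ∀ a ∈ F i, ∀ b ∈ F j, ((a +ᵥ K) ∩ (b +ᵥ K)).Nonempty) →
      ∃ m : Fin n, ∃ P : Finset (EuclideanSpace ℝ (Fin 2)), P.card ≤ 3 ∧
        ∀ i : Fin n, i ≠ m → ∀ a ∈ F i, ∃ p ∈ P, p ∈ a +ᵥ K :=
  S09447_of_MMd (MMd_of_MMp hM) pairEqD

end Pool.Agent.H81.R2
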