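import Pool.Agent.H81.R2.Tripod

/-!
# Sector criterion for three closed convex sets
-/

set_option autoImplicit false

namespace Pool.Agent.H81.R2

/-- The sector criterion. The functionals are triples `c` modulo constants; the functionals which matter for the
set `Y j` are those with `c j` minimal. -/
theorem sector_cover (Y : Fin 3 → Set (Fin 3 → ℝ)) (hYc : ∀ j, IsClosed (Y j)) (hYv : ∀ j, Convex ℝ (Y j))
    (N : Fin 3 → Fin 3 → ℝ) (X : Fin 3 → ℝ) (hX0 : X 0 + X 1 + X 2 = 0)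
    (hN0 : ∀ k, N k 0 + N k 1 + N k 2 = 0)
    (hN : ∀ k j, j ≠ k → N k ∈ Y j) (hX : ∀ j, X ∈ Y j) (hK : ∀ i k, i ≠ k → N i k ≤ X k)
    (z : Fin 3 → ℝ) (hz0 : z 0 + z 1 + z 2 = 0) (hzk : ∀ k, z k ≤ N k k)
    (hout : ∀ (j : Fin 3) (c : Fin 3 → ℝ) (u : ℝ), (∀ k, c j ≤ c k) →
      (∀ v ∈ Y j, c 0 * v 0 + c 1 * v 1 + c 2 * v 2 ≤ u) → c 0 * z 0 + c 1 * z 1 + c 2 * z 2 ≤ u) :
    ∃ j, z ∈ Y j := by
  obtain ⟨d, hd⟩ : ∃ d : Fin 3 → Fin 3 → ℝ, d = fun k => N k - X := ⟨_, rfl⟩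
  have hd0 : ∀ k, d k 0 + d k 1 + d k 2 = 0 := by
    intro k
    have := hN0 k
    rw [hd]
    simp only [Pi.sub_apply]
    linarith
  have hdn : ∀ k i, i ≠ k → d k i ≤ 0 := by
    intro k i hik
    have := hK k i hik.symm
    rw [hd]
    simp only [Pi.sub_apply]
    linarith
  have hdp : ∀ k, 0 ≤ d k k := by
    intro k
    obtain ⟨i, i', h1, h2, -, h4⟩ := others k
    have h5 := h4 (d k)
    have := hd0 k
    have := hdn k i h1
    have := hdn k i' h2
    linarith
  obtain ⟨D, hD⟩ : ∃ D : Fin 3 → Fin 3 → ℝ,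
      D = fun k => if 0 < d k k then d k else fun i => if i = k then 2 else -1 := ⟨_, rfl⟩
  have hD1 : ∀ k, 0 < d k k → D k = d k := by
    intro k hk
    rw [hD]
    simp [hk]
  have hD2 : ∀ k, ¬ 0 < d k k → ∀ i, D k i = if i = k then 2 else -1 := by
    intro k hk i
    rw [hD]
    simp [hk]
  have hDs : ∀ k, D k 0 + D k 1 + D k 2 = 0 := by
    intro k
    by_cases hk : 0 < d k k
    · rw [hD1 k hk]; exact hd0 k
    · obtain ⟨i, i', h1, h2, -, h4⟩ := others k
      rw [h4 (D k), hD2 k hk, hD2 k hk, hD2 k hk, if_neg h1, if_neg h2, if_pos rfl]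
      norm_num
  have hDn : ∀ k i, i ≠ k → D k i ≤ 0 := by
    intro k i hik
    by_cases hk : 0 < d k k
    · rw [hD1 k hk]; exact hdn k i hik
    · rw [hD2 k hk, if_neg hik]; norm_num
  have hDp : ∀ k, 0 < D k k := by
    intro k
    by_cases hk : 0 < d k k
    · rw [hD1 k hk]; exact hk
    · rw [hD2 k hk, if_pos rfl]; norm_num
  obtain ⟨v, hv⟩ : ∃ v : Fin 3 → ℝ, v = z - X := ⟨_, rfl⟩
  have hv0 : v 0 + v 1 + v 2 = 0 := by
    rw [hv]
    simp only [Pi.sub_apply]
    linarith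
  have hvd : ∀ k, v k ≤ d k k := by
    intro k
    have h1 := hzk k
    rw [hv, hd]
    simp only [Pi.sub_apply]
    linarith
  obtain ⟨j, hj⟩ := sector_exists D hDs hDn hDp v hv0
  refine ⟨j, ?_⟩
  by_contra hnot
  obtain ⟨f, u, hf1, hf2⟩ := geometric_hahn_banach_closed_point (hYv j) (hYc j) hnot
  obtain ⟨c, hc⟩ : ∃ c : Fin 3 → ℝ, c = fun i => f (Pi.single i 1) := ⟨_, rfl⟩
  have hfc : ∀ y : Fin 3 → ℝ, f y = c 0 * y 0 + c 1 * y 1 + c 2 * y 2 := by
    intro y
    have h1 : y = y 0 • (Pi.single 0 1 : Fin 3 → ℝ) + y 1 • (Pi.single 1 1 : Fin 3 → ℝ)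
        + y 2 • (Pi.single 2 1 : Fin 3 → ℝ) := by
      ext m
      fin_cases m <;> simp
    rw [h1, map_add, map_add, map_smul, map_smul, map_smul, hc]
    simp only [smul_eq_mul, Pi.add_apply, Pi.smul_apply, Pi.single_apply]
    simp
    ring
  obtain ⟨i, k, hij, hkj, hik, hsum⟩ := others j
  have hf : ∀ y : Fin 3 → ℝ, f y = c i * y i + c j * y j + c k * y k := by
    intro y
    rw [hfc y]
    exact hsum (fun m => c m * y m)
  have hjv : ∀ y : Fin 3 → ℝ, y 0 + y 1 + y 2 = 0 → y j = -y i - y k := by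
    intro y hy
    have := hsum y
    linarith
  have hf' : ∀ y : Fin 3 → ℝ, y 0 + y 1 + y 2 = 0 → f y = (c i - c j) * y i + (c k - c j) * y k := by
    intro y hy
    rw [hf y, hjv y hy]
    ring
  -- the separating functional is larger at `z` than at the corners
  have q0 : f X < f z := lt_trans (hf1 _ (hX j)) hf2
  have q1 : f (N i) < f z := lt_trans (hf1 _ (hN i j hij.symm)) hf2
  have q2 : f (N k) < f z := lt_trans (hf1 _ (hN k j hkj.symm)) hf2
  have hvi : f v = f z - f X := by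
    rw [← map_sub, hv]
  have hdi : f (d i) = f (N i) - f X := by
    rw [← map_sub, hd]
  have hdk : f (d k) = f (N k) - f X := by
    rw [← map_sub, hd]
  have r0 : 0 < f v := by linarith
  have r1 : f (d i) < f v := by linarith
  have r2 : f (d k) < f v := by linarith
  rw [hf' v hv0] at r0 r1 r2
  rw [hf' _ (hd0 i)] at r1
  rw [hf' _ (hd0 k)] at r2
  have g1 := hj i k hij hkj hik
  have g2 := hj k i hkj hij (Ne.symm hik)
  have hle : ∀ m m' : Fin 3, m ≠ j → m' ≠ j → m ≠ m' → -d m m' ≤ d m m := by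
    intro m m' h1 h2 h3
    have e1 := hdn m j (Ne.symm h1)
    obtain ⟨i', k', h4, h5, h6, h7⟩ := others m
    have e2 := h7 (d m)
    have e3 := hd0 m
    have e4 := hdn m i' h4
    have e5 := hdn m k' h5
    have : m' = i' ∨ m' = k' := by
      revert h3 h4 h5 h6
      revert m m' i' k'
      intro m m' _ _ _ i' k'
      intros
      omega
    rcases this with h | h <;> rw [h] <;> linarith
  have hcone := noBad (si := d i i) (ri := -d i k) (sk := d k k) (rk := -d k i) (Si := D i i)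
    (Ri := -D i k) (Sk := D k k) (Rk := -D k i) (vi := v i) (vk := v k) (α := c i - c j)
    (β := c k - c j) (by linarith [hdn i k (Ne.symm hik)]) (hle i k hij hkj hik)
    (by linarith [hdn k i hik]) (hle k i hkj hij (Ne.symm hik)) (hDp i)
    (by linarith [hDn i k (Ne.symm hik)]) (hDp k) (by linarith [hDn k i hik])
    (fun h => by rw [hD1 i h]; exact ⟨rfl, rfl⟩) (fun h => by rw [hD1 k h]; exact ⟨rfl, rfl⟩)
    (hvd i) (hvd k) (by linarith) (by linarith) r0 (by linarith) (by linarith)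
  obtain ⟨hα, hβ⟩ := hcone
  have hmin : ∀ m, c j ≤ c m := by
    intro m
    have : m = i ∨ m = j ∨ m = k := by omega
    rcases this with h | h | h
    · rw [h]; linarith
    · rw [h]
    · rw [h]; linarith
  have := hout j c u hmin fun v hv => by
    rw [← hfc v]
    exact (hf1 v hv).le
  rw [← hfc z] at this
  linarith

/-- Homothets of `L` with centres `C j`. -/
theorem tripodH (L : Set (Fin 3 → ℝ)) (hLc : IsClosed L) (hLv : Convex ℝ L)
    (hL0 : ∀ v ∈ L, v 0 + v 1 + v 2 = 0) {κ : ℝ} (hκ0 : 0 ≤ κ) (hκ1 : κ < 1)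
    (C N : Fin 3 → Fin 3 → ℝ) (X : Fin 3 → ℝ) (hC0 : ∀ j, C j 0 + C j 1 + C j 2 = 0)
    (hN : ∀ k j, j ≠ k → ∃ l ∈ L, N k = (1 - κ) • l + κ • C j)
    (hX : ∀ j, ∃ l ∈ L, X = (1 - κ) • l + κ • C j) (hK : ∀ i k, i ≠ k → N i k ≤ X k)
    (z : Fin 3 → ℝ) (hz : z ∈ L) (hzC : ∀ j m, m ≠ j → z m ≤ C j m) (hzk : ∀ k, z k ≤ N k k) :
    ∃ j, ∃ l ∈ L, z = (1 - κ) • l + κ • C j := by
  have hr : 0 < 1 - κ := by linarith
  obtain ⟨Y, hY⟩ : ∃ Y : Fin 3 → Set (Fin 3 → ℝ), Y = fun j => {x | ∃ l ∈ L, x = (1 - κ) • l + κ • C j} := ⟨_, rfl⟩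
  have hYc : ∀ j, IsClosed (Y j) := by
    intro j
    have h1 : Y j = (fun x : Fin 3 → ℝ => (1 - κ)⁻¹ • (x - κ • C j)) ⁻¹' L := by
      rw [hY]
      ext x
      constructor
      · rintro ⟨l, hl, rfl⟩
        show (1 - κ)⁻¹ • ((1 - κ) • l + κ • C j - κ • C j) ∈ L
        rw [add_sub_cancel_right, smul_smul, inv_mul_cancel₀ hr.ne', one_smul]
        exact hl
      · intro hx
        refine ⟨_, hx, ?_⟩
        show x = (1 - κ) • ((1 - κ)⁻¹ • (x - κ • C j)) + κ • C j
        rw [smul_smul, mul_inv_cancel₀ hr.ne', one_smul, sub_add_cancel]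
    rw [h1]
    exact hLc.preimage (by fun_prop)
  have hYv : ∀ j, Convex ℝ (Y j) := by
    intro j
    rw [hY]
    rintro _ ⟨l, hl, rfl⟩ _ ⟨l', hl', rfl⟩ s t hs ht hst
    refine ⟨s • l + t • l', hLv hl hl' hs ht hst, ?_⟩
    have : κ • C j = (s + t) • (κ • C j) := by rw [hst, one_smul]
    conv_rhs => rw [this]
    module
  have hsum : ∀ l ∈ L, ∀ j, ∀ x : Fin 3 → ℝ, x = (1 - κ) • l + κ • C j → x 0 + x 1 + x 2 = 0 := by
    intro l hl j x hx
    rw [hx]
    simp only [Pi.add_apply, Pi.smul_apply, smul_eq_mul]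
    linear_combination (1 - κ) * hL0 l hl + κ * hC0 j
  have hX0 : X 0 + X 1 + X 2 = 0 := by
    obtain ⟨l, hl, h1⟩ := hX 0
    exact hsum l hl 0 X h1
  have hN0 : ∀ k, N k 0 + N k 1 + N k 2 = 0 := by
    intro k
    obtain ⟨i, _, hik, -, -, -⟩ := others k
    obtain ⟨l, hl, h1⟩ := hN k i hik
    exact hsum l hl i _ h1
  obtain ⟨j, hj⟩ := sector_cover Y hYc hYv N X hX0 hN0 (fun k j hjk => by rw [hY]; exact hN k j hjk)
    (fun j => by rw [hY]; exact hX j) hK z (hL0 z hz) hzk (by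
      intro j c u hc hu
      have h1 := hu ((1 - κ) • z + κ • C j) (by rw [hY]; exact ⟨z, hz, rfl⟩)
      simp only [Pi.add_apply, Pi.smul_apply, smul_eq_mul] at h1
      have hz0 := hL0 z hz
      have hcj := hC0 j
      obtain ⟨i, k, hij, hkj, hik, hs⟩ := others j
      have e1 := hs (fun m => c m * z m)
      have e2 := hs (fun m => c m * C j m)
      have e3 := hs z
      have e4 := hs (C j)
      have f1 : (c i - c j) * z i ≤ (c i - c j) * C j i :=
        mul_le_mul_of_nonneg_left (hzC j i hij) (by linarith [hc i])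
      have f2 : (c k - c j) * z k ≤ (c k - c j) * C j k :=
        mul_le_mul_of_nonneg_left (hzC j k hkj) (by linarith [hc k])
      have g1 : c 0 * z 0 + c 1 * z 1 + c 2 * z 2 = (c i - c j) * z i + (c k - c j) * z k := by
        have : z j = -z i - z k := by linarith
        rw [e1, this]
        ring
      have g2 : c 0 * C j 0 + c 1 * C j 1 + c 2 * C j 2 = (c i - c j) * C j i + (c k - c j) * C j k := by
        have : C j j = -C j i - C j k := by linarith
        rw [e2, this]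
        ring
      have g3 : c 0 * z 0 + c 1 * z 1 + c 2 * z 2 ≤ c 0 * C j 0 + c 1 * C j 1 + c 2 * C j 2 := by
        rw [g1, g2]
        linarith
      have g4 := mul_le_mul_of_nonneg_left g3 hκ0
      nlinarith)
  refine ⟨j, ?_⟩
  rw [hY] at hj
  exact hj

end Pool.Agent.H81.R2
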