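import Pool.Agent.H81.R2.ReductionMM
import Pool.Agent.H81.R2.Sector
import Pool.Agent.H90.PP.PairP

set_option autoImplicit false

open scoped Pointwise

namespace Pool.Agent.H81.R2

theorem pairEq : PairEq := by
  intro L hL hc κ h0 h1 p q _ hb hP hQ
  have hn : L.Nonempty := by
    obtain ⟨v, hv, -⟩ := hP
    exact ⟨v, hv⟩
  exact Pool.Agent.H90.PP.pairP L hL hc hn κ h0 (by linarith) p q hb hP hQ

/-- The frozen statement follows from statement MM alone. -/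
theorem S09447_of_StatementMM (hMM : StatementMM) :
    ∀ (n : ℕ), 2 ≤ n →
    ∀ (K : Set (EuclideanSpace ℝ (Fin 2))), IsCompact K → Convex ℝ K →
    ∀ (F : Fin n → Set (EuclideanSpace ℝ (Fin 2))),
      (∀ i, (F i).Nonempty) →
      (∀ i j : Fin n, i ≠ j → ∀ a ∈ F i, ∀ b ∈ F j, ((a +ᵥ K) ∩ (b +ᵥ K)).Nonempty) →
      ∃ m : Fin n, ∃ P : Finset (EuclideanSpace ℝ (Fin 2)), P.card ≤ 3 ∧
        ∀ i : Fin n, i ≠ m → ∀ a ∈ F i, ∃ p ∈ P, p ∈ a +ᵥ K :=
  S09447_of_MM hMM pairEq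

end Pool.Agent.H81.R2
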