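import Pool.Agent.H81.R2.DualH
import Pool.Agent.H81.R2.Reduction

/-!
The frozen statement, for any number of families, follows from two covering statements about one convex body.
-/

set_option autoImplicit false
set_option linter.unusedSectionVars false

open Set Filter Topology
open scoped Pointwise

namespace Pool.Agent.H81.R2

/-- Statement MM. Here `-q k` and `p k` are the extreme values of the coordinate `k` on `L`, `w k = p k + q k`,
the points `P j` lie in `L` and have `P j j = p j`. -/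
def StatementMM : Prop :=
  ∀ L : Set (Fin 3 → ℝ), IsCompact L → Convex ℝ L → (∀ v ∈ L, v 0 + v 1 + v 2 = 0) →
  (∀ c : Fin 3 → ℝ, (∀ v ∈ L, ∀ u ∈ L, c 0 * v 0 + c 1 * v 1 + c 2 * v 2 = c 0 * u 0 + c 1 * u 1 + c 2 * u 2) →
    c 0 = c 2 ∧ c 1 = c 2) →
  ∀ κ : ℝ, 0 < κ → κ < 1 → ∀ (p q w σ : Fin 3 → ℝ) (P : Fin 3 → Fin 3 → ℝ),
    (∀ k, w k = p k + q k) → (∀ k, 0 < w k) →
    (∀ v ∈ L, ∀ k, -q k ≤ v k ∧ v k ≤ p k) → (∀ k, ∃ v ∈ L, v k = -q k) →
    (∀ j, P j ∈ L ∧ P j j = p j) → (∀ j, 0 ≤ σ j ∧ σ j ≤ κ) → (∀ j k, σ k * w k ≤ P j k + q k) →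
    ∃ j : Fin 3, ∃ T : Fin 3 → Fin 3 → ℝ, (∀ i, T i 0 + T i 1 + T i 2 = 0) ∧
      ∀ z ∈ L, κ * w j ≤ z j + q j → z j + q j ≤ (1 - κ + σ j) * w j → (∀ k, σ k * w k ≤ z k + q k) →
        (∃ l ∈ L, ∃ m ∈ L, z - P j = (1 - κ) • (l - m)) → ∃ i, ∃ l ∈ L, z = T i + (1 - κ) • l

/-- The pair statement with equal cuts. -/
def PairEq : Prop :=
  ∀ L : Set (ℝ × ℝ), IsCompact L → Convex ℝ L → ∀ κ : ℝ, 0 < κ → κ ≤ 1 / 2 →
  ∀ p q : ℝ, 0 < p + q → (∀ v ∈ L, -q ≤ v.2 ∧ v.2 ≤ p) → (∃ v ∈ L, v.2 = p) → (∃ v ∈ L, v.2 = -q) →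
    ∃ T : Fin 3 → ℝ × ℝ, ∀ z ∈ L, -q + κ * (p + q) ≤ z.2 → z.2 ≤ p - κ * (p + q) →
      ∃ j, ∃ l ∈ L, z = T j + (1 - κ) • l

variable {E : Type*} [NormedAddCommGroup E] [NormedSpace ℝ E] [FiniteDimensional ℝ E]

/-- Linear algebra, independent case. -/
theorem Red_lin3 (e : E ≃L[ℝ] ℝ × ℝ) (y : Fin 3 → StrongDual ℝ E) (hy : y 0 + y 1 + y 2 = 0)
    (hd : y 0 (e.symm (1, 0)) * y 1 (e.symm (0, 1)) - y 1 (e.symm (1, 0)) * y 0 (e.symm (0, 1)) ≠ 0) :
    ∃ Λ : E →L[ℝ] (Fin 3 → ℝ), (∀ v k, Λ v k = y k v) ∧ Function.Injective Λ ∧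
      (∀ v, Λ v 0 + Λ v 1 + Λ v 2 = 0) ∧ ∀ t : Fin 3 → ℝ, t 0 + t 1 + t 2 = 0 → ∃ v, Λ v = t := by
  have hyv : ∀ v, y 0 v + y 1 v + y 2 v = 0 := by
    intro v
    have := congrArg (fun f : StrongDual ℝ E => f v) hy
    simpa using this
  obtain ⟨α, hα⟩ : ∃ α : Fin 3 → ℝ, α = fun k => y k (e.symm (1, 0)) := ⟨_, rfl⟩
  obtain ⟨β, hβ⟩ : ∃ β : Fin 3 → ℝ, β = fun k => y k (e.symm (0, 1)) := ⟨_, rfl⟩
  have hco : ∀ k v, y k v = α k * (e v).1 + β k * (e v).2 := by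
    intro k v
    rw [hα, hβ]
    exact Red_coord e (y k) v
  have hd' : α 0 * β 1 - α 1 * β 0 ≠ 0 := by
    rw [hα, hβ]
    exact hd
  have hs : ∀ c0 c1 : ℝ, ∃ v, y 0 v = c0 ∧ y 1 v = c1 := by
    intro c0 c1
    refine ⟨e.symm ((c0 * β 1 - c1 * β 0) / (α 0 * β 1 - α 1 * β 0), (α 0 * c1 - α 1 * c0) / (α 0 * β 1 - α 1 * β 0)), ?_, ?_⟩
    · rw [hco, e.apply_symm_apply]
      show α 0 * ((c0 * β 1 - c1 * β 0) / (α 0 * β 1 - α 1 * β 0)) +
        β 0 * ((α 0 * c1 - α 1 * c0) / (α 0 * β 1 - α 1 * β 0)) = c0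
      rw [← mul_div_assoc, ← mul_div_assoc, ← add_div, div_eq_iff hd']
      ring
    · rw [hco, e.apply_symm_apply]
      show α 1 * ((c0 * β 1 - c1 * β 0) / (α 0 * β 1 - α 1 * β 0)) +
        β 1 * ((α 0 * c1 - α 1 * c0) / (α 0 * β 1 - α 1 * β 0)) = c1
      rw [← mul_div_assoc, ← mul_div_assoc, ← add_div, div_eq_iff hd']
      ring
  obtain ⟨Λ, hΛ⟩ : ∃ Λ : E →L[ℝ] (Fin 3 → ℝ), Λ = ContinuousLinearMap.pi y := ⟨_, rfl⟩
  have hΛk : ∀ v k, Λ v k = y k v := by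
    intro v k
    rw [hΛ]
    rfl
  refine ⟨Λ, hΛk, ?_, ?_, ?_⟩
  · intro u v huv
    have h0 : y 0 u = y 0 v := by rw [← hΛk, ← hΛk, huv]
    have h1 : y 1 u = y 1 v := by rw [← hΛk, ← hΛk, huv]
    rw [hco, hco] at h0 h1
    apply e.injective
    have k1 : (α 0 * β 1 - α 1 * β 0) * ((e u).1 - (e v).1) = 0 := by linear_combination β 1 * h0 - β 0 * h1
    have k2 : (α 0 * β 1 - α 1 * β 0) * ((e u).2 - (e v).2) = 0 := by linear_combination α 0 * h1 - α 1 * h0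
    have k3 := (mul_eq_zero.1 k1).resolve_left hd'
    have k4 := (mul_eq_zero.1 k2).resolve_left hd'
    exact Prod.ext (sub_eq_zero.1 k3) (sub_eq_zero.1 k4)
  · intro v
    rw [hΛk, hΛk, hΛk]
    exact hyv v
  · intro t ht
    obtain ⟨v, hv0, hv1⟩ := hs (t 0) (t 1)
    refine ⟨v, ?_⟩
    have h1 := hyv v
    funext k
    fin_cases k
    · rw [hΛk]; exact hv0
    · rw [hΛk]; exact hv1
    · rw [hΛk]
      show y 2 v = t 2
      linarith

/-- Linear algebra, dependent case. -/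
theorem Red_lin2 (e : E ≃L[ℝ] ℝ × ℝ) (y : Fin 3 → StrongDual ℝ E) (hy : y 0 + y 1 + y 2 = 0) (hy0 : y ≠ 0)
    (hd : y 0 (e.symm (1, 0)) * y 1 (e.symm (0, 1)) - y 1 (e.symm (1, 0)) * y 0 (e.symm (0, 1)) = 0) :
    ∃ (ψ : StrongDual ℝ E) (s : Fin 3 → ℝ), ψ ≠ 0 ∧ (∀ k, y k = s k • ψ) ∧ s 0 + s 1 + s 2 = 0 ∧ (∃ i, s i = 1) ∧
      ∃ Λ : E →L[ℝ] ℝ × ℝ, (∀ v, (Λ v).2 = ψ v) ∧ Function.Injective Λ ∧ ∀ w, ∃ v, Λ v = w := by
  have hyv : ∀ v, y 0 v + y 1 v + y 2 v = 0 := by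
    intro v
    have := congrArg (fun f : StrongDual ℝ E => f v) hy
    simpa using this
  obtain ⟨α, hα⟩ : ∃ α : Fin 3 → ℝ, α = fun k => y k (e.symm (1, 0)) := ⟨_, rfl⟩
  obtain ⟨β, hβ⟩ : ∃ β : Fin 3 → ℝ, β = fun k => y k (e.symm (0, 1)) := ⟨_, rfl⟩
  have hco : ∀ k v, y k v = α k * (e v).1 + β k * (e v).2 := by
    intro k v
    rw [hα, hβ]
    exact Red_coord e (y k) v
  have hd' : α 0 * β 1 - α 1 * β 0 = 0 := by
    rw [hα, hβ]
    exact hd
  have hα3 : α 0 + α 1 + α 2 = 0 := by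
    rw [hα]
    exact hyv _
  have hβ3 : β 0 + β 1 + β 2 = 0 := by
    rw [hβ]
    exact hyv _
  have hdd : ∀ i j, α i * β j = α j * β i := by
    have e1 : α 2 = -α 0 - α 1 := by linarith
    have e2 : β 2 = -β 0 - β 1 := by linarith
    intro i j
    fin_cases i <;> fin_cases j
    · rfl
    · show α 0 * β 1 = α 1 * β 0
      linarith
    · show α 0 * β 2 = α 2 * β 0
      rw [e1, e2]
      linarith
    · show α 1 * β 0 = α 0 * β 1
      linarith
    · rfl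
    · show α 1 * β 2 = α 2 * β 1
      rw [e1, e2]
      linarith
    · show α 2 * β 0 = α 0 * β 2
      rw [e1, e2]
      linarith
    · show α 2 * β 1 = α 1 * β 2
      rw [e1, e2]
      linarith
    · rfl
  obtain ⟨i, hi⟩ : ∃ i, α i ≠ 0 ∨ β i ≠ 0 := by
    by_contra hcon
    push Not at hcon
    refine hy0 (funext fun k => ?_)
    ext v
    rw [hco, (hcon k).1, (hcon k).2]
    simp
  have hpos : 0 < α i ^ 2 + β i ^ 2 := by
    rcases hi with h | h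
    · have := pow_pos (abs_pos.2 h) 2
      rw [sq_abs] at this
      positivity
    · have := pow_pos (abs_pos.2 h) 2
      rw [sq_abs] at this
      positivity
  obtain ⟨ψ, hψ⟩ : ∃ ψ, ψ = y i := ⟨_, rfl⟩
  have hψv : ∀ v, ψ v = α i * (e v).1 + β i * (e v).2 := by
    intro v
    rw [hψ]
    exact hco i v
  have hψ0 : ψ ≠ 0 := by
    intro h
    have h1 : ψ (e.symm (α i, β i)) = α i ^ 2 + β i ^ 2 := by
      rw [hψv, e.apply_symm_apply]
      ring
    rw [h] at h1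
    have h2 : (0 : StrongDual ℝ E) (e.symm (α i, β i)) = 0 := rfl
    rw [h2] at h1
    linarith
  obtain ⟨s, hs⟩ : ∃ s : Fin 3 → ℝ, s = fun k => (α k * α i + β k * β i) / (α i ^ 2 + β i ^ 2) := ⟨_, rfl⟩
  have hys : ∀ k, y k = s k • ψ := by
    intro k
    ext v
    have e1 : (s k • ψ) v = s k * ψ v := rfl
    rw [e1, hco, hψv, hs]
    have h1 := hdd i k
    have h2 : α k = (α k * α i + β k * β i) / (α i ^ 2 + β i ^ 2) * α i := by
      rw [div_mul_eq_mul_div, eq_div_iff hpos.ne']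
      linear_combination (-β i) * h1
    have h3 : β k = (α k * α i + β k * β i) / (α i ^ 2 + β i ^ 2) * β i := by
      rw [div_mul_eq_mul_div, eq_div_iff hpos.ne']
      linear_combination (α i) * h1
    calc α k * (e v).1 + β k * (e v).2 = ((α k * α i + β k * β i) / (α i ^ 2 + β i ^ 2) * α i) * (e v).1 +
          ((α k * α i + β k * β i) / (α i ^ 2 + β i ^ 2) * β i) * (e v).2 := by rw [← h2, ← h3]
      _ = _ := by ring
  have hs3 : s 0 + s 1 + s 2 = 0 := by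
    rw [hs]
    show (α 0 * α i + β 0 * β i) / (α i ^ 2 + β i ^ 2) + (α 1 * α i + β 1 * β i) / (α i ^ 2 + β i ^ 2) +
      (α 2 * α i + β 2 * β i) / (α i ^ 2 + β i ^ 2) = 0
    rw [← add_div, ← add_div, div_eq_zero_iff]
    left
    linear_combination α i * hα3 + β i * hβ3
  have hsi : s i = 1 := by
    rw [hs]
    show (α i * α i + β i * β i) / (α i ^ 2 + β i ^ 2) = 1
    rw [div_eq_one_iff_eq hpos.ne']
    ring
  obtain ⟨ψ', hψ'⟩ : ∃ ψ' : StrongDual ℝ E, ψ' = (-β i) • ((ContinuousLinearMap.fst ℝ ℝ ℝ).comp (e : E →L[ℝ] ℝ × ℝ)) +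
      α i • ((ContinuousLinearMap.snd ℝ ℝ ℝ).comp (e : E →L[ℝ] ℝ × ℝ)) := ⟨_, rfl⟩
  have hψ'v : ∀ v, ψ' v = -β i * (e v).1 + α i * (e v).2 := by
    intro v
    rw [hψ']
    rfl
  obtain ⟨Λ, hΛ⟩ : ∃ Λ : E →L[ℝ] ℝ × ℝ, Λ = ψ'.prod ψ := ⟨_, rfl⟩
  have hΛv : ∀ v, Λ v = (ψ' v, ψ v) := by
    intro v
    rw [hΛ]
    rfl
  refine ⟨ψ, s, hψ0, hys, hs3, ⟨i, hsi⟩, Λ, fun v => by rw [hΛv], ?_, ?_⟩
  · intro u v huv
    rw [hΛv, hΛv, Prod.mk.injEq] at huv
    obtain ⟨h0, h1⟩ := huv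
    rw [hψ'v, hψ'v] at h0
    rw [hψv, hψv] at h1
    apply e.injective
    have k1 : (α i ^ 2 + β i ^ 2) * ((e u).1 - (e v).1) = 0 := by linear_combination α i * h1 - β i * h0
    have k2 : (α i ^ 2 + β i ^ 2) * ((e u).2 - (e v).2) = 0 := by linear_combination β i * h1 + α i * h0
    exact Prod.ext (sub_eq_zero.1 ((mul_eq_zero.1 k1).resolve_left hpos.ne'))
      (sub_eq_zero.1 ((mul_eq_zero.1 k2).resolve_left hpos.ne'))
  · intro w
    refine ⟨e.symm ((α i * w.2 - β i * w.1) / (α i ^ 2 + β i ^ 2), (β i * w.2 + α i * w.1) / (α i ^ 2 + β i ^ 2)), ?_⟩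
    rw [hΛv, hψ'v, hψv, e.apply_symm_apply]
    refine Prod.ext ?_ ?_
    · show -β i * ((α i * w.2 - β i * w.1) / (α i ^ 2 + β i ^ 2)) + α i * ((β i * w.2 + α i * w.1) / (α i ^ 2 + β i ^ 2)) = w.1
      field_simp
      ring
    · show α i * ((α i * w.2 - β i * w.1) / (α i ^ 2 + β i ^ 2)) + β i * ((β i * w.2 + α i * w.1) / (α i ^ 2 + β i ^ 2)) = w.2
      field_simp
      ring

/-- The main step: sets `X i` in `L` touching `L` at a critical triple. -/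
theorem MM_side (h2 : Module.finrank ℝ E = 2) (hMM : StatementMM) (hPE : PairEq) {L : Set E}
    (hL : IsCompact L) (hc : Convex ℝ L) (hn : L.Nonempty)
    (hnd : ∀ ψ : StrongDual ℝ E, ψ ≠ 0 → ∃ l ∈ L, ∃ m ∈ L, ψ l ≠ ψ m)
    {ι : Type*} [Finite ι] (X : ι → Set E) (hXL : ∀ i, X i ⊆ L) (hXk : ∀ i, IsCompact (X i)) {κ : ℝ} (hκ0 : 0 < κ)
    (hκ1 : κ < 1)
    (hXX : ∀ i j, i ≠ j → ∀ a ∈ X i, ∀ b ∈ X j, ∃ l ∈ L, ∃ m ∈ L, a - b = (1 - κ) • (l - m))
    (y : Fin 3 → StrongDual ℝ E) (hy : y 0 + y 1 + y 2 = 0) (hy0 : y ≠ 0) (P : Fin 3 → E)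
    (hP : ∀ k, ∃ i, P k ∈ X i) (hPk : ∀ k, y k (P k) = sL L (y k)) :
    ∃ (c : ι) (T : Fin 3 → E), ∀ i, i ≠ c → ∀ a ∈ X i, ∃ j, ∃ l ∈ L, a = T j + (1 - κ) • l := by
  have e : E ≃L[ℝ] ℝ × ℝ := ContinuousLinearEquiv.ofFinrankEq (by simp [h2])
  have hr : 0 < 1 - κ := by linarith
  -- widths
  have hwid : ∀ (ψ : StrongDual ℝ E), ∀ l ∈ L, ∀ m ∈ L, ψ l - ψ m ≤ sL L ψ + sL L (-ψ) := by
    intro ψ l hl m hm
    have h1 := sL_le hL ψ hl
    have h2 := sL_le hL (-ψ) hm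
    have e1 : (-ψ) m = -(ψ m) := rfl
    rw [e1] at h2
    linarith
  have hb : ∀ (ψ : StrongDual ℝ E), ∀ l ∈ L, -sL L (-ψ) ≤ ψ l ∧ ψ l ≤ sL L ψ := by
    intro ψ l hl
    refine ⟨?_, sL_le hL _ hl⟩
    have := sL_le hL (-ψ) hl
    have e1 : (-ψ) l = -(ψ l) := rfl
    rw [e1] at this
    linarith
  have hlow : ∀ (ψ : StrongDual ℝ E), ∃ l ∈ L, ψ l = -sL L (-ψ) := by
    intro ψ
    obtain ⟨l, hl, h1⟩ := sL_attained hL hn (-ψ)
    refine ⟨l, hl, ?_⟩
    have e1 : (-ψ) l = -(ψ l) := rfl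
    rw [e1] at h1
    linarith
  have hwpos : ∀ ψ : StrongDual ℝ E, ψ ≠ 0 → 0 < sL L ψ + sL L (-ψ) := by
    intro ψ hψ
    obtain ⟨l, hl, m, hm, h1⟩ := hnd ψ hψ
    have h2 := hwid ψ l hl m hm
    have h3 := hwid ψ m hm l hl
    rcases lt_or_gt_of_ne h1 with h | h
    · linarith
    · linarith
  by_cases hd : y 0 (e.symm (1, 0)) * y 1 (e.symm (0, 1)) - y 1 (e.symm (1, 0)) * y 0 (e.symm (0, 1)) = 0
  · -- the pair case
    obtain ⟨ψ, s, hψ0, hys, hs3, ⟨i, hsi⟩, Λ, hΛ2, hinj, hsur⟩ := Red_lin2 e y hy hy0 hd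
    obtain ⟨p, hp⟩ : ∃ p, p = sL L ψ := ⟨_, rfl⟩
    obtain ⟨q, hq⟩ : ∃ q, q = sL L (-ψ) := ⟨_, rfl⟩
    have hpq : 0 < p + q := by rw [hp, hq]; exact hwpos ψ hψ0
    have hPi : ψ (P i) = p := by
      have h1 := hPk i
      have h3 : y i = ψ := by rw [hys i, hsi, one_smul]
      rw [h3] at h1
      rw [h1, hp]
    obtain ⟨k, hk⟩ : ∃ k, s k < 0 := by
      by_contra hcon
      push Not at hcon
      have h0 := hcon 0
      have h1 := hcon 1
      have h2' := hcon 2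
      have h3 : s i ≤ s 0 + s 1 + s 2 := by
        fin_cases i
        · show s 0 ≤ _
          linarith
        · show s 1 ≤ _
          linarith
        · show s 2 ≤ _
          linarith
      linarith
    have hPk' : ψ (P k) = -q := by
      have h1 := hPk k
      rw [hys k, Red_sL hL hn, max_eq_right hk.le, max_eq_left (by linarith : 0 ≤ -s k), ← hq] at h1
      have h3 : (s k • ψ) (P k) = s k * ψ (P k) := rfl
      rw [h3] at h1
      have h4 : s k * (ψ (P k) + q) = 0 := by linarith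
      rcases mul_eq_zero.1 h4 with h5 | h5
      · exact absurd h5 hk.ne
      · linarith
    obtain ⟨c, hc1⟩ := hP i
    obtain ⟨c', hc2⟩ := hP k
    have hcc : c' = c := by
      by_contra hne
      obtain ⟨l, hl, m, hm, h1⟩ := hXX c c' (Ne.symm hne) _ hc1 _ hc2
      have h3 : ψ (P i) - ψ (P k) = (1 - κ) * (ψ l - ψ m) := by
        rw [← map_sub, h1, map_smul, map_sub, smul_eq_mul]
      have h4 := hwid ψ l hl m hm
      rw [← hp, ← hq] at h4
      rw [hPi, hPk'] at h3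
      have h5 := mul_le_mul_of_nonneg_left h4 hr.le
      nlinarith
    rw [hcc] at hc2
    have hstrip : ∀ j, j ≠ c → ∀ a ∈ X j, -q + κ * (p + q) ≤ ψ a ∧ ψ a ≤ p - κ * (p + q) := by
      intro j hj a ha
      constructor
      · obtain ⟨l, hl, m, hm, h1⟩ := hXX c j (Ne.symm hj) _ hc1 _ ha
        have h3 : ψ (P i) - ψ a = (1 - κ) * (ψ l - ψ m) := by
          rw [← map_sub, h1, map_smul, map_sub, smul_eq_mul]
        have h4 := mul_le_mul_of_nonneg_left (hwid ψ l hl m hm) hr.le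
        rw [← hp, ← hq] at h4
        rw [hPi] at h3
        linarith
      · obtain ⟨l, hl, m, hm, h1⟩ := hXX j c hj _ ha _ hc2
        have h3 : ψ a - ψ (P k) = (1 - κ) * (ψ l - ψ m) := by
          rw [← map_sub, h1, map_smul, map_sub, smul_eq_mul]
        have h4 := mul_le_mul_of_nonneg_left (hwid ψ l hl m hm) hr.le
        rw [← hp, ← hq] at h4
        rw [hPk'] at h3
        linarith
    rcases le_or_gt κ (1 / 2) with hκ2 | hκ2
    · obtain ⟨T', hT'⟩ := hPE (Λ '' L) (hL.image Λ.continuous) (hc.linear_image Λ.toLinearMap) κ hκ0 hκ2 p q hpq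
        (by
          rintro _ ⟨l, hl, rfl⟩
          rw [hΛ2, hp, hq]
          exact hb ψ l hl)
        (by
          obtain ⟨l, hl, h1⟩ := sL_attained hL hn ψ
          refine ⟨Λ l, mem_image_of_mem _ hl, ?_⟩
          rw [hΛ2, hp]
          exact h1.symm)
        (by
          obtain ⟨l, hl, h1⟩ := hlow ψ
          refine ⟨Λ l, mem_image_of_mem _ hl, ?_⟩
          rw [hΛ2, hq]
          exact h1)
      choose T hT using hsur
      refine ⟨c, fun j => T (T' j), fun j hj a ha => ?_⟩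
      obtain ⟨h1, h3⟩ := hstrip j hj a ha
      obtain ⟨j', z, ⟨m, hm, rfl⟩, h4⟩ := hT' (Λ a) (mem_image_of_mem _ (hXL j ha)) (by rw [hΛ2]; exact h1)
        (by rw [hΛ2]; exact h3)
      refine ⟨j', m, hm, hinj ?_⟩
      rw [h4, map_add, map_smul, hT]
    · refine ⟨c, fun _ => 0, fun j hj a ha => ?_⟩
      obtain ⟨h1, h3⟩ := hstrip j hj a ha
      exfalso
      nlinarith
  · -- the triple case
    obtain ⟨Λ, hΛk, hinj, hsum, hsur⟩ := Red_lin3 e y hy hd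
    obtain ⟨p, hp⟩ : ∃ p : Fin 3 → ℝ, p = fun k => sL L (y k) := ⟨_, rfl⟩
    obtain ⟨q, hq⟩ : ∃ q : Fin 3 → ℝ, q = fun k => sL L (-y k) := ⟨_, rfl⟩
    obtain ⟨w, hw⟩ : ∃ w : Fin 3 → ℝ, w = fun k => p k + q k := ⟨_, rfl⟩
    have hwk : ∀ k, w k = p k + q k := fun k => by rw [hw]
    have hb' : ∀ l ∈ L, ∀ k, -q k ≤ y k l ∧ y k l ≤ p k := by
      intro l hl k
      rw [hp, hq]
      exact hb (y k) l hl
    have hyk : ∀ k, y k ≠ 0 := by
      intro k hk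
      have h1 : ∀ v, y k v = 0 := fun v => by rw [hk]; rfl
      fin_cases k
      · obtain ⟨v, hv⟩ := hsur ![1, -1, 0] (by simp)
        have h3 : Λ v 0 = 1 := by rw [hv]; rfl
        rw [hΛk] at h3
        have := h1 v
        have h4 : y 0 v = 0 := this
        linarith
      · obtain ⟨v, hv⟩ := hsur ![-1, 1, 0] (by simp)
        have h3 : Λ v 1 = 1 := by rw [hv]; rfl
        rw [hΛk] at h3
        have h4 : y 1 v = 0 := h1 v
        linarith
      · obtain ⟨v, hv⟩ := hsur ![-1, 0, 1] (by simp)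
        have h3 : Λ v 2 = 1 := by rw [hv]; rfl
        rw [hΛk] at h3
        have h4 : y 2 v = 0 := h1 v
        linarith
    have hwpos' : ∀ k, 0 < w k := by
      intro k
      rw [hw, hp, hq]
      exact hwpos (y k) (hyk k)
    have hwid' : ∀ k, ∀ l ∈ L, ∀ m ∈ L, y k l - y k m ≤ w k := by
      intro k l hl m hm
      rw [hw, hp, hq]
      exact hwid (y k) l hl m hm
    have hPk' : ∀ k, y k (P k) = p k := by
      intro k
      rw [hp]
      exact hPk k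
    -- minimisers
    obtain ⟨Y, hY⟩ : ∃ Y : Set E, Y = ⋃ i, X i := ⟨_, rfl⟩
    have hYk : IsCompact Y := by
      rw [hY]
      exact isCompact_iUnion hXk
    have hYn : Y.Nonempty := by
      obtain ⟨i, hi⟩ := hP 0
      refine ⟨P 0, ?_⟩
      rw [hY]
      exact mem_iUnion.2 ⟨i, hi⟩
    have hYmem : ∀ i, ∀ a ∈ X i, a ∈ Y := by
      intro i a ha
      rw [hY]
      exact mem_iUnion.2 ⟨i, ha⟩
    choose ξ hξ hmin using fun k => hYk.exists_isMinOn hYn (y k).continuous.continuousOn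
    have hmin' : ∀ k, ∀ a ∈ Y, y k (ξ k) ≤ y k a := fun k a ha => hmin k ha
    have hξc : ∀ k, ∃ i, ξ k ∈ X i := by
      intro k
      have := hξ k
      rw [hY] at this
      exact mem_iUnion.1 this
    obtain ⟨σ, hσ⟩ : ∃ σ : Fin 3 → ℝ, σ = fun k => min κ ((y k (ξ k) + q k) / w k) := ⟨_, rfl⟩
    have hξL : ∀ k, ξ k ∈ L := by
      intro k
      obtain ⟨i, hi⟩ := hξc k
      exact hXL i hi
    have hσ0 : ∀ k, 0 ≤ σ k ∧ σ k ≤ κ := by
      intro k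
      rw [hσ]
      refine ⟨le_min hκ0.le (div_nonneg ?_ (hwpos' k).le), min_le_left _ _⟩
      have := (hb' _ (hξL k) k).1
      linarith
    have hσY : ∀ k, ∀ a ∈ Y, σ k * w k ≤ y k a + q k := by
      intro k a ha
      have h1 : σ k ≤ (y k (ξ k) + q k) / w k := by
        rw [hσ]
        exact min_le_right _ _
      rw [le_div_iff₀ (hwpos' k)] at h1
      have := hmin' k a ha
      linarith
    obtain ⟨j, T', hT0, hT1⟩ := hMM (Λ '' L) (hL.image Λ.continuous) (hc.linear_image Λ.toLinearMap)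
      (by rintro _ ⟨l, -, rfl⟩; exact hsum l)
      (by
        intro c hcc
        obtain ⟨f, hf⟩ : ∃ f : StrongDual ℝ E, f = c 0 • y 0 + c 1 • y 1 + c 2 • y 2 := ⟨_, rfl⟩
        have hfv : ∀ v, f v = c 0 * y 0 v + c 1 * y 1 v + c 2 * y 2 v := by
          intro v
          rw [hf]
          rfl
        have hf0 : f = 0 := by
          by_contra hne
          obtain ⟨l, hl, m, hm, h1⟩ := hnd f hne
          refine h1 ?_
          have h3 := hcc (Λ l) (mem_image_of_mem _ hl) (Λ m) (mem_image_of_mem _ hm)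
          simp only [hΛk] at h3
          rw [hfv, hfv, h3]
        have hf1 : ∀ v, c 0 * y 0 v + c 1 * y 1 v + c 2 * y 2 v = 0 := by
          intro v
          rw [← hfv, hf0]
          rfl
        obtain ⟨v, hv⟩ := hsur ![1, 0, -1] (by simp)
        obtain ⟨u, hu⟩ := hsur ![0, 1, -1] (by simp)
        have k1 := hf1 v
        have k2 := hf1 u
        rw [← hΛk, ← hΛk, ← hΛk, hv] at k1
        rw [← hΛk, ← hΛk, ← hΛk, hu] at k2
        have k1' : c 0 * 1 + c 1 * 0 + c 2 * (-1) = 0 := k1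
        have k2' : c 0 * 0 + c 1 * 1 + c 2 * (-1) = 0 := k2
        exact ⟨by linarith, by linarith⟩)
      κ hκ0 hκ1 p q w σ (fun k => Λ (P k)) hwk hwpos'
      (by
        rintro _ ⟨l, hl, rfl⟩ k
        rw [hΛk]
        exact hb' l hl k)
      (by
        intro k
        obtain ⟨l, hl, h1⟩ := hlow (y k)
        refine ⟨Λ l, mem_image_of_mem _ hl, ?_⟩
        rw [hΛk, hq]
        exact h1)
      (by
        intro k
        obtain ⟨i, hi⟩ := hP k
        refine ⟨mem_image_of_mem _ (hXL i hi), ?_⟩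
        rw [hΛk]
        exact hPk' k)
      hσ0
      (by
        intro i k
        obtain ⟨i', hi'⟩ := hP i
        show σ k * w k ≤ Λ (P i) k + q k
        rw [hΛk]
        exact hσY k _ (hYmem i' _ hi'))
    obtain ⟨c, hc1⟩ := hP j
    have hlo : ∀ i, i ≠ c → ∀ a ∈ X i, κ * w j ≤ y j a + q j := by
      intro i hi a ha
      obtain ⟨l, hl, m, hm, h1⟩ := hXX c i (Ne.symm hi) _ hc1 _ ha
      have h3 : y j (P j) - y j a = (1 - κ) * (y j l - y j m) := by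
        rw [← map_sub, h1, map_smul, map_sub, smul_eq_mul]
      have h4 := mul_le_mul_of_nonneg_left (hwid' j l hl m hm) hr.le
      rw [hPk'] at h3
      have := hwk j
      linarith
    have hhi : ∀ i, i ≠ c → ∀ a ∈ X i, y j a + q j ≤ (1 - κ + σ j) * w j := by
      intro i hi a ha
      have hal := (hb' a (hXL i ha) j).2
      have hwj := hwk j
      rcases le_or_gt κ ((y j (ξ j) + q j) / w j) with h | h
      · have h1 : σ j = κ := by
          rw [hσ]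
          exact min_eq_left h
        rw [h1]
        linarith
      · have h1 : σ j = (y j (ξ j) + q j) / w j := by
          rw [hσ]
          exact min_eq_right h.le
        have h3 : σ j * w j = y j (ξ j) + q j := by rw [h1, div_mul_cancel₀ _ (hwpos' j).ne']
        rw [div_lt_iff₀ (hwpos' j)] at h
        obtain ⟨i', hi'⟩ := hξc j
        have h4 : i' = c := by
          by_contra hne
          have := hlo i' hne _ hi'
          linarith
        rw [h4] at hi'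
        obtain ⟨l, hl, m, hm, h5⟩ := hXX i c hi _ ha _ hi'
        have h6 : y j a - y j (ξ j) = (1 - κ) * (y j l - y j m) := by
          rw [← map_sub, h5, map_smul, map_sub, smul_eq_mul]
        have h7 := mul_le_mul_of_nonneg_left (hwid' j l hl m hm) hr.le
        have h8 : (1 - κ + σ j) * w j = (1 - κ) * w j + σ j * w j := by ring
        rw [h8, h3]
        linarith
    choose T hT using fun i => hsur (T' i) (hT0 i)
    refine ⟨c, T, fun i hi a ha => ?_⟩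
    obtain ⟨i', z, ⟨m, hm, rfl⟩, h4⟩ := hT1 (Λ a) (mem_image_of_mem _ (hXL i ha)) (by rw [hΛk]; exact hlo i hi a ha)
      (by rw [hΛk]; exact hhi i hi a ha) (fun k => by rw [hΛk]; exact hσY k a (hYmem i a ha))
      (by
        obtain ⟨l, hl, m, hm, h1⟩ := hXX i c hi _ ha _ hc1
        refine ⟨Λ l, mem_image_of_mem _ hl, Λ m, mem_image_of_mem _ hm, ?_⟩
        show Λ a - Λ (P j) = (1 - κ) • (Λ l - Λ m)
        rw [← map_sub, ← map_sub, ← map_smul, h1])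
    refine ⟨i', m, hm, hinj ?_⟩
    rw [h4, map_add, map_smul, hT]

/-- The least `μ`. -/
theorem MM_min {L A : Set E} (hL : IsCompact L) (hA : A.Nonempty) {M : ℝ} (hM : 0 ≤ M) (hfit : FitH L A M) :
    ∃ ν ∈ Icc (0 : ℝ) M, FitH L A ν ∧ ∀ μ ∈ Ico 0 ν, ¬ FitH L A μ := by
  obtain ⟨F, hF⟩ : ∃ F : E → Set (E × ℝ), F = fun a => {z | z.2 ∈ Icc (0 : ℝ) M ∧ a - z.1 ∈ Hd L z.2} := ⟨_, rfl⟩
  have hFk : ∀ a, IsCompact (F a) := by
    intro a
    have h1 : F a = (fun z : E × ℝ => (a - (1 + z.2) • z.1, z.2)) '' (L ×ˢ Icc (0 : ℝ) M) := by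
      rw [hF]
      ext ⟨z, μ⟩
      constructor
      · rintro ⟨hμ, l, hl, h2⟩
        refine ⟨(l, μ), ⟨hl, hμ⟩, ?_⟩
        refine Prod.ext ?_ rfl
        show a - (1 + μ) • l = z
        rw [← h2]
        exact sub_sub_cancel _ _
      · rintro ⟨⟨l, μ'⟩, ⟨hl, hμ⟩, h2⟩
        rw [Prod.mk.injEq] at h2
        obtain ⟨h2, h3⟩ := h2
        refine ⟨by rw [← h3]; exact hμ, l, hl, ?_⟩
        show a - z = (1 + μ) • l
        rw [← h2, ← h3]
        exact sub_sub_cancel _ _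
    rw [h1]
    refine (hL.prod isCompact_Icc).image ?_
    fun_prop
  obtain ⟨G, hG⟩ : ∃ G : Set (E × ℝ), G = ⋂ a ∈ A, F a := ⟨_, rfl⟩
  obtain ⟨a0, ha0⟩ := hA
  have hGk : IsCompact G := by
    refine (hFk a0).of_isClosed_subset ?_ ?_
    · rw [hG]
      exact isClosed_biInter fun a _ => (hFk a).isClosed
    · rw [hG]
      exact biInter_subset_of_mem ha0
  have hmem : ∀ z : E × ℝ, z ∈ G ↔ ∀ a ∈ A, z.2 ∈ Icc (0 : ℝ) M ∧ a - z.1 ∈ Hd L z.2 := by
    intro z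
    rw [hG, mem_iInter₂, hF]
    exact Iff.rfl
  obtain ⟨x0, hx0⟩ := hfit
  have hGn : G.Nonempty := ⟨(x0, M), (hmem _).2 fun a ha => ⟨⟨hM, le_rfl⟩, hx0 a ha⟩⟩
  obtain ⟨⟨x', ν⟩, hxν, hmin⟩ := hGk.exists_isMinOn hGn continuous_snd.continuousOn
  have h1 := (hmem _).1 hxν
  have hν : ν ∈ Icc (0 : ℝ) M := (h1 a0 ha0).1
  refine ⟨ν, hν, ⟨x', fun a ha => (h1 a ha).2⟩, ?_⟩
  rintro μ ⟨hμ0, hμν⟩ ⟨x'', hx''⟩
  have h2 : (x'', μ) ∈ G := (hmem _).2 fun a ha => ⟨⟨hμ0, hμν.le.trans hν.2⟩, hx'' a ha⟩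
  have h3 : ν ≤ μ := hmin h2
  linarith

/-- Compact sets, `L` not contained in a line. -/
theorem MM_compact (h2 : Module.finrank ℝ E = 2) (hMM : StatementMM) (hPE : PairEq) {L : Set E}
    (hL : IsCompact L) (hc : Convex ℝ L) (hn : L.Nonempty)
    (hnd : ∀ ψ : StrongDual ℝ E, ψ ≠ 0 → ∃ l ∈ L, ∃ m ∈ L, ψ l ≠ ψ m)
    {ι : Type*} [Finite ι] (V : ι → Set E) (hVk : ∀ i, IsCompact (V i)) (i0 i1 : ι) (hi : i0 ≠ i1)
    (hV0 : ∀ i, (V i).Nonempty)
    (hVV : ∀ i j, i ≠ j → ∀ a ∈ V i, ∀ b ∈ V j, ∃ l ∈ L, ∃ m ∈ L, a - b = l - m) :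
    ∃ (c : ι) (T : Fin 3 → E), ∀ i, i ≠ c → ∀ a ∈ V i, ∃ j, a - T j ∈ L := by
  obtain ⟨A, hA⟩ : ∃ A : Set E, A = ⋃ i, V i := ⟨_, rfl⟩
  have hAk : IsCompact A := by
    rw [hA]
    exact isCompact_iUnion hVk
  have hVA : ∀ i, ∀ a ∈ V i, a ∈ A := by
    intro i a ha
    rw [hA]
    exact mem_iUnion.2 ⟨i, ha⟩
  have hAn : A.Nonempty := by
    obtain ⟨a, ha⟩ := hV0 i0
    exact ⟨a, hVA i0 a ha⟩
  -- a homothet containing everything
  have hfit : FitH L A 5 := by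
    obtain ⟨x, hx⟩ := diff_three h2 hL hc hn
    obtain ⟨b, hb⟩ := hV0 i0
    obtain ⟨b', hb'⟩ := hV0 i1
    obtain ⟨l0, hl0⟩ := id hn
    refine ⟨b + (2 : ℝ) • x, fun a ha => ?_⟩
    rw [hA, mem_iUnion] at ha
    obtain ⟨i, ha⟩ := ha
    -- `a - b` is a sum of two differences
    obtain ⟨l, hl, m, hm, l', hl', m', hm', h1⟩ : ∃ l ∈ L, ∃ m ∈ L, ∃ l' ∈ L, ∃ m' ∈ L, a - b = (l - m) + (l' - m') := by
      by_cases h : i = i0
      · subst h
        obtain ⟨l, hl, m, hm, h1⟩ := hVV i i1 hi _ ha _ hb'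
        obtain ⟨l', hl', m', hm', h3⟩ := hVV i1 i (Ne.symm hi) _ hb' _ hb
        exact ⟨l, hl, m, hm, l', hl', m', hm', by rw [← h1, ← h3]; abel⟩
      · obtain ⟨l, hl, m, hm, h1⟩ := hVV i i0 h _ ha _ hb
        exact ⟨l, hl, m, hm, l0, hl0, l0, hl0, by rw [← h1]; abel⟩
    obtain ⟨k, hk, h3⟩ := hx l hl m hm
    obtain ⟨k', hk', h4⟩ := hx l' hl' m' hm'
    refine ⟨(2⁻¹ : ℝ) • k + (2⁻¹ : ℝ) • k', hc hk hk' (by norm_num) (by norm_num) (by norm_num), ?_⟩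
    rw [← sub_sub, h1, h3, h4]
    module
  obtain ⟨ν, hν, ⟨x, hx⟩, hmin⟩ := MM_min hL hAn (by norm_num : (0 : ℝ) ≤ 5) hfit
  rcases hν.1.eq_or_lt with hz | hν0
  · refine ⟨i0, fun _ => x, fun i _ a ha => ⟨0, ?_⟩⟩
    obtain ⟨l, hl, h1⟩ := hx a (hVA i a ha)
    show a - x ∈ L
    rw [h1, ← hz, add_zero, one_smul]
    exact hl
  · obtain ⟨φ, r, hφ, hr, hφ3, hsum⟩ := dualH h2 hL hc hn hAk hν0 hmin
    have hm : 0 < 1 + ν := by linarith
    choose P hPL hPr using fun k => hx (r k) (hr k)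
    have hr' : ∀ k, r k = x + (1 + ν) • P k := by
      intro k
      rw [← hPr k]
      abel
    have hle : ∀ k, φ k (P k) ≤ sL L (φ k) := fun k => sL_le hL _ (hPL k)
    have hφx : φ 0 x + φ 1 x + φ 2 x = 0 := by
      have := congrArg (fun f : StrongDual ℝ E => f x) hφ3
      simpa using this
    have hφr : ∀ k, φ k (r k) = φ k x + (1 + ν) * φ k (P k) := by
      intro k
      rw [hr' k, map_add, map_smul, smul_eq_mul]
    have hPk : ∀ k, φ k (P k) = sL L (φ k) := by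
      rw [Fin.sum_univ_three, Fin.sum_univ_three, hφr, hφr, hφr] at hsum
      have h3 : (1 + ν) * (sL L (φ 0) + sL L (φ 1) + sL L (φ 2)) ≤ (1 + ν) * (φ 0 (P 0) + φ 1 (P 1) + φ 2 (P 2)) := by
        linarith
      have h4 := le_of_mul_le_mul_left h3 hm
      have h5 := hle 0
      have h6 := hle 1
      have h7 := hle 2
      intro k
      fin_cases k
      · show φ 0 (P 0) = sL L (φ 0)
        linarith
      · show φ 1 (P 1) = sL L (φ 1)
        linarith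
      · show φ 2 (P 2) = sL L (φ 2)
        linarith
    obtain ⟨κ, hκ⟩ : ∃ κ : ℝ, κ = ν / (1 + ν) := ⟨_, rfl⟩
    have hκ1 : κ * (1 + ν) = ν := by rw [hκ, div_mul_cancel₀ _ hm.ne']
    have hκ0 : 0 < κ := by rw [hκ]; positivity
    have hκ2 : κ < 1 := by
      rw [hκ, div_lt_one hm]
      linarith
    have hκ3 : (1 + ν) * (1 - κ) = 1 := by linarith
    have hκ3' : (1 - κ) * (1 + ν) = 1 := by linarith
    obtain ⟨X, hX⟩ : ∃ X : ι → Set E, X = fun i => {l | l ∈ L ∧ x + (1 + ν) • l ∈ V i} := ⟨_, rfl⟩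
    have hXk : ∀ i, IsCompact (X i) := by
      intro i
      rw [hX]
      have h1 : IsClosed {l : E | x + (1 + ν) • l ∈ V i} := (hVk i).isClosed.preimage (by fun_prop)
      exact hL.inter_right h1
    have hXL : ∀ i, X i ⊆ L := by
      intro i l hl
      rw [hX] at hl
      exact hl.1
    have hXV : ∀ i, ∀ l ∈ X i, x + (1 + ν) • l ∈ V i := by
      intro i l hl
      rw [hX] at hl
      exact hl.2
    obtain ⟨c, T, hT⟩ := MM_side h2 hMM hPE hL hc hn hnd X hXL hXk hκ0 hκ2 (by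
      intro i j hij a ha b hb
      obtain ⟨l, hl, m, hm', h1⟩ := hVV i j hij _ (hXV i a ha) _ (hXV j b hb)
      refine ⟨l, hl, m, hm', ?_⟩
      rw [← h1, add_sub_add_left_eq_sub, ← smul_sub, smul_smul, hκ3', one_smul]) φ hφ3 hφ P (by
      intro k
      have h1 := hr k
      rw [hA, mem_iUnion] at h1
      obtain ⟨i, h1⟩ := h1
      refine ⟨i, ?_⟩
      rw [hX]
      refine ⟨hPL k, ?_⟩
      rw [← hr' k]
      exact h1) hPk
    refine ⟨c, fun j => x + (1 + ν) • T j, fun i hic a ha => ?_⟩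
    obtain ⟨l, hl, h1⟩ := hx a (hVA i a ha)
    have h3 : a = x + (1 + ν) • l := by rw [← h1]; abel
    obtain ⟨j, m, hm', h4⟩ := hT i hic l (by
      rw [hX]
      refine ⟨hl, ?_⟩
      rw [← h3]
      exact ha)
    refine ⟨j, ?_⟩
    have h5 : a - (x + (1 + ν) • T j) = m := by
      rw [h3, h4, smul_add, smul_smul, hκ3, one_smul]
      abel
    show a - (x + (1 + ν) • T j) ∈ L
    rw [h5]
    exact hm'

/-- The degenerate case: `L` is contained in a line. -/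
theorem MM_degenerate (h2 : Module.finrank ℝ E = 2) {L : Set E} (hL : IsCompact L) (hc : Convex ℝ L) (hn : L.Nonempty)
    {ψ : StrongDual ℝ E} (hψ0 : ψ ≠ 0) (hψ : ∀ l ∈ L, ∀ m ∈ L, ψ l = ψ m) :
    ∃ T : Fin 3 → E, ∀ l ∈ L, ∀ m ∈ L, ∃ j, (l - m) - T j ∈ L := by
  have e : E ≃L[ℝ] ℝ × ℝ := ContinuousLinearEquiv.ofFinrankEq (by simp [h2])
  obtain ⟨α, hα⟩ : ∃ α : ℝ, α = ψ (e.symm (1, 0)) := ⟨_, rfl⟩
  obtain ⟨β, hβ⟩ : ∃ β : ℝ, β = ψ (e.symm (0, 1)) := ⟨_, rfl⟩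
  have hψv : ∀ v, ψ v = α * (e v).1 + β * (e v).2 := by
    intro v
    rw [hα, hβ]
    exact Red_coord e ψ v
  have hpos : 0 < α ^ 2 + β ^ 2 := by
    by_contra hcon
    have h1 : α = 0 := by nlinarith [sq_nonneg α, sq_nonneg β]
    have h3 : β = 0 := by nlinarith [sq_nonneg α, sq_nonneg β]
    refine hψ0 ?_
    ext v
    rw [hψv, h1, h3]
    simp
  obtain ⟨ψ', hψ'⟩ : ∃ ψ' : StrongDual ℝ E, ψ' = (-β) • ((ContinuousLinearMap.fst ℝ ℝ ℝ).comp (e : E →L[ℝ] ℝ × ℝ)) +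
      α • ((ContinuousLinearMap.snd ℝ ℝ ℝ).comp (e : E →L[ℝ] ℝ × ℝ)) := ⟨_, rfl⟩
  have hψ'v : ∀ v, ψ' v = -β * (e v).1 + α * (e v).2 := by
    intro v
    rw [hψ']
    rfl
  have hinj : ∀ v, ψ v = 0 → ψ' v = 0 → v = 0 := by
    intro v h0 h1
    rw [hψv] at h0
    rw [hψ'v] at h1
    have k1 : (α ^ 2 + β ^ 2) * (e v).1 = 0 := by linear_combination α * h0 - β * h1
    have k2 : (α ^ 2 + β ^ 2) * (e v).2 = 0 := by linear_combination β * h0 + α * h1
    have k3 : e v = 0 := Prod.ext ((mul_eq_zero.1 k1).resolve_left hpos.ne') ((mul_eq_zero.1 k2).resolve_left hpos.ne')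
    simpa using k3
  obtain ⟨l1, hl1, hmax⟩ := hL.exists_isMaxOn hn ψ'.continuous.continuousOn
  obtain ⟨l0, hl0, hmin⟩ := hL.exists_isMinOn hn ψ'.continuous.continuousOn
  have hmax' : ∀ l ∈ L, ψ' l ≤ ψ' l1 := fun l hl => hmax hl
  have hmin' : ∀ l ∈ L, ψ' l0 ≤ ψ' l := fun l hl => hmin hl
  -- differences are multiples of `l1 - l0`
  refine ⟨![-l0, -l1, 0], fun l hl m hm => ?_⟩
  have hlm : ψ (l - m) = 0 := by rw [map_sub, hψ l hl m hm, sub_self]
  have h10 : ψ (l1 - l0) = 0 := by rw [map_sub, hψ l1 hl1 l0 hl0, sub_self]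
  have hw0 : 0 ≤ ψ' l1 - ψ' l0 := sub_nonneg.2 (hmin' l1 hl1)
  rcases hw0.eq_or_lt with hw | hw
  · -- `L` is a point
    have h3 : l - m = 0 := by
      refine hinj _ hlm ?_
      rw [map_sub]
      have := hmax' l hl
      have := hmin' l hl
      have := hmax' m hm
      have := hmin' m hm
      linarith
    refine ⟨0, ?_⟩
    show l - m - (-l0) ∈ L
    rw [h3, zero_sub, neg_neg]
    exact hl0
  · obtain ⟨s, hs⟩ : ∃ s : ℝ, s = (ψ' l - ψ' m) / (ψ' l1 - ψ' l0) := ⟨_, rfl⟩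
    have hs1 : s * (ψ' l1 - ψ' l0) = ψ' l - ψ' m := by rw [hs, div_mul_cancel₀ _ hw.ne']
    have h3 : l - m = s • (l1 - l0) := by
      have : l - m - s • (l1 - l0) = 0 := by
        refine hinj _ ?_ ?_
        · rw [map_sub, map_smul, hlm, h10]
          simp
        · rw [map_sub, map_smul, map_sub, map_sub, smul_eq_mul]
          linarith
      exact sub_eq_zero.1 this
    have k1 := hmax' l hl
    have k2 := hmin' l hl
    have k3 := hmax' m hm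
    have k4 := hmin' m hm
    have hs2 : s ≤ 1 := by
      rw [hs, div_le_one hw]
      linarith
    have hs3 : -1 ≤ s := by
      rw [hs, le_div_iff₀ hw]
      linarith
    rcases le_total 0 s with h | h
    · refine ⟨0, ?_⟩
      show l - m - (-l0) ∈ L
      have e1 : l - m - (-l0) = (1 - s) • l0 + s • l1 := by rw [h3]; module
      rw [e1]
      exact hc hl0 hl1 (by linarith) h (by ring)
    · refine ⟨1, ?_⟩
      show l - m - (-l1) ∈ L
      have e1 : l - m - (-l1) = (-s) • l0 + (1 + s) • l1 := by rw [h3]; module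
      rw [e1]
      exact hc hl0 hl1 (by linarith) (by linarith) (by ring)

/-- Arbitrary sets. -/
theorem MM_any (h2 : Module.finrank ℝ E = 2) (hMM : StatementMM) (hPE : PairEq) {L : Set E}
    (hL : IsCompact L) (hc : Convex ℝ L) (hn : L.Nonempty)
    {ι : Type*} [Finite ι] (F : ι → Set E) (i0 i1 : ι) (hi : i0 ≠ i1) (hF0 : ∀ i, (F i).Nonempty)
    (hFF : ∀ i j, i ≠ j → ∀ a ∈ F i, ∀ b ∈ F j, ∃ l ∈ L, ∃ m ∈ L, a - b = l - m) :
    ∃ (c : ι) (T : Fin 3 → E), ∀ i, i ≠ c → ∀ a ∈ F i, ∃ j, a - T j ∈ L := by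
  by_cases hnd : ∀ ψ : StrongDual ℝ E, ψ ≠ 0 → ∃ l ∈ L, ∃ m ∈ L, ψ l ≠ ψ m
  · -- closures
    obtain ⟨D, hD⟩ : ∃ D : Set E, D = {d | ∃ l ∈ L, ∃ m ∈ L, d = l - m} := ⟨_, rfl⟩
    have hDk : IsCompact D := by
      have h1 : D = (fun z : E × E => z.1 - z.2) '' (L ×ˢ L) := by
        rw [hD]
        ext d
        constructor
        · rintro ⟨l, hl, m, hm, rfl⟩
          exact ⟨(l, m), ⟨hl, hm⟩, rfl⟩
        · rintro ⟨⟨l, m⟩, ⟨hl, hm⟩, rfl⟩
          exact ⟨l, hl, m, hm, rfl⟩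
      rw [h1]
      exact (hL.prod hL).image (by fun_prop)
    have hFD : ∀ i j, i ≠ j → ∀ a ∈ F i, ∀ b ∈ F j, a - b ∈ D := by
      intro i j hij a ha b hb
      rw [hD]
      exact hFF i j hij a ha b hb
    have h1 : ∀ i j, i ≠ j → ∀ a ∈ closure (F i), ∀ b ∈ F j, a - b ∈ D := by
      intro i j hij a ha b hb
      have hcl : IsClosed {a : E | a - b ∈ D} := hDk.isClosed.preimage (by fun_prop)
      have hsub : F i ⊆ {a : E | a - b ∈ D} := fun a ha => hFD i j hij a ha b hb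
      exact closure_minimal hsub hcl ha
    have h3 : ∀ i j, i ≠ j → ∀ a ∈ closure (F i), ∀ b ∈ closure (F j), a - b ∈ D := by
      intro i j hij a ha b hb
      have hcl : IsClosed {b : E | a - b ∈ D} := hDk.isClosed.preimage (by fun_prop)
      have hsub : F j ⊆ {b : E | a - b ∈ D} := fun b hb => h1 i j hij a ha b hb
      exact closure_minimal hsub hcl hb
    have hVk : ∀ i, IsCompact (closure (F i)) := by
      intro i
      obtain ⟨j, hj⟩ : ∃ j, i ≠ j := by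
        by_cases h : i = i0
        · exact ⟨i1, by rw [h]; exact hi⟩
        · exact ⟨i0, h⟩
      obtain ⟨b, hb⟩ := hF0 j
      have hk : IsCompact ((fun d => b + d) '' D) := hDk.image (by fun_prop)
      refine hk.of_isClosed_subset isClosed_closure fun a ha => ?_
      exact ⟨a - b, h1 i j hj a ha b hb, by show b + (a - b) = a; abel⟩
    obtain ⟨c, T, hT⟩ := MM_compact h2 hMM hPE hL hc hn hnd (fun i => closure (F i)) hVk i0 i1 hi
      (fun i => (hF0 i).closure) (by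
        intro i j hij a ha b hb
        have := h3 i j hij a ha b hb
        rw [hD] at this
        exact this)
    exact ⟨c, T, fun i hi a ha => hT i hi a (subset_closure ha)⟩
  · push Not at hnd
    obtain ⟨ψ, hψ0, hψ⟩ := hnd
    obtain ⟨T, hT⟩ := MM_degenerate h2 hL hc hn hψ0 hψ
    obtain ⟨b, hb⟩ := hF0 i0
    refine ⟨i0, fun j => b + T j, fun i hi' a ha => ?_⟩
    obtain ⟨l, hl, m, hm, h1⟩ := hFF i i0 hi' a ha b hb
    obtain ⟨j, h3⟩ := hT l hl m hm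
    refine ⟨j, ?_⟩
    show a - (b + T j) ∈ L
    rw [← sub_sub, h1]
    exact h3

/-- The frozen statement `S09447`. -/
theorem S09447_of_MM (hMM : StatementMM) (hPE : PairEq) :
    ∀ (n : ℕ), 2 ≤ n →
    ∀ (K : Set (EuclideanSpace ℝ (Fin 2))), IsCompact K → Convex ℝ K →
    ∀ (F : Fin n → Set (EuclideanSpace ℝ (Fin 2))),
      (∀ i, (F i).Nonempty) →
      (∀ i j : Fin n, i ≠ j → ∀ a ∈ F i, ∀ b ∈ F j, ((a +ᵥ K) ∩ (b +ᵥ K)).Nonempty) →
      ∃ m : Fin n, ∃ P : Finset (EuclideanSpace ℝ (Fin 2)), P.card ≤ 3 ∧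
        ∀ i : Fin n, i ≠ m → ∀ a ∈ F i, ∃ p ∈ P, p ∈ a +ᵥ K := by
  classical
  intro n hn2 K hK hc F hF h
  have hAR : ∀ i j : Fin n, i ≠ j → ∀ a ∈ F i, ∀ b ∈ F j, ∃ l ∈ -K, ∃ m ∈ -K, a - b = l - m := by
    intro i j hij a ha b hb
    obtain ⟨z, ⟨k, hk, hk1⟩, ⟨k', hk', hk2⟩⟩ := h i j hij a ha b hb
    refine ⟨-k, by simpa using hk, -k', by simpa using hk', ?_⟩
    have h1 : a + k = z := hk1
    have h2 : b + k' = z := hk2
    have h3 : a = z - k := by rw [← h1]; abel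
    have h4 : b = z - k' := by rw [← h2]; abel
    rw [h3, h4]
    abel
  obtain ⟨i0, hi0⟩ : ∃ i0 : Fin n, i0 = ⟨0, by omega⟩ := ⟨_, rfl⟩
  obtain ⟨i1, hi1⟩ : ∃ i1 : Fin n, i1 = ⟨1, by omega⟩ := ⟨_, rfl⟩
  have hi : i0 ≠ i1 := by
    rw [hi0, hi1]
    intro h
    have := congrArg Fin.val h
    simp at this
  have hn : (-K).Nonempty := by
    obtain ⟨a, ha⟩ := hF i0
    obtain ⟨b, hb⟩ := hF i1
    obtain ⟨l, hl, -⟩ := hAR i0 i1 hi a ha b hb
    exact ⟨l, hl⟩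
  obtain ⟨c, T, hT⟩ := MM_any (by simp) hMM hPE hK.neg hc.neg hn F i0 i1 hi hF hAR
  refine ⟨c, Finset.univ.image T, Finset.card_image_le.trans (by simp), fun i hic a ha => ?_⟩
  obtain ⟨j, hj⟩ := hT i hic a ha
  refine ⟨T j, Finset.mem_image_of_mem _ (Finset.mem_univ _), ?_⟩
  rw [Set.mem_neg] at hj
  refine ⟨-(a - T j), hj, ?_⟩
  show a + -(a - T j) = T j
  abel

end Pool.Agent.H81.R2
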