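import Mathlib

/-!
# The tripod criterion

All sets live in the plane `v 0 + v 1 + v 2 = 0` of `Fin 3 → ℝ`; a linear functional is a triple
`c` modulo constants. `L` is closed and convex, contained in the hexagon `-q k ≤ v k ≤ p k`, with contact
points `P k` (`v k = p k`) and `Q k` (`v k = - q k`). The region `(x + L + ν (L - L))` cut by
`z k ≤ p k - ν (p k + q k)` is covered by three translates `T j + L` as soon as there are points
`N k` in `T i + L` and `T j + L` beyond the cut `k`, a common point `X`, and the linear conditions below.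
-/

set_option autoImplicit false

namespace Pool.Agent.H81.R2

/-- Lower bounds in a sector. -/
lemma lowb {s r S R vi vk : ℝ} (hr : 0 ≤ r) (hrs : r ≤ s) (hS : 0 < S) (hR : 0 ≤ R)
    (e : 0 < s → S = s ∧ R = r) (h : vk ≤ s) (g : 0 ≤ S * vi + R * vk) :
    -r ≤ vi ∧ (s ≤ 0 → 0 ≤ vi) := by
  have hz : s ≤ 0 → 0 ≤ vi := by
    intro hs
    have h1 : R * vk ≤ 0 := mul_nonpos_of_nonneg_of_nonpos hR (by linarith)
    by_contra hcon
    push Not at hcon
    nlinarith
  refine ⟨?_, hz⟩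
  rcases lt_or_ge 0 s with hs | hs
  · obtain ⟨rfl, rfl⟩ := e hs
    have h1 : R * vk ≤ R * S := mul_le_mul_of_nonneg_left h hR
    by_contra hcon
    push Not at hcon
    nlinarith
  · have := hz hs
    linarith

/-- Both coefficients negative is impossible: one half of the argument. -/
lemma noNeg {s r vi vk p q : ℝ} (hs : 0 < s) (hr : 0 ≤ r) (hp : 0 < p)
    (h : vk ≤ s) (g : 0 ≤ s * vi + r * vk) (hvi : vi < 0)
    (a0 : p * vi + q * vk < 0) (a2 : p * vi + q * vk < q * s - p * r) : False := by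
  have hrv : 0 < r * vk := by nlinarith
  have hvk : 0 < vk := by
    by_contra hcon
    push Not at hcon
    have := mul_nonpos_of_nonneg_of_nonpos hr hcon
    linarith
  have h1 : vk * (q * s - p * r) ≤ s * (p * vi + q * vk) := by
    have := mul_nonneg hp.le g
    nlinarith
  rcases le_total 0 (q * s - p * r) with h2 | h2
  · have h3 := mul_nonneg hvk.le h2
    have h4 : s * (p * vi + q * vk) < 0 := mul_neg_of_pos_of_neg hs a0
    linarith
  · have h3 : s * (q * s - p * r) ≤ vk * (q * s - p * r) :=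
      mul_le_mul_of_nonpos_right h h2
    have h4 : s * (p * vi + q * vk) < s * (q * s - p * r) := mul_lt_mul_of_pos_left a2 hs
    linarith

/-- A functional which separates a point of the sector from the three corners lies in the right cone. -/
lemma noBad {si ri sk rk Si Ri Sk Rk vi vk α β : ℝ} (hi : 0 ≤ ri) (hi' : ri ≤ si) (hk : 0 ≤ rk)
    (hk' : rk ≤ sk) (hSi : 0 < Si) (hRi : 0 ≤ Ri) (hSk : 0 < Sk) (hRk : 0 ≤ Rk)
    (eSi : 0 < si → Si = si ∧ Ri = ri) (eSk : 0 < sk → Sk = sk ∧ Rk = rk)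
    (h1 : vi ≤ si) (h2 : vk ≤ sk) (g1 : 0 ≤ Si * vk + Ri * vi) (g2 : 0 ≤ Sk * vi + Rk * vk)
    (a0 : 0 < α * vi + β * vk) (a1 : α * si - β * ri < α * vi + β * vk)
    (a2 : β * sk - α * rk < α * vi + β * vk) :
    0 ≤ α ∧ 0 ≤ β := by
  obtain ⟨f1, f1'⟩ := lowb hk hk' hSk hRk eSk h2 g2
  obtain ⟨f2, f2'⟩ := lowb hi hi' hSi hRi eSi h1 g1
  rcases lt_or_ge α 0 with hα | hα <;> rcases lt_or_ge β 0 with hβ | hβ
  · exfalso
    rcases lt_or_ge vi 0 with hvi | hvi
    · have hs : 0 < sk := by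
        by_contra hcon
        push Not at hcon
        have := f1' hcon
        linarith
      obtain ⟨rfl, rfl⟩ := eSk hs
      exact noNeg (p := -α) (q := -β) hs hk (by linarith) h2 g2 hvi (by linarith) (by linarith)
    · rcases lt_or_ge vk 0 with hvk | hvk
      · have hs : 0 < si := by
          by_contra hcon
          push Not at hcon
          have := f2' hcon
          linarith
        obtain ⟨rfl, rfl⟩ := eSi hs
        exact noNeg (p := -β) (q := -α) hs hi (by linarith) h1 g1 hvk (by linarith) (by linarith)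
      · have e1 := mul_nonpos_of_nonpos_of_nonneg hα.le hvi
        have e2 := mul_nonpos_of_nonpos_of_nonneg hβ.le hvk
        linarith
  · exfalso
    have e1 : α * (vi + rk) ≤ 0 := mul_nonpos_of_nonpos_of_nonneg hα.le (by linarith)
    have e2 : 0 ≤ β * (sk - vk) := mul_nonneg hβ (by linarith)
    nlinarith
  · exfalso
    have e1 : β * (vk + ri) ≤ 0 := mul_nonpos_of_nonpos_of_nonneg hβ.le (by linarith)
    have e2 : 0 ≤ α * (si - vi) := mul_nonneg hα (by linarith)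
    nlinarith
  · exact ⟨hα, hβ⟩

/-- Every vector lies in one of the three sectors. -/
lemma sector_exists (D : Fin 3 → Fin 3 → ℝ) (hD : ∀ k, D k 0 + D k 1 + D k 2 = 0)
    (hn : ∀ k i, i ≠ k → D k i ≤ 0) (hp : ∀ k, 0 < D k k) (v : Fin 3 → ℝ) (hv : v 0 + v 1 + v 2 = 0) :
    ∃ j : Fin 3, ∀ i k, i ≠ j → k ≠ j → i ≠ k → D i k * v i ≤ D i i * v k := by
  have a01 := hn 0 1 (by decide)
  have a02 := hn 0 2 (by decide)
  have a10 := hn 1 0 (by decide)
  have a12 := hn 1 2 (by decide)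
  have a20 := hn 2 0 (by decide)
  have a21 := hn 2 1 (by decide)
  have p0 := hp 0
  have p1 := hp 1
  have p2 := hp 2
  have e0 := hD 0
  have e1 := hD 1
  have e2 := hD 2
  have v2 : v 2 = -v 0 - v 1 := by linarith
  have d00 : D 0 0 = -D 0 1 - D 0 2 := by linarith
  have d11 : D 1 1 = -D 1 0 - D 1 2 := by linarith
  have d22 : D 2 2 = -D 2 0 - D 2 1 := by linarith
  obtain ⟨c0, hc0⟩ : ∃ c, c = D 0 0 * v 1 - D 0 1 * v 0 := ⟨_, rfl⟩
  obtain ⟨c1, hc1⟩ : ∃ c, c = D 1 1 * v 2 - D 1 2 * v 1 := ⟨_, rfl⟩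
  obtain ⟨c2, hc2⟩ : ∃ c, c = D 2 2 * v 0 - D 2 0 * v 2 := ⟨_, rfl⟩
  have c0' : D 0 0 * v 2 - D 0 2 * v 0 = -c0 := by rw [hc0, v2]; rw [d00]; ring
  have c1' : D 1 1 * v 0 - D 1 0 * v 1 = -c1 := by rw [hc1, v2]; rw [d11]; ring
  have c2' : D 2 2 * v 1 - D 2 1 * v 2 = -c2 := by rw [hc2, v2]; rw [d22]; ring
  by_cases s2 : 0 ≤ c0 ∧ c1 ≤ 0
  · refine ⟨2, ?_⟩
    intro i k h1 h2 h3
    fin_cases i <;> fin_cases k <;> simp at h1 h2 h3 ⊢ <;> linarith [s2.1, s2.2]
  by_cases s0 : 0 ≤ c1 ∧ c2 ≤ 0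
  · refine ⟨0, ?_⟩
    intro i k h1 h2 h3
    fin_cases i <;> fin_cases k <;> simp at h1 h2 h3 ⊢ <;> linarith [s0.1, s0.2]
  by_cases s1 : 0 ≤ c2 ∧ c0 ≤ 0
  · refine ⟨1, ?_⟩
    intro i k h1 h2 h3
    fin_cases i <;> fin_cases k <;> simp at h1 h2 h3 ⊢ <;> linarith [s1.1, s1.2]
  exfalso
  obtain ⟨l0, hl0⟩ : ∃ l, l = D 1 0 * D 2 0 + D 1 0 * D 2 1 + D 1 2 * D 2 0 := ⟨_, rfl⟩
  obtain ⟨l1, hl1⟩ : ∃ l, l = D 2 0 * D 0 1 + D 2 1 * D 0 1 + D 2 1 * D 0 2 := ⟨_, rfl⟩
  obtain ⟨l2, hl2⟩ : ∃ l, l = D 0 1 * D 1 2 + D 0 2 * D 1 0 + D 0 2 * D 1 2 := ⟨_, rfl⟩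
  have nn : ∀ a b : ℝ, a ≤ 0 → b ≤ 0 → 0 ≤ a * b := fun a b ha hb => mul_nonneg_of_nonpos_of_nonpos ha hb
  have l0p : 0 ≤ l0 := by rw [hl0]; linarith [nn _ _ a10 a20, nn _ _ a10 a21, nn _ _ a12 a20]
  have l1p : 0 ≤ l1 := by rw [hl1]; linarith [nn _ _ a20 a01, nn _ _ a21 a01, nn _ _ a21 a02]
  have l2p : 0 ≤ l2 := by rw [hl2]; linarith [nn _ _ a01 a12, nn _ _ a02 a10, nn _ _ a02 a12]
  have lpos : 0 < l1 ∨ 0 < l2 := by
    rcases lt_or_ge (D 0 1) 0 with h | h
    · left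
      have h1 : 0 < D 0 1 * (D 2 0 + D 2 1) := mul_pos_of_neg_of_neg h (by linarith)
      rw [hl1]
      linarith [nn _ _ a21 a02, mul_add (D 0 1) (D 2 0) (D 2 1), mul_comm (D 0 1) (D 2 0),
        mul_comm (D 0 1) (D 2 1)]
    · right
      have h1 : 0 < D 0 2 * (D 1 0 + D 1 2) := mul_pos_of_neg_of_neg (by linarith) (by linarith)
      rw [hl2]
      linarith [nn _ _ a01 a12, mul_add (D 0 2) (D 1 0) (D 1 2)]
  have key : l0 * c0 + l1 * c1 + l2 * c2 = 0 := by
    rw [hl0, hl1, hl2, hc0, hc1, hc2, v2, d00, d11, d22]; ring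
  rw [not_and_or, not_le, not_le] at s2 s0 s1
  have hall : (0 < c0 ∧ 0 < c1 ∧ 0 < c2) ∨ (c0 < 0 ∧ c1 < 0 ∧ c2 < 0) := by
    rcases s2 with s2 | s2
    · rcases s1 with s1 | s1
      · rcases s0 with s0 | s0
        · exact Or.inr ⟨s2, s0, s1⟩
        · exfalso; linarith
      · exfalso; linarith
    · rcases s0 with s0 | s0
      · exfalso; linarith
      · rcases s1 with s1 | s1
        · exfalso; linarith
        · exact Or.inl ⟨s1, s2, s0⟩
  rcases hall with ⟨h0, h1, h2⟩ | ⟨h0, h1, h2⟩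
  · have m0 := mul_nonneg l0p h0.le
    have m1 := mul_nonneg l1p h1.le
    have m2 := mul_nonneg l2p h2.le
    rcases lpos with h | h
    · have := mul_pos h h1
      linarith
    · have := mul_pos h h2
      linarith
  · have m0 := mul_nonpos_of_nonneg_of_nonpos l0p h0.le
    have m1 := mul_nonpos_of_nonneg_of_nonpos l1p h1.le
    have m2 := mul_nonpos_of_nonneg_of_nonpos l2p h2.le
    rcases lpos with h | h
    · have := mul_neg_of_pos_of_neg h h1
      linarith
    · have := mul_neg_of_pos_of_neg h h2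
      linarith

/-- The condition at a corner (Lemma 2, product form). -/
def Corner (A1 A2 G o κ ν : ℝ) : Prop :=
  A1 * A2 ≤ G * A2 + o * A1 ∨ κ ≤ 0 ∨ κ * A2 ≤ (1 + ν) * G * A2 + o * κ

lemma corner_use {A1 A2 G o κ ν α β δ : ℝ} (hC : Corner A1 A2 G o κ ν) (hA1 : 0 ≤ A1) (hA2 : 0 ≤ A2)
    (hG : 0 ≤ G) (ho : 0 ≤ o) (hν : 0 ≤ ν) (hα : 0 ≤ α) (hβ : 0 ≤ β) (h1 : δ ≤ α * A1)
    (h2 : δ ≤ β * A2) : δ ≤ α * G + β * o ∨ α * κ ≤ α * G + β * o + ν * δ := by
  by_contra hcon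
  rw [not_or, not_le, not_le] at hcon
  obtain ⟨k1, k2⟩ := hcon
  have hG' := mul_nonneg hα hG
  have ho' := mul_nonneg hβ ho
  have hE : 0 ≤ α * G + β * o := by linarith
  have hA2' : 0 < A2 := by
    rcases hA2.lt_or_eq with h | h
    · exact h
    · exfalso
      rw [← h] at h2
      linarith
  have hA1' : 0 < A1 := by
    rcases hA1.lt_or_eq with h | h
    · exact h
    · exfalso
      rw [← h] at h1
      linarith
  rcases hC with hC | hC | hC
  · -- `E * A1 * A2 ≥ δ * A1 * A2`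
    have e1 : (α * G + β * o) * (A1 * A2) = (α * A1) * (G * A2) + (β * A2) * (o * A1) := by ring
    have e2 : δ * (G * A2) ≤ (α * A1) * (G * A2) :=
      mul_le_mul_of_nonneg_right h1 (mul_nonneg hG hA2)
    have e3 : δ * (o * A1) ≤ (β * A2) * (o * A1) :=
      mul_le_mul_of_nonneg_right h2 (mul_nonneg ho hA1)
    have e4 : δ * (A1 * A2) ≤ δ * (G * A2 + o * A1) := mul_le_mul_of_nonneg_left hC (by linarith)
    have e5 : (α * G + β * o) * (A1 * A2) < δ * (A1 * A2) :=
      mul_lt_mul_of_pos_right k1 (mul_pos hA1' hA2')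
    nlinarith
  · have e1 : α * κ ≤ 0 := mul_nonpos_of_nonneg_of_nonpos hα hC
    have e2 : 0 ≤ ν * δ := mul_nonneg hν (by linarith)
    linarith
  · rcases le_or_gt κ 0 with hκ | hκ
    · have e1 : α * κ ≤ 0 := mul_nonpos_of_nonneg_of_nonpos hα hκ
      have e2 : 0 ≤ ν * δ := mul_nonneg hν (by linarith)
      linarith
    have hνE : ν * (α * G + β * o) ≤ ν * δ := mul_le_mul_of_nonneg_left k1.le hν
    have f1 : 0 < α * κ - (1 + ν) * (α * G + β * o) := by linarith
    have f2 : 0 < β * A2 - (α * G + β * o) := by linarith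
    have g1 : 0 ≤ (α * κ - (1 + ν) * (α * G + β * o)) * (G * A2) :=
      mul_nonneg f1.le (mul_nonneg hG hA2)
    have g2 : 0 ≤ (β * A2 - (α * G + β * o)) * (o * κ) := mul_nonneg f2.le (mul_nonneg ho hκ.le)
    have g3 : 0 ≤ (α * G + β * o) * ((1 + ν) * G * A2 + o * κ - κ * A2) :=
      mul_nonneg hE (by linarith)
    have tot : (α * κ - (1 + ν) * (α * G + β * o)) * (G * A2)
        + (β * A2 - (α * G + β * o)) * (o * κ)
        + (α * G + β * o) * ((1 + ν) * G * A2 + o * κ - κ * A2) = 0 := by ring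
    have z1 : G * A2 = 0 := by
      rcases (mul_nonneg hG hA2).lt_or_eq with h | h
      · exfalso
        have := mul_pos f1 h
        linarith
      · exact h.symm
    have z2 : o * κ = 0 := by
      rcases (mul_nonneg ho hκ.le).lt_or_eq with h | h
      · exfalso
        have := mul_pos f2 h
        linarith
      · exact h.symm
    have : κ * A2 ≤ 0 := by
      have : (1 + ν) * G * A2 = (1 + ν) * (G * A2) := by ring
      rw [this, z1, z2] at hC
      linarith
    have := mul_pos hκ hA2'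
    linarith

/-- The outer condition in one direction. -/
lemma outer {α β u ν pi qi pj qj xi xj zi zj Ti Tj A1 A2 : ℝ} (hα : 0 ≤ α) (hβ : 0 ≤ β) (hν : 0 ≤ ν)
    (hA1 : 0 ≤ A1) (hA2 : 0 ≤ A2)
    (hPi : α * pi - β * (A2 - qj) ≤ u) (hQj : α * (pi - A1) + β * qj ≤ u)
    (b1 : α * zi - β * zj ≤ α * xi - β * xj + u + ν * (u + α * qi + β * pj))
    (hzi : zi ≤ pi - ν * (pi + qi)) (hzj : -zj ≤ qj + ν * (pj + qj) - xj)
    (hG : 0 ≤ Ti + ν * (pi + qi)) (ho : 0 ≤ -Tj - (ν * (pj + qj) - xj))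
    (hC : Corner A1 A2 (Ti + ν * (pi + qi)) (-Tj - (ν * (pj + qj) - xj)) (2 * ν * (pi + qi) + xi) ν) :
    α * zi - β * zj ≤ u + α * Ti - β * Tj := by
  have h1 : α * pi + β * qj - u ≤ α * A1 := by linarith [mul_sub α pi A1]
  have h2 : α * pi + β * qj - u ≤ β * A2 := by linarith [mul_sub β A2 qj]
  rcases corner_use hC hA1 hA2 hG ho hν hα hβ h1 h2 with h | h
  · have e1 := mul_le_mul_of_nonneg_left hzi hα
    have e2 := mul_le_mul_of_nonneg_left hzj hβ
    nlinarith
  · nlinarith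

/-- A sum over `Fin 3` with a distinguished index. -/
lemma others (j : Fin 3) : ∃ i k : Fin 3, i ≠ j ∧ k ≠ j ∧ i ≠ k ∧
    ∀ g : Fin 3 → ℝ, g 0 + g 1 + g 2 = g i + g j + g k := by
  fin_cases j
  · exact ⟨1, 2, by decide, by decide, by decide, fun g => by simp; ring⟩
  · exact ⟨0, 2, by decide, by decide, by decide, fun g => by simp⟩
  · exact ⟨0, 1, by decide, by decide, by decide, fun g => by simp; ring⟩

/-- The tripod criterion. -/
theorem tripod (L : Set (Fin 3 → ℝ)) (hLc : IsClosed L) (hLv : Convex ℝ L)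
    (hL0 : ∀ v ∈ L, v 0 + v 1 + v 2 = 0) (P Q : Fin 3 → Fin 3 → ℝ) (p q : Fin 3 → ℝ)
    (hP : ∀ k, P k ∈ L) (hQ : ∀ k, Q k ∈ L) (hPk : ∀ k, P k k = p k) (hQk : ∀ k, Q k k = -q k)
    (hLb : ∀ v ∈ L, ∀ k, -q k ≤ v k ∧ v k ≤ p k)
    (ν : ℝ) (hν : 0 ≤ ν) (x : Fin 3 → ℝ) (T N : Fin 3 → Fin 3 → ℝ)
    (X : Fin 3 → ℝ) (hT : ∀ j, T j 0 + T j 1 + T j 2 = 0)
    (hN : ∀ k j, j ≠ k → N k - T j ∈ L) (hX : ∀ j, X - T j ∈ L)
    (hcut : ∀ k, p k - ν * (p k + q k) ≤ N k k) (hK : ∀ i k, i ≠ k → N i k ≤ X k)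
    (hG : ∀ j i, i ≠ j → 0 ≤ T j i + ν * (p i + q i))
    (ho : ∀ j, 0 ≤ -T j j - (ν * (p j + q j) - x j))
    (hC : ∀ j i, i ≠ j → Corner (p i - Q j i) (P i j + q j) (T j i + ν * (p i + q i))
      (-T j j - (ν * (p j + q j) - x j)) (2 * ν * (p i + q i) + x i) ν)
    (z : Fin 3 → ℝ) (hz0 : z 0 + z 1 + z 2 = 0) (hx0 : x 0 + x 1 + x 2 = 0)
    (hz : ∃ l ∈ L, ∃ a ∈ L, ∃ b ∈ L, z = x + l + ν • (a - b))
    (hzk : ∀ k, z k ≤ p k - ν * (p k + q k)) : ∃ j, z - T j ∈ L := by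
  obtain ⟨l, hl, a, ha, b, hb, hzl⟩ := hz
  have hX0 : X 0 + X 1 + X 2 = 0 := by
    have h1 := hL0 _ (hX 0)
    have h2 := hT 0
    simp only [Pi.sub_apply] at h1
    linarith
  have hN0 : ∀ k, N k 0 + N k 1 + N k 2 = 0 := by
    intro k
    obtain ⟨i, _, hik, -, -, -⟩ := others k
    have h1 := hL0 _ (hN k i hik)
    have h2 := hT i
    simp only [Pi.sub_apply] at h1
    linarith
  obtain ⟨d, hd⟩ : ∃ d : Fin 3 → Fin 3 → ℝ, d = fun k => N k - X := ⟨_, rfl⟩
  have hd0 : ∀ k, d k 0 + d k 1 + d k 2 = 0 := by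
    intro k
    have := hN0 k
    rw [hd]
    simp only [Pi.sub_apply]
    linarith
  have hdn : ∀ k i, i ≠ k → d k i ≤ 0 := by
    intro k i hik
    have := hK k i hik.symm
    rw [hd]
    simp only [Pi.sub_apply]
    linarith
  have hdp : ∀ k, 0 ≤ d k k := by
    intro k
    obtain ⟨i, i', h1, h2, -, h4⟩ := others k
    have h5 := h4 (d k)
    have := hd0 k
    have := hdn k i h1
    have := hdn k i' h2
    linarith
  obtain ⟨D, hD⟩ : ∃ D : Fin 3 → Fin 3 → ℝ,
      D = fun k => if 0 < d k k then d k else fun i => if i = k then 2 else -1 := ⟨_, rfl⟩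
  have hD1 : ∀ k, 0 < d k k → D k = d k := by
    intro k hk
    rw [hD]
    simp [hk]
  have hD2 : ∀ k, ¬ 0 < d k k → ∀ i, D k i = if i = k then 2 else -1 := by
    intro k hk i
    rw [hD]
    simp [hk]
  have hDs : ∀ k, D k 0 + D k 1 + D k 2 = 0 := by
    intro k
    by_cases hk : 0 < d k k
    · rw [hD1 k hk]; exact hd0 k
    · obtain ⟨i, i', h1, h2, -, h4⟩ := others k
      rw [h4 (D k), hD2 k hk, hD2 k hk, hD2 k hk, if_neg h1, if_neg h2, if_pos rfl]
      norm_num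
  have hDn : ∀ k i, i ≠ k → D k i ≤ 0 := by
    intro k i hik
    by_cases hk : 0 < d k k
    · rw [hD1 k hk]; exact hdn k i hik
    · rw [hD2 k hk, if_neg hik]; norm_num
  have hDp : ∀ k, 0 < D k k := by
    intro k
    by_cases hk : 0 < d k k
    · rw [hD1 k hk]; exact hk
    · rw [hD2 k hk, if_pos rfl]; norm_num
  obtain ⟨v, hv⟩ : ∃ v : Fin 3 → ℝ, v = z - X := ⟨_, rfl⟩
  have hv0 : v 0 + v 1 + v 2 = 0 := by
    rw [hv]
    simp only [Pi.sub_apply]
    linarith
  have hvd : ∀ k, v k ≤ d k k := by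
    intro k
    have h1 := hzk k
    have h2 := hcut k
    rw [hv, hd]
    simp only [Pi.sub_apply]
    linarith
  obtain ⟨j, hj⟩ := sector_exists D hDs hDn hDp v hv0
  refine ⟨j, ?_⟩
  by_contra hnot
  obtain ⟨f, u, hf1, hf2⟩ := geometric_hahn_banach_closed_point hLv hLc hnot
  obtain ⟨c, hc⟩ : ∃ c : Fin 3 → ℝ, c = fun i => f (Pi.single i 1) := ⟨_, rfl⟩
  have hfc : ∀ y : Fin 3 → ℝ, f y = c 0 * y 0 + c 1 * y 1 + c 2 * y 2 := by
    intro y
    have h1 : y = y 0 • (Pi.single 0 1 : Fin 3 → ℝ) + y 1 • (Pi.single 1 1 : Fin 3 → ℝ)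
        + y 2 • (Pi.single 2 1 : Fin 3 → ℝ) := by
      ext m
      fin_cases m <;> simp
    rw [h1, map_add, map_add, map_smul, map_smul, map_smul, hc]
    simp only [smul_eq_mul, Pi.add_apply, Pi.smul_apply, Pi.single_apply]
    simp
    ring
  obtain ⟨i, k, hij, hkj, hik, hsum⟩ := others j
  have hf : ∀ y : Fin 3 → ℝ, f y = c i * y i + c j * y j + c k * y k := by
    intro y
    rw [hfc y]
    exact hsum (fun m => c m * y m)
  have hjv : ∀ y : Fin 3 → ℝ, y 0 + y 1 + y 2 = 0 → y j = -y i - y k := by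
    intro y hy
    have := hsum y
    linarith
  have hf' : ∀ y : Fin 3 → ℝ, y 0 + y 1 + y 2 = 0 → f y = (c i - c j) * y i + (c k - c j) * y k := by
    intro y hy
    rw [hf y, hjv y hy]
    ring
  -- the separating functional is larger at `z` than at the corners
  have q0 : f (X - T j) < f (z - T j) := lt_trans (hf1 _ (hX j)) hf2
  have q1 : f (N i - T j) < f (z - T j) := lt_trans (hf1 _ (hN i j hij.symm)) hf2
  have q2 : f (N k - T j) < f (z - T j) := lt_trans (hf1 _ (hN k j hkj.symm)) hf2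
  have hvi : f v = f (z - T j) - f (X - T j) := by
    rw [← map_sub, hv, sub_sub_sub_cancel_right]
  have hdi : f (d i) = f (N i - T j) - f (X - T j) := by
    rw [← map_sub, hd, sub_sub_sub_cancel_right]
  have hdk : f (d k) = f (N k - T j) - f (X - T j) := by
    rw [← map_sub, hd, sub_sub_sub_cancel_right]
  have r0 : 0 < f v := by linarith
  have r1 : f (d i) < f v := by linarith
  have r2 : f (d k) < f v := by linarith
  rw [hf' v hv0] at r0 r1 r2
  rw [hf' _ (hd0 i)] at r1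
  rw [hf' _ (hd0 k)] at r2
  have g1 := hj i k hij hkj hik
  have g2 := hj k i hkj hij (Ne.symm hik)
  have hle : ∀ m m' : Fin 3, m ≠ j → m' ≠ j → m ≠ m' → -d m m' ≤ d m m := by
    intro m m' h1 h2 h3
    have e1 := hdn m j (Ne.symm h1)
    obtain ⟨i', k', h4, h5, h6, h7⟩ := others m
    have e2 := h7 (d m)
    have e3 := hd0 m
    have e4 := hdn m i' h4
    have e5 := hdn m k' h5
    have : m' = i' ∨ m' = k' := by
      revert h3 h4 h5 h6
      revert m m' i' k'
      intro m m' _ _ _ i' k'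
      intros
      omega
    rcases this with h | h <;> rw [h] <;> linarith
  have hcone := noBad (si := d i i) (ri := -d i k) (sk := d k k) (rk := -d k i) (Si := D i i)
    (Ri := -D i k) (Sk := D k k) (Rk := -D k i) (vi := v i) (vk := v k) (α := c i - c j)
    (β := c k - c j) (by linarith [hdn i k (Ne.symm hik)]) (hle i k hij hkj hik)
    (by linarith [hdn k i hik]) (hle k i hkj hij (Ne.symm hik)) (hDp i)
    (by linarith [hDn i k (Ne.symm hik)]) (hDp k) (by linarith [hDn k i hik])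
    (fun h => by rw [hD1 i h]; exact ⟨rfl, rfl⟩) (fun h => by rw [hD1 k h]; exact ⟨rfl, rfl⟩)
    (hvd i) (hvd k) (by linarith) (by linarith) r0 (by linarith) (by linarith)
  obtain ⟨hα, hβ⟩ := hcone
  -- bounds for the points of `L`
  have hzs : ∀ m, z m = x m + l m + ν * (a m - b m) := by
    intro m
    rw [hzl]
    simp [smul_eq_mul]
  have hfz : f z = f x + f l + ν * (f a - f b) := by
    rw [hzl, map_add, map_add, map_smul, map_sub, smul_eq_mul]
  have hfl := hf1 l hl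
  have hfa := hf1 a ha
  have hlow : ∀ m, -z m ≤ q m + ν * (p m + q m) - x m := by
    intro m
    have h1 := (hLb l hl m).1
    have h2 := (hLb a ha m).1
    have h3 := (hLb b hb m).2
    have h4 : ν * (b m - a m) ≤ ν * (p m + q m) := mul_le_mul_of_nonneg_left (by linarith) hν
    rw [hzs m]
    linarith [mul_sub ν (b m) (a m), mul_sub ν (a m) (b m)]
  have hA1 : ∀ m m', 0 ≤ p m - Q m' m := fun m m' => by linarith [(hLb _ (hQ m') m).2]
  have hA2 : ∀ m m', 0 ≤ P m m' + q m' := fun m m' => by linarith [(hLb _ (hP m) m').1]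
  -- the final inequality, for the pair `(i, j)` of indices with `c j ≤ c k ≤ c i`
  have final : ∀ i k : Fin 3, i ≠ j → k ≠ j → i ≠ k →
      (∀ y : Fin 3 → ℝ, y 0 + y 1 + y 2 = 0 → f y = (c i - c k) * y i - (c k - c j) * y j) →
      c k ≤ c i → c j ≤ c k → False := by
    intro i k hij hkj hik hfy h1 h2
    have e := outer (α := c i - c k) (β := c k - c j) (u := u) (ν := ν) (pi := p i) (qi := q i)
      (pj := p j) (qj := q j) (xi := x i) (xj := x j) (zi := z i) (zj := z j) (Ti := T j i)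
      (Tj := T j j) (A1 := p i - Q j i) (A2 := P i j + q j) (by linarith) (by linarith) hν
      (hA1 i j) (hA2 i j) ?_ ?_ ?_ (hzk i) (hlow j) (hG j i hij) (ho j) (hC j i hij)
    · have h3 := hfy (z - T j) (by
        have := hT j
        simp only [Pi.sub_apply]
        linarith)
      rw [h3] at hf2
      simp only [Pi.sub_apply] at hf2
      linarith [mul_sub (c i - c k) (z i) (T j i), mul_sub (c k - c j) (z j) (T j j)]
    · have h3 := hf1 _ (hP i)
      rw [hfy _ (hL0 _ (hP i)), hPk i] at h3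
      linarith [mul_sub (c k - c j) (P i j + q j) (q j), mul_add (c k - c j) (P i j) (q j)]
    · have h3 := hf1 _ (hQ j)
      rw [hfy _ (hL0 _ (hQ j)), hQk j] at h3
      linarith [mul_sub (c i - c k) (p i) (p i - Q j i), mul_sub (c i - c k) (p i) (Q j i)]
    · have h3 : f b = (c i - c k) * b i - (c k - c j) * b j := hfy _ (hL0 _ hb)
      have h4 := mul_le_mul_of_nonneg_left (hLb b hb i).1 (show 0 ≤ c i - c k by linarith)
      have h5 := mul_le_mul_of_nonneg_left (hLb b hb j).2 (show 0 ≤ c k - c j by linarith)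
      have h6 : f a - f b ≤ u + (c i - c k) * q i + (c k - c j) * p j := by linarith
      have h7 := mul_le_mul_of_nonneg_left h6 hν
      rw [← hfy z hz0, ← hfy x hx0, hfz]
      linarith
  rcases le_total (c k) (c i) with h | h
  · refine final i k hij hkj hik ?_ h (by linarith)
    intro y hy
    rw [hf' y hy, hjv y hy]
    ring
  · refine final k i hkj hij (Ne.symm hik) ?_ h (by linarith)
    intro y hy
    rw [hf' y hy, hjv y hy]
    ring

end Pool.Agent.H81.R2
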